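import Pool.Agent.H12.AQ.Bas
import Pool.Agent.H77.PX.Root

/-!
# [H12 AQ] Elementary facts on exponents and classes (complete)

* `vmul`: `u v ∈ P^j`, `u ∉ P^r` imply `v ∈ P^(j+1-r)`.
* `cls`: the number of the classes modulo `J` of the elements of `I ≥ J`.
* `cI_pow`, `cI_mul`, `cI_norm`: conjugate ideals.
* `cardL`: the number of classes modulo `(ex M l)^j`.
-/

set_option autoImplicit false
set_option linter.unusedSectionVars false

open scoped NumberField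
open H88.A4 H88.WS Pool.Agent.H67.WA H77.PX Pool.Agent.H12.WM H88.AQ

noncomputable section

namespace H12.AQ

theorem vmul {K : Type} [Field K] [NumberField K] {P : Ideal (𝓞 K)} (hP : P.IsPrime) (hP0 : P ≠ ⊥) {j r : ℕ}
    {u v : 𝓞 K} (h : u * v ∈ P ^ j) (hu : u ∉ P ^ r) : v ∈ P ^ (j + 1 - r) := by
  have hpr : Prime P := Ideal.prime_of_isPrime hP0 hP
  have hdv : ∀ (k : ℕ) (x : 𝓞 K), x ∈ P ^ k ↔ (k : ℕ∞) ≤ emultiplicity P (Ideal.span {x}) := by
    intro k x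
    rw [← pow_dvd_iff_le_emultiplicity, Ideal.dvd_span_singleton]
  rw [hdv, ← Ideal.span_singleton_mul_span_singleton, emultiplicity_mul hpr] at h
  rw [hdv, not_le] at hu
  rw [hdv]
  have hfu : emultiplicity P (Ideal.span {u}) ≠ ⊤ := ne_top_of_lt hu
  obtain ⟨a, ha⟩ := ENat.ne_top_iff_exists.1 hfu
  rw [← ha] at h hu
  rcases eq_or_ne (emultiplicity P (Ideal.span {v})) ⊤ with hv | hv
  · rw [hv]
    exact le_top
  · obtain ⟨c, hc⟩ := ENat.ne_top_iff_exists.1 hv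
    rw [← hc] at h ⊢
    have h1 : j ≤ a + c := by exact_mod_cast h
    have h2 : a < r := by exact_mod_cast hu
    have h3 : j + 1 - r ≤ c := by omega
    exact_mod_cast h3

theorem cls {K : Type} [Field K] [NumberField K] {I J : Ideal (𝓞 K)} (h : J ≤ I) :
    (Ideal.Quotient.mk J '' {x | x ∈ I}).ncard * Ideal.absNorm I = Ideal.absNorm J := by
  have h1 : Nat.card (Submodule.map (Submodule.mkQ J) I) * Nat.card (𝓞 K ⧸ I) =
      Nat.card (𝓞 K ⧸ J) := Submodule.card_quotient_mul_card_quotient I J h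
  rw [Ideal.absNorm_apply, Submodule.cardQuot_apply, Ideal.absNorm_apply, Submodule.cardQuot_apply, ← h1]
  rfl

/-- classes in a coset -/
theorem cls_coset {K : Type} [Field K] [NumberField K] {I J : Ideal (𝓞 K)} (h : J ≤ I) (x0 : 𝓞 K) :
    (Ideal.Quotient.mk J '' {x | x - x0 ∈ I}).ncard * Ideal.absNorm I = Ideal.absNorm J := by
  rw [← cls h]
  congr 1
  have h1 : Ideal.Quotient.mk J '' {x | x - x0 ∈ I} =
      (fun z => z + Ideal.Quotient.mk J x0) '' (Ideal.Quotient.mk J '' {x | x ∈ I}) := by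
    ext z
    constructor
    · rintro ⟨x, hx, rfl⟩
      exact ⟨_, ⟨x - x0, hx, rfl⟩, by simp⟩
    · rintro ⟨_, ⟨x, hx, rfl⟩, rfl⟩
      refine ⟨x + x0, ?_, by simp⟩
      simpa using hx
  rw [h1, Set.ncard_image_of_injective _ (add_left_injective _)]

variable {k M : Type} [Field k] [NumberField k] [Field M] [NumberField M] [Algebra k M]

/-- `τ` as a ring automorphism of the integers -/
def tE {τ : M ≃ₐ[k] M} (hτ : Invo k M τ) : 𝓞 M ≃+* 𝓞 M where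
  toFun := tO τ
  invFun := tO τ
  left_inv := tO_tO hτ
  right_inv := tO_tO hτ
  map_mul' := tO_mul τ
  map_add' := tO_add τ

theorem cI_map {τ : M ≃ₐ[k] M} (hτ : Invo k M τ) (P : Ideal (𝓞 M)) : cI τ P = P.map (tE hτ) := by
  have h : cI τ P = P.comap (tE hτ) := rfl
  rw [h]
  have h2 : P.map (tE hτ) = P.comap ((tE hτ).symm : 𝓞 M ≃+* 𝓞 M) := (Ideal.comap_symm (tE hτ)).symm
  rw [h2]
  rfl

theorem cI_mul {τ : M ≃ₐ[k] M} (hτ : Invo k M τ) (P Q : Ideal (𝓞 M)) : cI τ (P * Q) = cI τ P * cI τ Q := by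
  rw [cI_map hτ, cI_map hτ, cI_map hτ, Ideal.map_mul]

theorem cI_pow {τ : M ≃ₐ[k] M} (hτ : Invo k M τ) (P : Ideal (𝓞 M)) (i : ℕ) : cI τ (P ^ i) = cI τ P ^ i := by
  rw [cI_map hτ, cI_map hτ, Ideal.map_pow]

theorem cI_norm {τ : M ≃ₐ[k] M} (hτ : Invo k M τ) (P : Ideal (𝓞 M)) :
    Ideal.absNorm (cI τ P) = Ideal.absNorm P := by
  rw [Ideal.absNorm_apply, Submodule.cardQuot_apply, Ideal.absNorm_apply, Submodule.cardQuot_apply]
  exact (Nat.card_congr (Ideal.quotientEquiv P (cI τ P) (tE hτ) (cI_map hτ P)).toEquiv).symm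

theorem cI_ne {τ : M ≃ₐ[k] M} (hτ : Invo k M τ) {P : Ideal (𝓞 M)} (h : P ≠ ⊥) : cI τ P ≠ ⊥ := by
  rw [Ne, ← Ideal.absNorm_eq_zero_iff, cI_norm hτ, Ideal.absNorm_eq_zero_iff]
  exact h

/-- the number of classes modulo `l^j 𝓞 M` -/
theorem cardL {τ : M ≃ₐ[k] M} (hτ : Invo k M τ) (l : Ideal (𝓞 k)) (j : ℕ) :
    Nat.card (𝓞 M ⧸ (ex M l ^ j)) = Ideal.absNorm l ^ (2 * j) := by
  rw [← Submodule.cardQuot_apply, ← Ideal.absNorm_apply, map_pow, exN hτ, ← pow_mul]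

theorem cardk {K : Type} [Field K] [NumberField K] (l : Ideal (𝓞 K)) (j : ℕ) :
    Nat.card (𝓞 K ⧸ (l ^ j)) = Ideal.absNorm l ^ j := by
  rw [← Submodule.cardQuot_apply, ← Ideal.absNorm_apply, map_pow]

theorem two_le_N {K : Type} [Field K] [NumberField K] {P : Ideal (𝓞 K)} (hP : P.IsPrime) (hP0 : P ≠ ⊥) :
    2 ≤ Ideal.absNorm P := by
  have h1 : Ideal.absNorm P ≠ 0 := by rwa [Ne, Ideal.absNorm_eq_zero_iff]
  have h2 : Ideal.absNorm P ≠ 1 := fun h => hP.ne_top (Ideal.absNorm_eq_one_iff.1 h)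
  omega

theorem exj_ne {l : Ideal (𝓞 k)} (h : l ≠ ⊥) (j : ℕ) : ex M l ^ j ≠ ⊥ := pow_ne_zero j (ex_ne h)

end H12.AQ
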