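import Pool.Agent.H77.PX.EDef
import Pool.Agent.H12.AQ.Val

/-!
# [H12 AQ CRTG] Points of a cube in given classes modulo coprime ideals (120-160 lines)

COPY of H77/PX/Crt.lean (`crt_entry`, `crt_mem`, `crt`; the private lemmas are to be copied) with `p i ^ k i` replaced by `I i` and `Zc (cc i) (p i ^ k i)` by `Z i`:
`J = h * ∏ i, I i`, `ni J = ni h * ∏ ni (I i) ≤ y ^ d`, the ideals are pairwise coprime (hypothesis), so an element of `h` and of all `I i` is in `J`
(`IsCoprime.mul_dvd`, `Finset.prod_dvd_of_coprime`, `IsCoprime.prod_right`). The map `b ↦ (q3 (I i) b)_i` maps `S` into the product of the `Z i` (finite: `Set.toFinite`,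
`finQ`), and the elements of a fibre have entries congruent modulo `J`.
-/

set_option autoImplicit false
set_option linter.unusedSectionVars false

open scoped NumberField
open H88.A4 H88.WS Pool.Agent.H67.WA H77.PX Pool.Agent.H12.WM H88.AQ

noncomputable section

namespace H12.AQ

variable {k M : Type} [Field k] [NumberField k] [Field M] [NumberField M] [Algebra k M]

private theorem cg_entry (K : Type) [Field K] [NumberField K] : ∃ C : ℝ, 0 < C ∧
    ∀ (J : Ideal (𝓞 K)) (y : ℝ) (x0 : 𝓞 K) (E : Finset (𝓞 K)), J ≠ ⊥ → 1 ≤ y →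
      ni J ≤ y ^ Module.finrank ℚ K → (∀ x ∈ E, Bd y (x - x0)) →
      (∀ x ∈ E, ∀ x' ∈ E, x - x' ∈ J) →
      (E.card : ℝ) ≤ C * (y ^ Module.finrank ℚ K / ni J) := by
  obtain ⟨C0, hC0, h0⟩ := box_card K
  refine ⟨C0 * (1 + 2 ^ Module.finrank ℚ K), by positivity, ?_⟩
  intro J y x0 E hJ hy hle hE hc
  have hn : 0 < ni J := lt_of_lt_of_le one_pos (one_le_ni hJ)
  have hy0 : 0 < y := lt_of_lt_of_le one_pos hy
  have h1 := h0 (ni J) hn (fun _ => 2 * y) (fun _ => by positivity)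
    (E.map ⟨fun x : 𝓞 K => (x : K), NumberField.RingOfIntegers.coe_injective⟩) (by
      intro x hx x' hx' hne
      simp only [Finset.mem_map, Function.Embedding.coeFn_mk] at hx hx'
      obtain ⟨a, ha, rfl⟩ := hx
      obtain ⟨a', ha', rfl⟩ := hx'
      have hne' : a - a' ≠ 0 := by
        intro h
        apply hne
        rw [sub_eq_zero.1 h]
      have := ni_le_nz (hc a ha a' ha') hne'
      rw [nz_def] at this
      simpa using this) (by
      intro x hx x' hx' φ
      simp only [Finset.mem_map, Function.Embedding.coeFn_mk] at hx hx'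
      obtain ⟨a, ha, rfl⟩ := hx
      obtain ⟨a', ha', rfl⟩ := hx'
      have e1 : sz φ (a - x0) ≤ y := hE a ha φ
      have e2 : sz φ (a' - x0) ≤ y := hE a' ha' φ
      have e3 := sz_sub φ (a - x0) (a' - x0)
      rw [sub_sub_sub_cancel_right] at e3
      have e4 : sz φ (a - a') = ‖φ ((a : K) - (a' : K))‖ := by
        unfold sz
        rw [map_sub, ← map_sub φ]
        rfl
      rw [← e4]
      linarith)
  rw [Finset.card_map] at h1
  have h2 : ∏ _φ : K →+* ℂ, 2 * y = (2 * y) ^ Module.finrank ℚ K := vol_const (2 * y)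
  rw [h2, mul_pow] at h1
  have h3 : 1 ≤ y ^ Module.finrank ℚ K / ni J := (one_le_div hn).2 hle
  refine h1.trans ?_
  rw [mul_assoc, mul_div_assoc]
  apply mul_le_mul_of_nonneg_left _ hC0.le
  nlinarith

private theorem cg_mem {K : Type} [Field K] [NumberField K] {n : ℕ} {I : Fin n → Ideal (𝓞 K)}
    {h : Ideal (𝓞 K)} (hp : ∀ i j, i ≠ j → IsCoprime (I i) (I j)) (hq : ∀ i, IsCoprime h (I i)) {x : 𝓞 K}
    (hx : x ∈ h) (hxi : ∀ i, x ∈ I i) : x ∈ h * ∏ i, I i := by
  have c3 : IsCoprime h (∏ i, I i) := IsCoprime.prod_right fun i _ => hq i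
  rw [← Ideal.dvd_span_singleton]
  refine c3.mul_dvd (Ideal.dvd_span_singleton.2 hx) ?_
  refine Finset.prod_dvd_of_coprime ?_ fun i _ => Ideal.dvd_span_singleton.2 (hxi i)
  intro i _ j _ hij
  exact hp i j hij

theorem crtG (K : Type) [Field K] [NumberField K] : ∃ C : ℝ, 0 < C ∧
    ∀ (n : ℕ) (I : Fin n → Ideal (𝓞 K)) (Z : ∀ i, Set (Q3 (I i))) (h : Ideal (𝓞 K)) (y : ℝ)
      (b0 : T3 K) (S : Finset (T3 K)), (∀ i, I i ≠ ⊥) → (∀ i j, i ≠ j → IsCoprime (I i) (I j)) →
      (∀ i, IsCoprime h (I i)) → h ≠ ⊥ → 1 ≤ y → ni h * ∏ i, ni (I i) ≤ y ^ Module.finrank ℚ K →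
      (∀ b ∈ S, T3.All (Bd y) (b - b0) ∧ T3.All (fun x => x ∈ h) b ∧ ∀ i, q3 (I i) b ∈ Z i) →
      (S.card : ℝ) ≤ C * y ^ (3 * Module.finrank ℚ K) * (ni h)⁻¹ ^ 3 *
        ∏ i, ((Z i).ncard : ℝ) / ni (I i) ^ 3 := by
  classical
  obtain ⟨C1, hC1, h1⟩ := cg_entry K
  refine ⟨C1 ^ 3, by positivity, ?_⟩
  intro n I Z h y b0 S hne hp hq hh hy hle hS
  set J : Ideal (𝓞 K) := h * ∏ i, I i with hJ
  have hJne : J ≠ ⊥ := by
    rw [hJ, ← Ideal.zero_eq_bot]
    exact mul_ne_zero hh (Finset.prod_ne_zero_iff.2 fun i _ => hne i)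
  have hniJ : ni J = ni h * ∏ i, ni (I i) := by
    rw [hJ, ni_mul]
    congr 1
    unfold ni
    rw [map_prod, Nat.cast_prod]
  have hJle : ni J ≤ y ^ Module.finrank ℚ K := by rw [hniJ]; exact hle
  have hnJ : 0 < ni J := lt_of_lt_of_le one_pos (one_le_ni hJne)
  have hy0 : 0 < y := lt_of_lt_of_le one_pos hy
  have hfZ : ∀ i, (Z i).Finite := fun i => by
    have := finQ (hne i)
    exact Set.toFinite _
  set f : T3 K → (∀ i, Q3 (I i)) := fun b i => q3 (I i) b with hf
  set T : Finset (∀ i, Q3 (I i)) :=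
    Fintype.piFinset fun i => (hfZ i).toFinset with hT
  have hTc : (T.card : ℝ) = ∏ i, ((Z i).ncard : ℝ) := by
    rw [hT, Fintype.card_piFinset, Nat.cast_prod]
    refine Finset.prod_congr rfl fun i _ => ?_
    rw [Set.ncard_eq_toFinset_card _ (hfZ i)]
  have hmaps : ∀ b ∈ S, f b ∈ T := by
    intro b hb
    rw [hT, Fintype.mem_piFinset]
    intro i
    rw [Set.Finite.mem_toFinset]
    exact (hS b hb).2.2 i
  set A : ℝ := C1 * (y ^ Module.finrank ℚ K / ni J) with hA
  have hA0 : 0 ≤ A := by positivity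
  have hfib : ∀ z ∈ T, ((S.filter fun b => f b = z).card : ℝ) ≤ A ^ 3 := by
    intro z _
    set F := S.filter fun b => f b = z with hF
    have hFS : ∀ b ∈ F, b ∈ S ∧ f b = z := fun b hb => Finset.mem_filter.1 hb
    have hcong : ∀ b ∈ F, ∀ b' ∈ F, b.1 - b'.1 ∈ J ∧ b.2.1 - b'.2.1 ∈ J ∧
        b.2.2 - b'.2.2 ∈ J := by
      intro b hb b' hb'
      obtain ⟨hbS, hbz⟩ := hFS b hb
      obtain ⟨hbS', hbz'⟩ := hFS b' hb'
      have hq3 : ∀ i, q3 (I i) b = q3 (I i) b' := fun i =>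
        congrFun (hbz.trans hbz'.symm) i
      obtain ⟨-, ⟨m1, m2, m3⟩, -⟩ := hS b hbS
      obtain ⟨-, ⟨m1', m2', m3'⟩, -⟩ := hS b' hbS'
      exact ⟨cg_mem hp hq (h.sub_mem m1 m1') fun i => (q3_eq.1 (hq3 i)).1,
        cg_mem hp hq (h.sub_mem m2 m2') fun i => (q3_eq.1 (hq3 i)).2.1,
        cg_mem hp hq (h.sub_mem m3 m3') fun i => (q3_eq.1 (hq3 i)).2.2⟩
    have e1 : ((F.image fun b => b.1).card : ℝ) ≤ A := by
      apply h1 J y b0.1 _ hJne hy hJle
      · intro x hx
        obtain ⟨b, hb, rfl⟩ := Finset.mem_image.1 hx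
        exact (hS b (hFS b hb).1).1.1
      · intro x hx x' hx'
        obtain ⟨b, hb, rfl⟩ := Finset.mem_image.1 hx
        obtain ⟨b', hb', rfl⟩ := Finset.mem_image.1 hx'
        exact (hcong b hb b' hb').1
    have e2 : ((F.image fun b => b.2.1).card : ℝ) ≤ A := by
      apply h1 J y b0.2.1 _ hJne hy hJle
      · intro x hx
        obtain ⟨b, hb, rfl⟩ := Finset.mem_image.1 hx
        exact (hS b (hFS b hb).1).1.2.1
      · intro x hx x' hx'
        obtain ⟨b, hb, rfl⟩ := Finset.mem_image.1 hx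
        obtain ⟨b', hb', rfl⟩ := Finset.mem_image.1 hx'
        exact (hcong b hb b' hb').2.1
    have e3 : ((F.image fun b => b.2.2).card : ℝ) ≤ A := by
      apply h1 J y b0.2.2 _ hJne hy hJle
      · intro x hx
        obtain ⟨b, hb, rfl⟩ := Finset.mem_image.1 hx
        exact (hS b (hFS b hb).1).1.2.2
      · intro x hx x' hx'
        obtain ⟨b, hb, rfl⟩ := Finset.mem_image.1 hx
        obtain ⟨b', hb', rfl⟩ := Finset.mem_image.1 hx'
        exact (hcong b hb b' hb').2.2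
    have hsub : F ⊆ (F.image fun b => b.1) ×ˢ ((F.image fun b => b.2.1) ×ˢ
        (F.image fun b => b.2.2)) := by
      intro b hb
      simp only [Finset.mem_product, Finset.mem_image]
      exact ⟨⟨b, hb, rfl⟩, ⟨b, hb, rfl⟩, ⟨b, hb, rfl⟩⟩
    have hcard := Finset.card_le_card hsub
    rw [Finset.card_product, Finset.card_product] at hcard
    have hcard' : (F.card : ℝ) ≤ ((F.image fun b => b.1).card : ℝ) *
        (((F.image fun b => b.2.1).card : ℝ) * ((F.image fun b => b.2.2).card : ℝ)) := by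
      exact_mod_cast hcard
    refine hcard'.trans ?_
    calc ((F.image fun b => b.1).card : ℝ) *
        (((F.image fun b => b.2.1).card : ℝ) * ((F.image fun b => b.2.2).card : ℝ))
        ≤ A * (A * A) := by
          apply mul_le_mul e1 _ (by positivity) hA0
          exact mul_le_mul e2 e3 (by positivity) hA0
      _ = A ^ 3 := by ring
  have htot : (S.card : ℝ) ≤ (∏ i, ((Z i).ncard : ℝ)) * A ^ 3 := by
    rw [← hTc, Finset.card_eq_sum_card_fiberwise (f := f) (t := T) (fun b hb => hmaps b hb),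
      Nat.cast_sum]
    calc ∑ z ∈ T, ((S.filter fun b => f b = z).card : ℝ) ≤ ∑ _z ∈ T, A ^ 3 :=
          Finset.sum_le_sum hfib
      _ = (T.card : ℝ) * A ^ 3 := by rw [Finset.sum_const, nsmul_eq_mul]
  refine htot.trans (le_of_eq ?_)
  rw [Finset.prod_div_distrib, hA, hniJ]
  have hprod : ∏ i, ni (I i) ^ 3 = (∏ i, ni (I i)) ^ 3 := by
    rw [← Finset.prod_pow]
  rw [hprod, mul_comm 3 (Module.finrank ℚ K), pow_mul]
  have n1 : ni h ≠ 0 := (lt_of_lt_of_le one_pos (one_le_ni hh)).ne'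
  have n2 : (∏ i, ni (I i)) ≠ 0 := by
    refine Finset.prod_ne_zero_iff.2 fun i _ => ?_
    exact (lt_of_lt_of_le one_pos (one_le_ni (hne i))).ne'
  field_simp

end H12.AQ
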