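import Pool.Agent.H12.AQ.Val
import Pool.Agent.H77.PX.Fce

/-!
# [H12 AQ FCL3] The number of classes as a product over the enumerated primes; the norm of `E` (80-120 lines)

`ev m τ b l` = the exponent of `l` in `ek τ b`, `0` if a prime over `l` is inert for `dt b`. `fl3 m l j = (j+1)^96` if `m ∈ l`, `j + 1` otherwise.
`f3le`: `F2 = ∏_{l ∈ pf I} lf2 (od l I)`, `I = span {ek τ b} ≠ ⊥` (`ek_ne`). Every factor is `≤ fl3 m l (ev m τ b l)` if no prime over `l` contains `h`, and `= 1` otherwise: by cases of `lf2`: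
`m ∈ l`: then no prime `w` over `l` is `Inr` (`(m : 𝓞 M) ∉ w` fails: `w.comap = l`, `map_natCast`), `ev = od`; `∃ w, Ov l w ∧ Inr`: `lf2 = 1 ≤ fl3`; else `ev = od`, equal.
All `fl3 ≥ 1`. The `l ∈ pf I` with factor `≠ 1` are among the `p i` (`hT`), `p` injective: the product over them is `≤ ∏ i, fl3 m (p i) (ev m τ b (p i))`
(model: `fcle` in H77/PX/Fce.lean, step `e3`: `Finset.prod_subset`, `Finset.prod_image`, `Finset.prod_sdiff`).
`nnle3`: `ev ≤ od`, `∏ i, ni (p i) ^ od (p i) I ≤ ni I` (model: `nnle`, with `prod_od` of H77/PX/Fcl), `ni I = nz (ek τ b)` (`nz_ni`). And `nz (E2 τ b) = ni (span {E2 τ b})`,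
`span {E2 τ b} = ex M I` (`ek_map`, `Ideal.map_span`), `ni (ex M I) = (ni I)^2` (`exN`) `≥ ni I` (`one_le_ni`).
-/

set_option autoImplicit false
set_option linter.unusedSectionVars false

open scoped NumberField
open H88.A4 H88.WS Pool.Agent.H67.WA H77.PX Pool.Agent.H12.WM H88.AQ

noncomputable section

namespace H12.AQ

variable {k M : Type} [Field k] [NumberField k] [Field M] [NumberField M] [Algebra k M]

open Classical in
/-- the exponent of `l`, if `l` is not inert for `dt b` -/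
def ev (m : ℕ) (τ : M ≃ₐ[k] M) (b : T3 M) (l : Ideal (𝓞 k)) : ℕ :=
  if Nin m (dt b) l then od l (Ideal.span {ek τ b}) else 0

open Classical in
/-- the local bound -/
def fl3 {K : Type} [Field K] [NumberField K] (m : ℕ) (l : Ideal (𝓞 K)) (j : ℕ) : ℕ :=
  if (m : 𝓞 K) ∈ l then (j + 1) ^ 96 else j + 1

private theorem f3_pos {K : Type} [Field K] [NumberField K] (m : ℕ) (l : Ideal (𝓞 K)) (j : ℕ) :
    0 < fl3 m l j := by
  unfold fl3
  split_ifs
  · exact Nat.pow_pos (Nat.succ_pos j)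
  · exact Nat.succ_pos j

private theorem f3_pf {K : Type} [Field K] [NumberField K] (I P : Ideal (𝓞 K)) :
    P ∈ pf I ↔ od P I ≠ 0 := by
  classical
  unfold pf od
  rw [Multiset.mem_toFinset, Ne, Multiset.count_eq_zero, not_not]

private theorem f3_loc (m : ℕ) (τ : M ≃ₐ[k] M) (h : Ideal (𝓞 M)) (b : T3 M) (l : Ideal (𝓞 k)) :
    lf2 m (dt b) h l (od l (Ideal.span {ek τ b})) ≤ fl3 m l (ev m τ b l) := by
  unfold lf2
  split_ifs with h1 h2 h3
  · exact f3_pos _ _ _
  · have h4 : Nin m (dt b) l := by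
      rintro ⟨w, ⟨-, hw⟩, hi⟩
      apply hi.1
      have h5 : (m : 𝓞 k) ∈ w.comap (algebraMap (𝓞 k) (𝓞 M)) := by rw [hw]; exact h2
      rw [Ideal.mem_comap, map_natCast] at h5
      exact h5
    unfold ev fl3
    rw [if_pos h4, if_pos h2]
  · exact f3_pos _ _ _
  · have h4 : Nin m (dt b) l := h3
    unfold ev fl3
    rw [if_pos h4, if_neg h2]

private theorem f3_one (m : ℕ) (τ : M ≃ₐ[k] M) (h : Ideal (𝓞 M)) (b : T3 M) (l : Ideal (𝓞 k))
    (hw : ∃ w : Ideal (𝓞 M), Ov l w ∧ h ≤ w) (j : ℕ) : lf2 m (dt b) h l j = 1 := by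
  unfold lf2
  rw [if_pos hw]

theorem f3le {τ : M ≃ₐ[k] M} (hτ : Invo k M τ) (m : ℕ) (h : Ideal (𝓞 M)) (b : T3 M) (hb : E2 τ b ≠ 0)
    (n : ℕ) (p : Fin n → Ideal (𝓞 k)) (hp : Function.Injective p)
    (hT : ∀ l ∈ pf (Ideal.span {ek τ b}), (¬ ∃ w : Ideal (𝓞 M), Ov l w ∧ h ≤ w) → ∃ i, p i = l) :
    (F2 τ m h b : ℝ) ≤ ∏ i, (fl3 m (p i) (ev m τ b (p i)) : ℝ) := by
  classical
  have key : F2 τ m h b ≤ ∏ i, fl3 m (p i) (ev m τ b (p i)) := by
    unfold F2
    have h5 : ∏ l ∈ (pf (Ideal.span {ek τ b})).filter (fun l => ¬ ∃ w : Ideal (𝓞 M), Ov l w ∧ h ≤ w),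
        lf2 m (dt b) h l (od l (Ideal.span {ek τ b})) =
        ∏ l ∈ pf (Ideal.span {ek τ b}), lf2 m (dt b) h l (od l (Ideal.span {ek τ b})) := by
      refine Finset.prod_subset (Finset.filter_subset _ _) fun l hl hl' => ?_
      rw [Finset.mem_filter, not_and, not_not] at hl'
      exact f3_one m τ h b l (hl' hl) _
    have h6 : (pf (Ideal.span {ek τ b})).filter (fun l => ¬ ∃ w : Ideal (𝓞 M), Ov l w ∧ h ≤ w) ⊆
        Finset.univ.image p := by
      intro l hl
      rw [Finset.mem_filter] at hl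
      obtain ⟨i, hi⟩ := hT l hl.1 hl.2
      rw [Finset.mem_image]
      exact ⟨i, Finset.mem_univ i, hi⟩
    have h7 : ∏ i, fl3 m (p i) (ev m τ b (p i)) = ∏ l ∈ Finset.univ.image p, fl3 m l (ev m τ b l) := by
      rw [Finset.prod_image]
      exact fun i _ j _ hij => hp hij
    rw [← h5, h7, ← Finset.prod_sdiff h6]
    refine (Finset.prod_le_prod' fun l _ => f3_loc m τ h b l).trans ?_
    exact Nat.le_mul_of_pos_left _ (Finset.prod_pos fun l _ => f3_pos m l _)
  exact_mod_cast key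

theorem nnle3 {τ : M ≃ₐ[k] M} (hτ : Invo k M τ) (m : ℕ) (b : T3 M) (hb : E2 τ b ≠ 0)
    (n : ℕ) (p : Fin n → Ideal (𝓞 k)) (hp : Function.Injective p) (hp' : ∀ i, (p i).IsPrime ∧ p i ≠ ⊥) :
    ∏ i, ni (p i) ^ ev m τ b (p i) ≤ nz (E2 τ b) := by
  classical
  obtain ⟨I, hI⟩ : ∃ I, I = Ideal.span {ek τ b} := ⟨_, rfl⟩
  have hI0 : I ≠ ⊥ := by
    rw [hI, Ne, Ideal.span_singleton_eq_bot]
    exact ek_ne hτ hb
  have e1 : ∏ i, ni (p i) ^ ev m τ b (p i) ≤ ∏ i, ni (p i) ^ od (p i) I := by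
    refine Finset.prod_le_prod (fun i _ => pow_nonneg (ni_nonneg _) _) fun i _ => ?_
    refine pow_le_pow_right₀ (one_le_ni (hp' i).2) ?_
    unfold ev
    split_ifs
    · rw [hI]
    · exact Nat.zero_le _
  have h7 : ∏ i, ni (p i) ^ od (p i) I = ∏ P ∈ Finset.univ.image p, ni P ^ od P I := by
    rw [Finset.prod_image]
    exact fun i _ j _ hij => hp hij
  have h8 : ∏ P ∈ (Finset.univ.image p).filter (fun P => P ∈ pf I), ni P ^ od P I =
      ∏ P ∈ Finset.univ.image p, ni P ^ od P I := by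
    refine Finset.prod_subset (Finset.filter_subset _ _) fun P hP hP' => ?_
    rw [Finset.mem_filter, not_and] at hP'
    have h9 := hP' hP
    rw [f3_pf, not_not] at h9
    rw [h9, pow_zero]
  have h10 : (Finset.univ.image p).filter (fun P => P ∈ pf I) ⊆ pf I := by
    intro P hP
    exact (Finset.mem_filter.1 hP).2
  have h11 : ∀ P ∈ pf I, 1 ≤ ni P ^ od P I := by
    intro P hP
    have h12 : P ∈ UniqueFactorizationMonoid.normalizedFactors I := by
      unfold pf at hP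
      rw [Multiset.mem_toFinset] at hP
      exact hP
    have h13 : P ≠ ⊥ := (UniqueFactorizationMonoid.prime_of_normalized_factor P h12).ne_zero
    exact one_le_pow₀ (one_le_ni h13)
  have h14 : ∏ P ∈ (Finset.univ.image p).filter (fun P => P ∈ pf I), ni P ^ od P I ≤
      ∏ P ∈ pf I, ni P ^ od P I := by
    rw [← Finset.prod_sdiff h10]
    refine le_mul_of_one_le_left ?_ ?_
    · exact Finset.prod_nonneg fun P _ => pow_nonneg (ni_nonneg _) _
    · exact Finset.prod_induction _ (fun x => 1 ≤ x)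
        (fun a b ha hb => one_le_mul_of_one_le_of_one_le ha hb) le_rfl
        fun P hP => h11 P (Finset.mem_sdiff.1 hP).1
  have h15 : ∏ P ∈ pf I, ni P ^ od P I = ni I := prod_od hI0
  have h16 : nz (E2 τ b) = ni I ^ 2 := by
    have h17 : (Ideal.span {E2 τ b} : Ideal (𝓞 M)) = ex M I := by
      rw [hI]
      unfold ex
      rw [Ideal.map_span, Set.image_singleton, ek_map hτ]
    rw [nz_ni, h17]
    unfold ni
    rw [exN hτ]
    push_cast
    ring
  have h18 : ni I ≤ ni I ^ 2 := by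
    have := one_le_ni hI0
    nlinarith
  rw [h16]
  exact (e1.trans (h7.le.trans (h8.symm.le.trans (h14.trans h15.le)))).trans h18

end H12.AQ
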