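import Pool.Agent.H12.AQ.Tri
import Pool.Agent.H88.WS.Mrt
import Pool.Agent.H77.PX.Mer

/-!
# [H12 AQ MRT2] Half of the primes split (100-150 lines)

`hk`: `mrt k`, `hM`: `mrt M` (H88/WS/Mrt.lean: `|∑ᶠ P ∈ PrK K x, (ni P)⁻¹ - log (log x)| ≤ C` for `x ≥ 3`; `prk_fin`). `Sp X` = the primes `l` of `k` with `ni l ≤ X` and
`∃ P, TA τ l P`. UPPER: `∑_{PrK M X} (ni P)⁻¹ ≤ 2 ∑_{Sp X} (ni l)⁻¹ + C1`: map a prime `P` of `M` to `l = P.comap (algebraMap ..)` (prime, `≠ ⊥`: `Ideal.IsIntegralClosure.comap_ne_bot`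
or `Ideal.comap_ne_bot_of_integral_mem`; `Ov l P`, `ov_iff`) and use `tri` for `l`: (A) `P = P0` or `P = cI τ P0` (`ovP`), `ni P = ni l` (`cI_norm`): at most two `P` over every `l ∈ Sp X`.
(B) `ex M l` prime: `P = ex M l` (maximal), `ni P = (ni l)^2` (`exN`): `∑ (ni l)^(-2) ≤ ∑ (ni l)^(-3/2) ≤ C` (`mer1 k` of H77/PX/Mer.lean). (C) `3 ∈ l`: `3 ∈ P`: the primes `P` of `M`
containing `3` are in the finite set `pf (span {3})`: at most `card` of them, each `(ni P)⁻¹ ≤ 1`. So `∑_{Sp X} (ni l)⁻¹ ≥ (log (log X) - C) / 2` by `hM`.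
CONCLUSION: `T` finite, all `ni l ≤ X`: `∑_{l ∈ T} gf/ni = ∑_{T} (ni l)⁻¹ - (1/2) ∑_{T ∩ Sp} (ni l)⁻¹ ≤` the same with all of `PrK k X` in the place of `T` (every term
`gf / ni ≥ 0`) `= ∑_{PrK k X} (ni l)⁻¹ - (1/2) ∑_{Sp X} (ni l)⁻¹ ≤ log (log X) + C - (1/4) (log (log X) - C')`.
-/

set_option autoImplicit false
set_option linter.unusedSectionVars false

open scoped NumberField
open H88.A4 H88.WS Pool.Agent.H67.WA H77.PX Pool.Agent.H12.WM H88.AQ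

noncomputable section

namespace H12.AQ

variable {k M : Type} [Field k] [NumberField k] [Field M] [NumberField M] [Algebra k M]

/-- the prime of `k` under `P` -/
private def dn (k : Type) {M : Type} [Field k] [NumberField k] [Field M] [NumberField M]
    [Algebra k M] (P : Ideal (𝓞 M)) : Ideal (𝓞 k) := P.comap (algebraMap (𝓞 k) (𝓞 M))

private theorem dn_ov {P : Ideal (𝓞 M)} (hP : P.IsPrime) : Ov (dn k P) P := ⟨hP, rfl⟩

private theorem dn_prime {P : Ideal (𝓞 M)} (hP : P.IsPrime) : (dn k P).IsPrime := hP.comap _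

private theorem dn_ne {P : Ideal (𝓞 M)} (hP0 : P ≠ ⊥) : dn k P ≠ ⊥ :=
  fun h => hP0 (Ideal.eq_bot_of_comap_eq_bot h)

private theorem dn_le {P : Ideal (𝓞 M)} : ex M (dn k P) ≤ P := by
  unfold ex
  rw [Ideal.map_le_iff_le_comap]
  exact le_rfl

private theorem dn_max {P : Ideal (𝓞 M)} (hP : P.IsPrime) (hP0 : P ≠ ⊥)
    (h : (ex M (dn k P)).IsPrime) : ex M (dn k P) = P :=
  (h.isMaximal (ex_ne (dn_ne hP0))).eq_of_le hP.ne_top dn_le

private theorem dn_norm {τ : M ≃ₐ[k] M} (hτ : Invo k M τ) {P P' : Ideal (𝓞 M)} (hP : P.IsPrime)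
    (hP0 : P ≠ ⊥) (h : TA τ (dn k P) P') : (P = P' ∨ P = cI τ P') ∧ ni P = ni (dn k P) := by
  have h1 := ovP hτ (dn_prime hP) (dn_ne hP0) h (dn_ov hP)
  refine ⟨h1, ?_⟩
  unfold ni
  rw [← h.2.2.2.2]
  rcases h1 with h2 | h2
  · rw [← h2]
  · conv_lhs => rw [h2]
    rw [cI_norm hτ]

private theorem rec_le_one {K : Type} [Field K] [NumberField K] {P : Ideal (𝓞 K)} (h : P ≠ ⊥) :
    (ni P)⁻¹ ≤ 1 := inv_le_one_of_one_le₀ (one_le_ni h)

private theorem over_three (K : Type) [Field K] [NumberField K] :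
    {P : Ideal (𝓞 K) | P.IsPrime ∧ P ≠ ⊥ ∧ (3 : 𝓞 K) ∈ P}.Finite := by
  have h1 : Ideal.span {(3 : 𝓞 K)} ≠ (0 : Ideal (𝓞 K)) := by
    rw [Ne, Ideal.zero_eq_bot, Ideal.span_singleton_eq_bot]
    exact_mod_cast (by norm_num : (3 : ℕ) ≠ 0)
  refine ((Ideal.finite_factors h1).image
    (fun v : IsDedekindDomain.HeightOneSpectrum (𝓞 K) => v.asIdeal)).subset ?_
  rintro P ⟨hP, hP0, h3⟩
  exact ⟨⟨P, hP, hP0⟩, (Ideal.dvd_span_singleton).2 h3, rfl⟩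

open Classical in
private theorem upper {τ : M ≃ₐ[k] M} {ω : 𝓞 M} (hs : Set3 τ ω) : ∃ C : ℝ, 0 ≤ C ∧ ∀ X : ℝ,
    ∑ P ∈ (prk_fin M X).toFinset, (ni P)⁻¹ ≤
      2 * ∑ l ∈ (prk_fin k X).toFinset with (∃ P, TA τ l P), (ni l)⁻¹ + C := by
  obtain ⟨B, hB1, hB⟩ := mer1 k
  obtain ⟨c3, hc3⟩ : ∃ c3 : ℝ, c3 = ((over_three M).toFinset.card : ℕ) := ⟨_, rfl⟩
  have hc30 : 0 ≤ c3 := by
    rw [hc3]
    exact Nat.cast_nonneg _
  refine ⟨B + c3, by linarith, fun X => ?_⟩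
  have hmem : ∀ P ∈ (prk_fin M X).toFinset, P.IsPrime ∧ P ≠ ⊥ ∧ ni P ≤ X := by
    intro P hP
    exact (prk_fin M X).mem_toFinset.1 hP
  obtain ⟨FA, hFA⟩ : ∃ FA, FA = (prk_fin M X).toFinset.filter fun P => ∃ P', TA τ (dn k P) P' :=
    ⟨_, rfl⟩
  obtain ⟨FR, hFR⟩ : ∃ FR, FR = (prk_fin M X).toFinset.filter
    fun P => ¬ ∃ P', TA τ (dn k P) P' := ⟨_, rfl⟩
  obtain ⟨FB, hFB⟩ : ∃ FB, FB = FR.filter fun P => (ex M (dn k P)).IsPrime := ⟨_, rfl⟩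
  obtain ⟨FC, hFC⟩ : ∃ FC, FC = FR.filter fun P => ¬ (ex M (dn k P)).IsPrime := ⟨_, rfl⟩
  have e1 : ∑ P ∈ (prk_fin M X).toFinset, (ni P)⁻¹ =
      ∑ P ∈ FA, (ni P)⁻¹ + (∑ P ∈ FB, (ni P)⁻¹ + ∑ P ∈ FC, (ni P)⁻¹) := by
    rw [hFB, hFC, Finset.sum_filter_add_sum_filter_not FR, hFA, hFR,
      Finset.sum_filter_add_sum_filter_not]
  have hA : ∑ P ∈ FA, (ni P)⁻¹ ≤
      2 * ∑ l ∈ (prk_fin k X).toFinset with (∃ P, TA τ l P), (ni l)⁻¹ := by
    have hmap : ∀ P ∈ FA, dn k P ∈ (prk_fin k X).toFinset.filter fun l => ∃ P, TA τ l P := by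
      intro P hP
      rw [hFA, Finset.mem_filter] at hP
      obtain ⟨h1, P', hP'⟩ := hP
      obtain ⟨g1, g2, g3⟩ := hmem P h1
      rw [Finset.mem_filter, (prk_fin k X).mem_toFinset]
      refine ⟨⟨dn_prime g1, dn_ne g2, ?_⟩, P', hP'⟩
      rw [← (dn_norm hs.inv g1 g2 hP').2]
      exact g3
    rw [← Finset.sum_fiberwise_of_maps_to hmap, Finset.mul_sum]
    refine Finset.sum_le_sum fun l hl => ?_
    rw [Finset.mem_filter] at hl
    obtain ⟨-, P0, hP0⟩ := hl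
    have hl0 : 0 ≤ (ni l)⁻¹ := by
      unfold ni
      positivity
    have h1 : ∀ P ∈ FA.filter (fun P => dn k P = l), (ni P)⁻¹ ≤ (ni l)⁻¹ := by
      intro P hP
      rw [Finset.mem_filter, hFA, Finset.mem_filter] at hP
      obtain ⟨⟨h1, P', hP'⟩, h2⟩ := hP
      obtain ⟨g1, g2, g3⟩ := hmem P h1
      rw [(dn_norm hs.inv g1 g2 hP').2, h2]
    have h2 : (FA.filter (fun P => dn k P = l)).card ≤ 2 := by
      have h3 : FA.filter (fun P => dn k P = l) ⊆ {P0, cI τ P0} := by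
        intro P hP
        rw [Finset.mem_filter, hFA, Finset.mem_filter] at hP
        obtain ⟨⟨h1, -⟩, h2⟩ := hP
        obtain ⟨g1, g2, g3⟩ := hmem P h1
        rw [Finset.mem_insert, Finset.mem_singleton]
        subst h2
        exact (dn_norm hs.inv g1 g2 hP0).1
      exact (Finset.card_le_card h3).trans Finset.card_le_two
    calc ∑ P ∈ FA with dn k P = l, (ni P)⁻¹
        ≤ (FA.filter (fun P => dn k P = l)).card • (ni l)⁻¹ := Finset.sum_le_card_nsmul _ _ _ h1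
      _ = ((FA.filter (fun P => dn k P = l)).card : ℝ) * (ni l)⁻¹ := nsmul_eq_mul _ _
      _ ≤ 2 * (ni l)⁻¹ := by
          refine mul_le_mul_of_nonneg_right ?_ hl0
          exact_mod_cast h2
  have hBB : ∑ P ∈ FB, (ni P)⁻¹ ≤ B := by
    have hFBm : ∀ P ∈ FB, (P.IsPrime ∧ P ≠ ⊥ ∧ ni P ≤ X) ∧ ex M (dn k P) = P := by
      intro P hP
      rw [hFB, Finset.mem_filter, hFR, Finset.mem_filter] at hP
      obtain ⟨⟨h1, -⟩, h2⟩ := hP
      have g := hmem P h1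
      exact ⟨g, dn_max g.1 g.2.1 h2⟩
    have hinj : Set.InjOn (dn k) (FB : Set (Ideal (𝓞 M))) := by
      intro P hP Q hQ h
      rw [← (hFBm P hP).2, ← (hFBm Q hQ).2, h]
    have h1 := hB (FB.image (dn k)) (by
      intro l hl
      obtain ⟨P, hP, rfl⟩ := Finset.mem_image.1 hl
      exact ⟨dn_prime (hFBm P hP).1.1, dn_ne (hFBm P hP).1.2.1⟩)
    rw [Finset.sum_image hinj] at h1
    refine le_trans (Finset.sum_le_sum fun P hP => ?_) h1
    obtain ⟨⟨g1, g2, -⟩, g3⟩ := hFBm P hP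
    have h2 : ni P = ni (dn k P) ^ 2 := by
      unfold ni
      conv_lhs => rw [← g3]
      rw [exN hs.inv]
      push_cast
      rfl
    have h3 : 1 ≤ ni (dn k P) := one_le_ni (dn_ne g2)
    have h4 : (ni P)⁻¹ = ni (dn k P) ^ (-2 : ℝ) := by
      rw [h2, Real.rpow_neg (by linarith)]
      congr 1
      exact (Real.rpow_natCast _ 2).symm
    rw [h4]
    exact Real.rpow_le_rpow_of_exponent_le h3 (by norm_num)
  have hCC : ∑ P ∈ FC, (ni P)⁻¹ ≤ c3 := by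
    have hsub : FC ⊆ (over_three M).toFinset := by
      intro P hP
      rw [hFC, Finset.mem_filter, hFR, Finset.mem_filter] at hP
      obtain ⟨⟨h1, h2⟩, h3⟩ := hP
      obtain ⟨g1, g2, -⟩ := hmem P h1
      rw [(over_three M).mem_toFinset]
      refine ⟨g1, g2, ?_⟩
      rcases tri hs (dn_prime (k := k) g1) (dn_ne g2) with h4 | h4 | ⟨-, h4⟩
      · exact absurd h4 h2
      · exact absurd h4 h3
      · have h5 : algebraMap (𝓞 k) (𝓞 M) 3 ∈ P := h4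
        rwa [map_ofNat] at h5
    calc ∑ P ∈ FC, (ni P)⁻¹ ≤ ∑ P ∈ FC, (1 : ℝ) := by
          refine Finset.sum_le_sum fun P hP => ?_
          have h1 := (over_three M).mem_toFinset.1 (hsub hP)
          exact rec_le_one h1.2.1
      _ = FC.card := by rw [Finset.sum_const, nsmul_eq_mul, mul_one]
      _ ≤ c3 := by
          rw [hc3]
          exact_mod_cast Finset.card_le_card hsub
  rw [e1]
  linarith

theorem mrt2 {τ : M ≃ₐ[k] M} {ω : 𝓞 M} (hs : Set3 τ ω) : ∃ C : ℝ, 0 < C ∧ ∀ X : ℝ, 3 ≤ X →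
    ∀ T : Finset (Ideal (𝓞 k)), (∀ l ∈ T, l.IsPrime ∧ l ≠ ⊥ ∧ ni l ≤ X) →
      ∑ l ∈ T, gf τ l / ni l ≤ 3 / 4 * Real.log (Real.log X) + C := by
  classical
  obtain ⟨C1, hC1, hup⟩ := upper hs
  obtain ⟨Ck, hCk, hk⟩ := mrt k
  obtain ⟨CM, hCM, hM⟩ := mrt M
  refine ⟨Ck + (CM + C1) / 4, by positivity, fun X hX T hT => ?_⟩
  have h1 := hk X hX
  have h2 := hM X hX
  rw [finsum_mem_eq_finite_toFinset_sum _ (prk_fin k X)] at h1
  rw [finsum_mem_eq_finite_toFinset_sum _ (prk_fin M X)] at h2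
  have h3 := (abs_le.1 h1).2
  have h4 := (abs_le.1 h2).1
  have h5 := hup X
  have hsub : T ⊆ (prk_fin k X).toFinset := fun l hl => (prk_fin k X).mem_toFinset.2 (hT l hl)
  have hni : ∀ l : Ideal (𝓞 k), 0 ≤ ni l := fun l => by
    unfold ni
    positivity
  have hgf : ∀ l : Ideal (𝓞 k), 0 ≤ gf τ l := fun l => by
    unfold gf
    split_ifs <;> norm_num
  have h6 : ∑ l ∈ T, gf τ l / ni l ≤ ∑ l ∈ (prk_fin k X).toFinset, gf τ l / ni l :=
    Finset.sum_le_sum_of_subset_of_nonneg hsub fun l _ _ => div_nonneg (hgf l) (hni l)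
  have h7 : ∑ l ∈ (prk_fin k X).toFinset, gf τ l / ni l =
      ∑ l ∈ (prk_fin k X).toFinset, (ni l)⁻¹ -
        1 / 2 * ∑ l ∈ (prk_fin k X).toFinset with (∃ P, TA τ l P), (ni l)⁻¹ := by
    rw [Finset.sum_filter, Finset.mul_sum, ← Finset.sum_sub_distrib]
    refine Finset.sum_congr rfl fun l _ => ?_
    unfold gf
    split_ifs
    · rw [div_eq_mul_inv]
      ring
    · rw [div_eq_mul_inv]
      ring
  rw [h7] at h6
  linarith

end H12.AQ
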