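import Pool.Agent.H51.AV.Def

/-!
# [H12 AQ EulH] The local factors, with a weight `g` in the first density (copy of H51/AV/Eul)

`ff N P σ l k = (k + 1 or 1) N^(k σ)`, `0 ≤ σ ≤ 1/16`.
PROOF. (1) `l ∉ Z`. `k = 1`: `(2 N^σ - 1) (1/N + B/N²) ≤ 1/N + 2 (N^σ - 1)/N + 2 B N^(σ-2)` for `l ∈ P`, `(N^σ - 1)(1/N + B/N²)` else.
`k = 2`: difference `≤ 3 N^(2σ)`, `w ≤ B/N²`. `k ≥ 3`: difference `≤ (k+1) N^(kσ) ≤ 32 · 2^(k/16) N^(k/16) ≤ 32 N^(k/8)`, `w ≤ B N^(-⌈k/2⌉)`,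
and `k/8 - ⌈k/2⌉ ≤ -3/2 - 3 (k-3)/8 + 3/8`...: for `k = 3` it is `-13/8 ≤ -3/2`, for `k ≥ 4` it is `≤ -3k/8 = -3/2 - 3(k-4)/8`; as `N ≥ 2` the sum over
`k ≥ 4` is at most `32 B N^(-3/2) ∑ 2^(-3j/8) ≤ 32 · 5 · B N^(-3/2)`. (2) `l ∈ Z`: `k = 1`: `2 N^σ B/N`, `k = 2`: `3 N^(2σ) B/N`, `k ≥ 3` as before.
(`k + 1 ≤ 32 · 2^(k/16)`: `2^(k/16) ≥ 1 + k log 2/16`.) The differences are nonnegative. Sums are over `k + 1`, `k ∈ range K`.
-/

set_option autoImplicit false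

noncomputable section

namespace H12.AQ

open H51.AV

private theorem two_rpow_le : (2 : ℝ) ^ (-(7 / 16) : ℝ) ≤ 3 / 4 := by
  have h0 : (0 : ℝ) ≤ (2 : ℝ) ^ (-(7 / 16) : ℝ) := by positivity
  have h1 : ((2 : ℝ) ^ (-(7 / 16) : ℝ)) ^ 16 = 1 / 128 := by
    rw [← Real.rpow_natCast, ← Real.rpow_mul (by norm_num)]
    have h2 : (-(7 / 16) : ℝ) * ((16 : ℕ) : ℝ) = -((7 : ℕ) : ℝ) := by norm_num
    rw [h2, Real.rpow_neg (by norm_num), Real.rpow_natCast]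
    norm_num
  refine le_of_pow_le_pow_left₀ (n := 16) (by norm_num) (by norm_num) ?_
  rw [h1]
  norm_num

private theorem geo (K : ℕ) : ∑ i ∈ Finset.range K, ((i : ℝ) + 5) * (3 / 4 : ℝ) ^ i ≤ 32 := by
  have h : ∑ i ∈ Finset.range K, ((i : ℝ) + 5) * (3 / 4 : ℝ) ^ i = 32 - (3 / 4 : ℝ) ^ K * (4 * K + 32) := by
    induction K with
    | zero => norm_num
    | succ K ih =>
      rw [Finset.sum_range_succ, ih]
      push_cast
      ring
  rw [h]
  have : 0 ≤ (3 / 4 : ℝ) ^ K * (4 * K + 32) := by positivity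
  linarith

section
variable {ι : Type} [DecidableEq ι] {B : ℝ} {N : ι → ℝ} {Z : Finset ι} {w : ι → ℕ → ℝ}
  {P : Finset ι} {σ : ℝ} {l : ι}

private theorem ff_nonneg (hN : ∀ l, 2 ≤ N l) (k : ℕ) : 0 ≤ ff N P σ l k := by
  have h := hN l
  unfold ff
  refine mul_nonneg ?_ (Real.rpow_nonneg (by linarith) _)
  split_ifs <;> positivity

private theorem ff_mono (hN : ∀ l, 2 ≤ N l) (hσ : 0 ≤ σ) (k : ℕ) :
    ff N P σ l k ≤ ff N P σ l (k + 1) := by
  have h := hN l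
  unfold ff
  push_cast
  have h1 : N l ^ ((k : ℝ) * σ) ≤ N l ^ (((k : ℝ) + 1) * σ) :=
    Real.rpow_le_rpow_of_exponent_le (by linarith) (by nlinarith)
  have h2 : 0 ≤ N l ^ ((k : ℝ) * σ) := Real.rpow_nonneg (by linarith) _
  split_ifs
  · exact mul_le_mul (by linarith) h1 h2 (by positivity)
  · rw [one_mul, one_mul]
    exact h1

private theorem ff_le (hN : ∀ l, 2 ≤ N l) (k : ℕ) :
    ff N P σ l k ≤ ((k : ℝ) + 1) * N l ^ ((k : ℝ) * σ) := by
  have h := hN l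
  unfold ff
  refine mul_le_mul_of_nonneg_right ?_ (Real.rpow_nonneg (by linarith) _)
  split_ifs
  · exact le_rfl
  · have : (0 : ℝ) ≤ k := Nat.cast_nonneg k
    linarith

private theorem gen (hB : 1 ≤ B) (hN : ∀ l, 2 ≤ N l) (hw : Den B N Z w) (k : ℕ) (τ : ℝ)
    (h : ((k : ℝ) + 1) * σ - (((k + 1 + 1) / 2 : ℕ) : ℝ) ≤ τ) :
    (ff N P σ l (k + 1) - ff N P σ l k) * w l (k + 1) ≤ ((k : ℝ) + 2) * B * N l ^ τ := by
  have hN2 := hN l
  have hN0 : 0 < N l := by linarith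
  have h1 := hw.le l (k + 1) (by omega)
  have h2 := ff_le (P := P) (σ := σ) (l := l) hN (k + 1)
  have h3 := ff_nonneg (P := P) (σ := σ) (l := l) hN k
  have h4 := hw.nonneg l (k + 1)
  have h5 : 0 ≤ N l ^ (((k : ℝ) + 1) * σ) := Real.rpow_nonneg hN0.le _
  calc (ff N P σ l (k + 1) - ff N P σ l k) * w l (k + 1)
      ≤ ((((k + 1 : ℕ) : ℝ) + 1) * N l ^ (((k + 1 : ℕ) : ℝ) * σ)) * w l (k + 1) :=
        mul_le_mul_of_nonneg_right (by linarith) h4
    _ ≤ ((((k + 1 : ℕ) : ℝ) + 1) * N l ^ (((k + 1 : ℕ) : ℝ) * σ)) *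
        (B * N l ^ (-(((k + 1 + 1) / 2 : ℕ) : ℝ))) := by
        refine mul_le_mul_of_nonneg_left h1 ?_
        push_cast
        positivity
    _ = ((k : ℝ) + 2) * B * N l ^ (((k : ℝ) + 1) * σ - (((k + 1 + 1) / 2 : ℕ) : ℝ)) := by
        rw [sub_eq_add_neg, Real.rpow_add hN0]
        push_cast
        ring
    _ ≤ ((k : ℝ) + 2) * B * N l ^ τ := by
        refine mul_le_mul_of_nonneg_left ?_ (by positivity)
        exact Real.rpow_le_rpow_of_exponent_le (by linarith) h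

private theorem main_bd (hB : 1 ≤ B) (hN : ∀ l, 2 ≤ N l) (hw : Den B N Z w) (hσ : 0 ≤ σ) (τ X1 X2 : ℝ)
    (h3 : 3 * σ - 2 ≤ τ) (h4 : ∀ i : ℕ, ((i : ℝ) + 4) * σ - ((i : ℝ) + 4) / 2 ≤ τ - 7 / 16 * i)
    (h1 : (ff N P σ l 1 - ff N P σ l 0) * w l 1 ≤ X1)
    (h2 : (ff N P σ l 2 - ff N P σ l 1) * w l 2 ≤ X2) (K : ℕ) :
    ∑ k ∈ Finset.range K, (ff N P σ l (k + 1) - ff N P σ l k) * w l (k + 1) ≤
      X1 + X2 + 36 * B * N l ^ τ := by
  have hN2 := hN l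
  have hN0 : 0 < N l := by linarith
  have hNt : 0 ≤ N l ^ τ := Real.rpow_nonneg hN0.le _
  have hnn : ∀ k, 0 ≤ (ff N P σ l (k + 1) - ff N P σ l k) * w l (k + 1) := fun k =>
    mul_nonneg (sub_nonneg.2 (ff_mono hN hσ k)) (hw.nonneg l _)
  have e1 : ∑ k ∈ Finset.range K, (ff N P σ l (k + 1) - ff N P σ l k) * w l (k + 1) ≤
      ∑ k ∈ Finset.range (3 + K), (ff N P σ l (k + 1) - ff N P σ l k) * w l (k + 1) :=
    Finset.sum_le_sum_of_subset_of_nonneg (Finset.range_mono (by omega)) fun k _ _ => hnn k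
  refine e1.trans ?_
  rw [Finset.sum_range_add, Finset.sum_range_succ, Finset.sum_range_succ, Finset.sum_range_succ,
    Finset.sum_range_zero, zero_add]
  have g3 : (ff N P σ l (2 + 1) - ff N P σ l 2) * w l (2 + 1) ≤ 4 * B * N l ^ τ := by
    have h := gen (P := P) (σ := σ) (l := l) hB hN hw 2 τ (by norm_num; linarith)
    refine h.trans (le_of_eq ?_)
    norm_num
  have g4 : ∀ i : ℕ, (ff N P σ l (3 + i + 1) - ff N P σ l (3 + i)) * w l (3 + i + 1) ≤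
      B * N l ^ τ * (((i : ℝ) + 5) * (3 / 4 : ℝ) ^ i) := by
    intro i
    have h := gen (P := P) (σ := σ) (l := l) hB hN hw (3 + i) (τ - 7 / 16 * i) (by
      have h5 : (i : ℝ) + 4 ≤ 2 * (((3 + i + 1 + 1) / 2 : ℕ) : ℝ) := by
        have h6 : i + 4 ≤ 2 * ((3 + i + 1 + 1) / 2) := by omega
        exact_mod_cast h6
      have h7 := h4 i
      push_cast at h5 ⊢
      have h8 : ((3 : ℝ) + i + 1) * σ = ((i : ℝ) + 4) * σ := by ring
      rw [h8]
      linarith)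
    refine h.trans ?_
    have h5 : N l ^ (τ - 7 / 16 * (i : ℝ)) ≤ N l ^ τ * (3 / 4 : ℝ) ^ i := by
      have h6 : τ - 7 / 16 * (i : ℝ) = τ + (-(7 / 16)) * (i : ℝ) := by ring
      rw [h6, Real.rpow_add hN0, Real.rpow_mul hN0.le, Real.rpow_natCast]
      refine mul_le_mul_of_nonneg_left ?_ hNt
      refine pow_le_pow_left₀ (Real.rpow_nonneg hN0.le _) ?_ i
      refine le_trans ?_ two_rpow_le
      exact Real.rpow_le_rpow_of_nonpos (by norm_num) hN2 (by norm_num)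
    calc (((3 + i : ℕ) : ℝ) + 2) * B * N l ^ (τ - 7 / 16 * (i : ℝ))
        ≤ (((3 + i : ℕ) : ℝ) + 2) * B * (N l ^ τ * (3 / 4 : ℝ) ^ i) :=
          mul_le_mul_of_nonneg_left h5 (by positivity)
      _ = B * N l ^ τ * (((i : ℝ) + 5) * (3 / 4 : ℝ) ^ i) := by
          push_cast
          ring
  have g5 : ∑ i ∈ Finset.range K, (ff N P σ l (3 + i + 1) - ff N P σ l (3 + i)) * w l (3 + i + 1) ≤
      B * N l ^ τ * 32 := by
    refine (Finset.sum_le_sum fun i _ => g4 i).trans ?_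
    rw [← Finset.mul_sum]
    exact mul_le_mul_of_nonneg_left (geo K) (by positivity)
  have h1' : (ff N P σ l (0 + 1) - ff N P σ l 0) * w l (0 + 1) ≤ X1 := h1
  have h2' : (ff N P σ l (1 + 1) - ff N P σ l 1) * w l (1 + 1) ≤ X2 := h2
  linarith

end

theorem eul_goodH {ι : Type} [DecidableEq ι] (B : ℝ) (hB : 1 ≤ B) (N : ι → ℝ) (hN : ∀ l, 2 ≤ N l) (Z : Finset ι)
    (w : ι → ℕ → ℝ) (hw : Den B N Z w) (g : ι → ℝ) (hg1 : ∀ l, g l ≤ 1)
    (hgw : ∀ l, l ∉ Z → w l 1 ≤ g l / N l + B / N l ^ 2) (P : Finset ι) (σ : ℝ) (hσ : 0 ≤ σ) (hσ' : σ ≤ 1 / 16) (l : ι) (hl : l ∉ Z)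
    (K : ℕ) :
    ∑ k ∈ Finset.range K, (ff N P σ l (k + 1) - ff N P σ l k) * w l (k + 1) ≤
      (if l ∈ P then g l / N l else 0) + 2 * ((N l ^ σ - 1) / N l) + 300 * B * N l ^ (-(3 / 2) : ℝ) := by
  have hN2 := hN l
  have hN0 : 0 < N l := by linarith
  obtain ⟨x, hx⟩ : ∃ x : ℝ, x = N l ^ σ := ⟨_, rfl⟩
  obtain ⟨y, hy⟩ : ∃ y : ℝ, y = N l ^ (-(3 / 2) : ℝ) := ⟨_, rfl⟩
  have hx1 : 1 ≤ x := by
    rw [hx]
    exact Real.one_le_rpow (by linarith) hσ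
  have hy0 : 0 ≤ y := by
    rw [hy]
    exact Real.rpow_nonneg hN0.le _
  have hxy : x / N l ^ 2 ≤ y := by
    have h1 : x / N l ^ 2 = N l ^ (σ - 2) := by
      rw [Real.rpow_sub hN0, ← hx]
      norm_num
    rw [h1, hy]
    exact Real.rpow_le_rpow_of_exponent_le (by linarith) (by linarith)
  have hw1 := hgw l hl
  have hg1l := hg1 l
  have hw2 := hw.w2 l hl
  have h1 : (ff N P σ l 1 - ff N P σ l 0) * w l 1 ≤
      (if l ∈ P then g l / N l else 0) + 2 * ((x - 1) / N l) + 2 * B * y := by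
    have e0 : ff N P σ l 0 = 1 := by
      unfold ff
      simp
    have hB2 : x * (B / N l ^ 2) ≤ B * y := by
      calc x * (B / N l ^ 2) = B * (x / N l ^ 2) := by ring
        _ ≤ B * y := mul_le_mul_of_nonneg_left hxy (by linarith)
    have hBN : 0 ≤ B / N l ^ 2 := by positivity
    have hx0 : 0 ≤ (x - 1) / N l := div_nonneg (by linarith) hN0.le
    by_cases hP : l ∈ P
    · have e1 : ff N P σ l 1 = 2 * x := by
        unfold ff
        rw [if_pos hP, hx]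
        norm_num
      rw [e0, e1, if_pos hP]
      have hgx : g l * ((x - 1) / N l) ≤ (x - 1) / N l := mul_le_of_le_one_left hx0 hg1l
      calc (2 * x - 1) * w l 1 ≤ (2 * x - 1) * (g l / N l + B / N l ^ 2) :=
            mul_le_mul_of_nonneg_left hw1 (by linarith)
        _ = g l / N l + 2 * (g l * ((x - 1) / N l)) + 2 * (x * (B / N l ^ 2)) - B / N l ^ 2 := by ring
        _ ≤ g l / N l + 2 * ((x - 1) / N l) + 2 * B * y := by linarith
    · have e1 : ff N P σ l 1 = x := by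
        unfold ff
        rw [if_neg hP, hx]
        norm_num
      rw [e0, e1, if_neg hP]
      have hBy : 0 ≤ B * y := mul_nonneg (by linarith) hy0
      calc (x - 1) * w l 1 ≤ (x - 1) * (1 / N l + B / N l ^ 2) :=
            mul_le_mul_of_nonneg_left (hw.w1 l hl) (by linarith)
        _ = (x - 1) / N l + x * (B / N l ^ 2) - B / N l ^ 2 := by ring
        _ ≤ 0 + 2 * ((x - 1) / N l) + 2 * B * y := by linarith
  have h2 : (ff N P σ l 2 - ff N P σ l 1) * w l 2 ≤ 3 * B * y := by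
    have a1 := ff_le (P := P) (σ := σ) (l := l) hN 2
    have a2 := ff_nonneg (P := P) (σ := σ) (l := l) hN 1
    have a3 := hw.nonneg l 2
    have a4 : N l ^ ((2 : ℝ) * σ) / N l ^ 2 ≤ y := by
      have h1 : N l ^ ((2 : ℝ) * σ) / N l ^ 2 = N l ^ ((2 : ℝ) * σ - 2) := by
        rw [Real.rpow_sub hN0]
        norm_num
      rw [h1, hy]
      exact Real.rpow_le_rpow_of_exponent_le (by linarith) (by linarith)
    push_cast at a1
    calc (ff N P σ l 2 - ff N P σ l 1) * w l 2 ≤ ((2 + 1) * N l ^ ((2 : ℝ) * σ)) * w l 2 :=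
          mul_le_mul_of_nonneg_right (by linarith) a3
      _ ≤ ((2 + 1) * N l ^ ((2 : ℝ) * σ)) * (B / N l ^ 2) := by
          refine mul_le_mul_of_nonneg_left hw2 ?_
          have := Real.rpow_nonneg hN0.le ((2 : ℝ) * σ)
          linarith
      _ = 3 * B * (N l ^ ((2 : ℝ) * σ) / N l ^ 2) := by ring
      _ ≤ 3 * B * y := mul_le_mul_of_nonneg_left a4 (by linarith)
  have h := main_bd (P := P) (σ := σ) (l := l) hB hN hw hσ (-(3 / 2)) _ _ (by linarith)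
    (fun i => by
      have hi : (0 : ℝ) ≤ i := Nat.cast_nonneg i
      have : ((i : ℝ) + 4) * σ ≤ ((i : ℝ) + 4) * (1 / 16) := mul_le_mul_of_nonneg_left hσ' (by linarith)
      linarith) h1 h2 K
  rw [← hy] at h
  rw [← hx, ← hy]
  have hBy : 0 ≤ B * y := mul_nonneg (by linarith) hy0
  nlinarith

end H12.AQ
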