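import Pool.Agent.H51.AV.PrdG

/-!
# [H12 AQ PrdH] The Euler product with a weight `g` (copy of H51/AV/PrdG)

PROOF. `1 + x ≤ exp x`. For `N l ≤ y`: `N ^ (2σ) ≤ exp (2A)`, and `N^σ - 1 ≤ σ log N exp A`; `∑_{N l ≤ y} log N/N ≤ B (1 + log y)`, so
`∑ (N^σ - 1)/N ≤ exp A · B (A + 1)`.
-/

set_option autoImplicit false

noncomputable section

namespace H12.AQ

open H51.AV

/-- the bound for the local factor -/
def GDH {ι : Type} [DecidableEq ι] (D B : ℝ) (g N : ι → ℝ) (Z P : Finset ι) (σ : ℝ) (l : ι) : ℝ :=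
  if l ∈ Z then D * N l ^ (2 * σ - 1 : ℝ)
  else (if l ∈ P then g l / N l else 0) + 2 * ((N l ^ σ - 1) / N l) + 300 * B * N l ^ (-(3 / 2) : ℝ)

theorem GDH_nonneg {ι : Type} [DecidableEq ι] {D B : ℝ} (hD : 1 ≤ D) (hB : 1 ≤ B) {g N : ι → ℝ} (hg : ∀ l, 0 ≤ g l) (hN : ∀ l, 2 ≤ N l) (Z P : Finset ι)
    {σ : ℝ} (hσ : 0 ≤ σ) (l : ι) : 0 ≤ GDH D B g N Z P σ l := by
  have h2 := hN l
  have h0 : 0 < N l := by linarith
  have h1 : 1 ≤ N l ^ σ := Real.one_le_rpow (by linarith) hσ
  unfold GDH
  split_ifs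
  · positivity
  · have : 0 ≤ (N l ^ σ - 1) / N l := div_nonneg (by linarith) h0.le
    have h3 : 0 ≤ g l / N l := div_nonneg (hg l) h0.le
    positivity
  · have : 0 ≤ (N l ^ σ - 1) / N l := div_nonneg (by linarith) h0.le
    positivity

theorem prdH (A B D : ℝ) (hA : 0 ≤ A) (hB : 1 ≤ B) (hD : 1 ≤ D) : ∃ C : ℝ, 1 ≤ C ∧
    ∀ (ι : Type) [Fintype ι] [LinearOrder ι] (N : ι → ℝ), Hyp B N → ∀ (g : ι → ℝ), (∀ l, 0 ≤ g l) → ∀ (Z P : Finset ι) (y σ : ℝ), 2 ≤ y → 0 ≤ σ →
      σ ≤ 1 / 16 → σ * Real.log y ≤ A →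
      ∏ l with N l ≤ y, (1 + GDH D B g N Z P σ l) ≤
        C * Real.exp (∑ l ∈ P with N l ≤ y, g l / N l + C * ∑ l ∈ Z, 1 / N l) := by
  classical
  refine ⟨Real.exp (2 * (Real.exp A * B * (A + 1)) + 300 * B * B) + D * Real.exp (2 * A), ?_, ?_⟩
  · have h1 : 1 ≤ Real.exp (2 * (Real.exp A * B * (A + 1)) + 300 * B * B) := Real.one_le_exp (by positivity)
    have h2 : 0 ≤ D * Real.exp (2 * A) := by positivity
    linarith
  intro ι _ _ N h g hg Z P y σ hy hσ hσ' hσA
  set c1 : ℝ := 2 * (Real.exp A * B * (A + 1)) + 300 * B * B with hc1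
  set c2 : ℝ := D * Real.exp (2 * A) with hc2
  have hc2' : 0 ≤ c2 := by positivity
  have hly : 0 ≤ Real.log y := Real.log_nonneg (by linarith)
  have key : ∀ l : ι, N l ≤ y → GDH D B g N Z P σ l ≤
      (if l ∈ P then g l / N l else 0) + 2 * (σ * Real.exp A * (Real.log (N l) / N l)) +
        300 * B * N l ^ (-(3 / 2) : ℝ) + (if l ∈ Z then c2 * (1 / N l) else 0) := by
    intro l hl
    have h2 := h.two l
    have h0 : 0 < N l := by linarith
    have hlog : 0 ≤ Real.log (N l) := Real.log_nonneg (by linarith)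
    have hlog' : Real.log (N l) ≤ Real.log y := Real.log_le_log h0 hl
    have hx : σ * Real.log (N l) ≤ A := le_trans (mul_le_mul_of_nonneg_left hlog' hσ) hσA
    have hpos : 0 ≤ N l ^ (-(3 / 2) : ℝ) := Real.rpow_nonneg h0.le _
    have hif : (0 : ℝ) ≤ if l ∈ P then g l / N l else 0 := by
      split_ifs
      · exact div_nonneg (hg l) h0.le
      · exact le_rfl
    have ht : 0 ≤ σ * Real.exp A * (Real.log (N l) / N l) := by positivity
    unfold GDH
    by_cases hZ : l ∈ Z
    · simp only [hZ, if_true]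
      have h3 : N l ^ (2 * σ - 1 : ℝ) ≤ Real.exp (2 * A) * (1 / N l) := by
        rw [Real.rpow_sub h0, Real.rpow_one, div_eq_mul_one_div]
        refine mul_le_mul_of_nonneg_right ?_ (by positivity)
        rw [Real.rpow_def_of_pos h0]
        exact Real.exp_le_exp.2 (by nlinarith)
      have h4 : D * N l ^ (2 * σ - 1 : ℝ) ≤ c2 * (1 / N l) := by
        rw [hc2]
        calc D * N l ^ (2 * σ - 1 : ℝ) ≤ D * (Real.exp (2 * A) * (1 / N l)) :=
              mul_le_mul_of_nonneg_left h3 (by positivity)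
          _ = _ := by ring
      have h5 : 0 ≤ 300 * B * N l ^ (-(3 / 2) : ℝ) := by positivity
      linarith
    · simp only [hZ, if_false]
      have h3 : N l ^ σ - 1 ≤ σ * Real.exp A * Real.log (N l) := by
        rw [Real.rpow_def_of_pos h0]
        set x := Real.log (N l) * σ with hxd
        have hx0 : 0 ≤ x := by positivity
        have hxA : x ≤ A := by rw [hxd, mul_comm]; exact hx
        have h6 : 1 - x ≤ Real.exp (-x) := by linarith [Real.add_one_le_exp (-x)]
        have h7 : Real.exp x * Real.exp (-x) = 1 := by rw [← Real.exp_add]; simp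
        have h8 : Real.exp x - 1 ≤ x * Real.exp x := by
          have := mul_le_mul_of_nonneg_left h6 (Real.exp_pos x).le
          nlinarith
        have h9 : x * Real.exp x ≤ x * Real.exp A := mul_le_mul_of_nonneg_left (Real.exp_le_exp.2 hxA) hx0
        calc Real.exp x - 1 ≤ x * Real.exp A := h8.trans h9
          _ = _ := by rw [hxd]; ring
      have h4 : (N l ^ σ - 1) / N l ≤ σ * Real.exp A * (Real.log (N l) / N l) := by
        rw [div_le_iff₀ h0]
        calc N l ^ σ - 1 ≤ σ * Real.exp A * Real.log (N l) := h3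
          _ = _ := by field_simp
      linarith
  have hsum : ∑ l with N l ≤ y, GDH D B g N Z P σ l ≤
      ∑ l ∈ P with N l ≤ y, g l / N l + c1 + c2 * ∑ l ∈ Z, 1 / N l := by
    refine (Finset.sum_le_sum fun l hl => key l (Finset.mem_filter.1 hl).2).trans ?_
    rw [Finset.sum_add_distrib, Finset.sum_add_distrib, Finset.sum_add_distrib]
    have a1 : ∑ l with N l ≤ y, (if l ∈ P then g l / N l else 0) = ∑ l ∈ P with N l ≤ y, g l / N l := by
      rw [← Finset.sum_filter]
      refine Finset.sum_congr ?_ fun _ _ => rfl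
      ext l
      simp [and_comm]
    have a2 : ∑ l with N l ≤ y, 2 * (σ * Real.exp A * (Real.log (N l) / N l)) ≤
        2 * (Real.exp A * B * (A + 1)) := by
      rw [← Finset.mul_sum, ← Finset.mul_sum]
      have := h.mer y (by linarith)
      have h3 : σ * Real.exp A * ∑ l with N l ≤ y, Real.log (N l) / N l ≤
          σ * Real.exp A * (B * (1 + Real.log y)) := mul_le_mul_of_nonneg_left this (by positivity)
      have h4 : σ * Real.exp A * (B * (1 + Real.log y)) = Real.exp A * B * (σ + σ * Real.log y) := by ring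
      have h5 : Real.exp A * B * (σ + σ * Real.log y) ≤ Real.exp A * B * (A + 1) :=
        mul_le_mul_of_nonneg_left (by linarith) (by positivity)
      linarith
    have a3 : ∑ l with N l ≤ y, 300 * B * N l ^ (-(3 / 2) : ℝ) ≤ 300 * B * B := by
      rw [← Finset.mul_sum]
      refine mul_le_mul_of_nonneg_left (le_trans ?_ h.sq) (by positivity)
      refine Finset.sum_le_sum_of_subset_of_nonneg (Finset.filter_subset _ _) fun l _ _ =>
        Real.rpow_nonneg (by have := h.two l; linarith) _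
    have a4 : ∑ l with N l ≤ y, (if l ∈ Z then c2 * (1 / N l) else 0) ≤ c2 * ∑ l ∈ Z, 1 / N l := by
      rw [← Finset.sum_filter, Finset.mul_sum]
      refine Finset.sum_le_sum_of_subset_of_nonneg ?_ fun l _ _ => ?_
      · intro l hl
        exact (Finset.mem_filter.1 hl).2
      · have := h.two l
        have : 0 ≤ 1 / N l := by positivity
        positivity
    linarith
  calc ∏ l with N l ≤ y, (1 + GDH D B g N Z P σ l) ≤ ∏ l with N l ≤ y, Real.exp (GDH D B g N Z P σ l) := by
        refine Finset.prod_le_prod (fun l _ => ?_) fun l _ => ?_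
        · have := GDH_nonneg hD hB hg h.two Z P hσ l
          linarith
        · linarith [Real.add_one_le_exp (GDH D B g N Z P σ l)]
    _ = Real.exp (∑ l with N l ≤ y, GDH D B g N Z P σ l) := (Real.exp_sum _ _).symm
    _ ≤ Real.exp (∑ l ∈ P with N l ≤ y, g l / N l + c1 + c2 * ∑ l ∈ Z, 1 / N l) := Real.exp_le_exp.2 hsum
    _ = Real.exp c1 * Real.exp (∑ l ∈ P with N l ≤ y, g l / N l + c2 * ∑ l ∈ Z, 1 / N l) := by
        rw [← Real.exp_add]; ring_nf
    _ ≤ (Real.exp c1 + c2) * Real.exp (∑ l ∈ P with N l ≤ y, g l / N l + (Real.exp c1 + c2) * ∑ l ∈ Z, 1 / N l) := by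
        have hZ : 0 ≤ ∑ l ∈ Z, 1 / N l := Finset.sum_nonneg fun l _ => by have := h.two l; positivity
        refine mul_le_mul (by linarith) (Real.exp_le_exp.2 ?_) (Real.exp_pos _).le (by positivity)
        have := mul_le_mul_of_nonneg_right (show c2 ≤ Real.exp c1 + c2 by linarith [Real.exp_pos c1]) hZ
        linarith

end H12.AQ
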