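import Pool.Agent.H51.AV.ClsG
import Pool.Agent.H12.AQ.PrdH
import Pool.Agent.H12.AQ.EulH

/-!
# [H12 AQ ClsH] With a weight `g` (copy of H51/AV/ClsG). The sum over a class of `b` with a prefix composed of primes of norm `≤ y`
-/

set_option autoImplicit false

noncomputable section

namespace H12.AQ

open H51.AV

theorem clsH (A B : ℝ) (m : ℕ) (hA : 0 ≤ A) (hB : 1 ≤ B) : ∃ C : ℝ, 1 ≤ C ∧
    ∀ (ι : Type) [Fintype ι] [LinearOrder ι] (N : ι → ℝ), Hyp B N → ∀ (Z : Finset ι) (w : ι → ℕ → ℝ), Den B N Z w →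
    ∀ (g : ι → ℝ), (∀ l, 0 ≤ g l) → (∀ l, g l ≤ 1) → (∀ l, l ∉ Z → w l 1 ≤ g l / N l + B / N l ^ 2) →
    ∀ (P : Finset ι) (M T y σ : ℝ), 0 ≤ T → 2 ≤ y → 0 ≤ σ → σ ≤ 1 / 16 → σ * Real.log y ≤ A →
    ∀ (β : Type) (S : Finset β) (E a : β → ι → ℕ),
      (∀ e : ι → ℕ, nn N e ≤ M →
        ((S.filter (fun b => ∀ l, e l ≤ E b l)).card : ℝ) ≤ T * ∏ l, w l (e l)) →
      (∀ b ∈ S, ∀ l, a b l ≤ E b l) → (∀ b ∈ S, nn N (a b) ≤ M) → (∀ b ∈ S, ∀ l, y < N l → a b l = 0) →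
      ∑ b ∈ S, tg Z P m (a b) * nn N (a b) ^ σ ≤
        C * T * Real.exp (∑ l ∈ P with N l ≤ y, g l / N l + C * ∑ l ∈ Z, 1 / N l) := by
  classical
  obtain ⟨D, hD, heub⟩ := eub B m hB
  obtain ⟨C, hC, h⟩ := prdH A B D hA hB hD
  refine ⟨C, hC, ?_⟩
  intro ι _ _ N hH Z w hw g hg0 hg1 hgw P M T y σ hT hy hσ hσ' hσA β S E a hd haE haM hay
  have h1 := dsm N (fun l => by have := hH.two l; linarith) w hw.w0 hw.nonneg S E a M T hT hd haE haM
    (Finset.univ.filter (fun l => N l ≤ y)) (fun b hb l hl => hay b hb l (by simpa using hl))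
    (fg N Z P m σ) (fg_zero N Z P m σ) (fg_mono hH.two Z P m hσ) (GDH D B g N Z P σ) (by
      intro l _ K
      unfold GDH
      by_cases hZ : l ∈ Z
      · rw [if_pos hZ]
        exact heub ι N hH.two Z w hw P σ hσ hσ' l hZ K
      · rw [if_neg hZ]
        have h3 := eul_goodH B hB N hH.two Z w hw g hg1 hgw P σ hσ hσ' l hZ K
        have h4 : ∀ k, fg N Z P m σ l k = ff N P σ l k := by
          intro k
          unfold fg fl ff
          rw [if_neg hZ]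
        simp only [h4]
        exact h3)
  have h2 : ∑ b ∈ S, tg Z P m (a b) * nn N (a b) ^ σ =
      ∑ b ∈ S, ∏ l ∈ Finset.univ.filter (fun l => N l ≤ y), fg N Z P m σ l (a b l) := by
    refine Finset.sum_congr rfl fun b hb => ?_
    rw [prod_fg hH.two Z P _ m σ (a b) (fun l hl => hay b hb l (by simpa using hl))]
  rw [h2]
  refine h1.trans ?_
  have h3 := h ι N hH g hg0 Z P y σ hy hσ hσ' hσA
  calc _ ≤ T * (C * Real.exp (∑ l ∈ P with N l ≤ y, g l / N l + C * ∑ l ∈ Z, 1 / N l)) :=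
        mul_le_mul_of_nonneg_left h3 hT
    _ = _ := by ring

end H12.AQ
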