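import Pool.Agent.H51.AV.PfxG
import Pool.Agent.H12.AQ.ClsH

/-!
# [H12 AQ PfxH] The prefix lemma with general local factors and a weight `g` in the first density (copy of H51/AV/PfxG)

PROOF. (With `tg` for `tau`, `D0 = (m + 1) C0`.) `A = 2 (D0 + 1)/c`, `Y = exp (16 A)`, `Q = B Y^(3/2)`, `κ = c/(2 Q)`, `θ = κ/16`, `ε = κ/(8 C0)`, `M = X^c`.
`S1`: some `a ≤ E b`, `nn a ≤ M`, `tau (E b) ≤ exp (D0/θ) tau a` (`nn (E b) ≤ M`, or the first prime `l0` of the rest has norm `> X^θ`):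
`cls` with `σ = 0`, `y = X`. `S2`: `X^κ < N l ^ (E b l)` for some `N l ≤ X^θ`: `pp` and the divisor bound. `S3 v`: `N l0 ≤ X^(1/v)`, `X^(c/2) < nn a ≤ M`,
`tau (E b) ≤ exp (D0 (v + 1)) tau a`: `cls` with `y = X^(1/v)`, `σ = A/log y`, saving `exp (-A c v/2) = exp (-(D0 + 1) v)`.
-/

set_option autoImplicit false

noncomputable section

namespace H12.AQ

open H51.AV


/-- the prefix lemma for `tg` -/
theorem pfxTH (B C0 c : ℝ) (m : ℕ) (hB : 1 ≤ B) (hC0 : 1 ≤ C0) (hc : 0 < c) (hc1 : c ≤ 1) : ∃ C' : ℝ, 1 ≤ C' ∧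
    ∀ (ι : Type) [Fintype ι] [LinearOrder ι] (N : ι → ℝ), Hyp B N → ∀ (Z : Finset ι) (w : ι → ℕ → ℝ), Den B N Z w →
    ∀ (g : ι → ℝ), (∀ l, 0 ≤ g l) → (∀ l, g l ≤ 1) → (∀ l, l ∉ Z → w l 1 ≤ g l / N l + B / N l ^ 2) →
    ∀ (P : Finset ι) (X T : ℝ), 2 ≤ X → 0 ≤ T →
    ∀ (β : Type) (S : Finset β) (E : β → ι → ℕ), (∀ b ∈ S, nn N (E b) ≤ X ^ C0) →
      (∀ e : ι → ℕ, nn N e ≤ X ^ c →
        ((S.filter (fun b => ∀ l, e l ≤ E b l)).card : ℝ) ≤ T * ∏ l, w l (e l)) →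
      ∑ b ∈ S, tg Z P m (E b) ≤
        C' * T * Real.exp (∑ l ∈ P with N l ≤ X, g l / N l + C' * ∑ l ∈ Z, 1 / N l) := by
  classical
  have hm0 : (0 : ℝ) < (m : ℝ) + 1 := by positivity
  set D0 : ℝ := (m + 1) * C0 with hD0
  have hD01 : 1 ≤ D0 := by
    rw [hD0]
    have : (0 : ℝ) ≤ (m : ℝ) := Nat.cast_nonneg m
    nlinarith
  set A : ℝ := 2 * (D0 + 1) / c with hA
  have hA0 : 0 < A := by positivity
  set Y : ℝ := Real.exp (16 * A) with hY
  have hY1 : 1 ≤ Y := Real.one_le_exp (by positivity)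
  set Q : ℝ := B * Y ^ (3 / 2 : ℝ) with hQ
  have hQ1 : 1 ≤ Q := by
    have : 1 ≤ Y ^ (3 / 2 : ℝ) := Real.one_le_rpow hY1 (by norm_num)
    nlinarith
  set κ : ℝ := c / (2 * Q) with hκ
  have hκ0 : 0 < κ := by positivity
  have hκc : κ ≤ c / 2 := by
    rw [hκ, div_le_div_iff₀ (by positivity) (by norm_num)]
    nlinarith
  set θ : ℝ := κ / 16 with hθ
  have hθ0 : 0 < θ := by positivity
  have hθ1 : θ ≤ 1 := by linarith
  set ε : ℝ := κ / (8 * C0) with hε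
  have hε0 : 0 < ε := by positivity
  obtain ⟨C1, hC1, hcls⟩ := clsH A B m hA0.le hB
  obtain ⟨C2, hC2, htau⟩ := tg_le B ε m hε0
  set D1 : ℝ := Real.exp (D0 / θ) with hD1
  set C' : ℝ := D1 * C1 + B * B * C2 + 2 * Real.exp D0 * C1 + C1 with hC'
  have hD1' : 0 < D1 := Real.exp_pos _
  have hC1C' : C1 ≤ C' := by
    have h1 : 0 ≤ D1 * C1 := by positivity
    have h2 : 0 ≤ B * B * C2 := by positivity
    have h3 : 0 ≤ 2 * Real.exp D0 * C1 := by positivity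
    linarith
  refine ⟨C', hC1.trans hC1C', ?_⟩
  intro ι _ _ N h Z w hw g hg0 hg1 hgw P X T hX hT β S E hE hd
  have hX0 : 0 < X := by linarith
  have hX1 : 1 ≤ X := by linarith
  have hlX : 0 < Real.log X := Real.log_pos (by linarith)
  have hZ0 : 0 ≤ ∑ l ∈ Z, 1 / N l := Finset.sum_nonneg fun l _ => by have := h.two l; positivity
  have hP0 : 0 ≤ ∑ l ∈ P with N l ≤ X, g l / N l := Finset.sum_nonneg fun l _ => div_nonneg (hg0 l) (by have := h.two l; linarith)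
  set W : ℝ := Real.exp (∑ l ∈ P with N l ≤ X, g l / N l + C1 * ∑ l ∈ Z, 1 / N l) with hW
  have hW1 : 1 ≤ W := Real.one_le_exp (by positivity)
  have hWle : W ≤ Real.exp (∑ l ∈ P with N l ≤ X, g l / N l + C' * ∑ l ∈ Z, 1 / N l) := by
    refine Real.exp_le_exp.2 ?_
    have := mul_le_mul_of_nonneg_right hC1C' hZ0
    linarith
  -- the classes
  let Q1 : β → (ι → ℕ) → Prop := fun b a =>
    (∀ l, a l ≤ E b l) ∧ nn N a ≤ X ^ c ∧ tg Z P m (E b) ≤ D1 * tg Z P m a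
  let Q3 : ℕ → β → (ι → ℕ) → Prop := fun v b a =>
    (∀ l, a l ≤ E b l) ∧ nn N a ≤ X ^ c ∧ X ^ (c / 2) ≤ nn N a ∧
        tg Z P m (E b) ≤ Real.exp (D0 * (v + 1)) * tg Z P m a ∧ ∀ l, X ^ (1 / (v : ℝ)) < N l → a l = 0
  let S1 : Finset β := S.filter (fun b => ∃ a, Q1 b a)
  let S2 : Finset β := S.filter (fun b => ∃ l, N l ≤ X ^ θ ∧ X ^ κ < N l ^ E b l)
  let V : Finset ℕ := (Finset.range (⌊Real.log X / Real.log 2⌋₊ + 1)).filter
    (fun v => 1 ≤ v ∧ Y < X ^ (1 / (v : ℝ)))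
  let S3 : ℕ → Finset β := fun v => S.filter (fun b => ∃ a, Q3 v b a)
  have hcov : S ⊆ S1 ∪ (S2 ∪ V.biUnion S3) := by
    intro b hb
    have hκY : κ * (B * Y ^ (3 / 2 : ℝ)) ≤ c / 2 := by
      rw [← hQ, hκ]
      have : c / (2 * Q) * Q = c / 2 := by field_simp
      exact this.le
    rcases coverG hB h Z P m C0 D0 hD0 c κ θ Y X hC0 hc hκ0 hκc hθ0 hθ1 hY1 hκY hX (E b) (hE b hb) with h1 | h1 | h1
    · exact Finset.mem_union_left _ (Finset.mem_filter.2 ⟨hb, h1⟩)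
    · exact Finset.mem_union_right _ (Finset.mem_union_left _ (Finset.mem_filter.2 ⟨hb, h1⟩))
    · obtain ⟨v, hv1, hv2, hv3, a, ha⟩ := h1
      refine Finset.mem_union_right _ (Finset.mem_union_right _ (Finset.mem_biUnion.2 ⟨v, ?_, ?_⟩))
      · exact Finset.mem_filter.2 ⟨Finset.mem_range.2 (by omega), hv1, hv3⟩
      · exact Finset.mem_filter.2 ⟨hb, a, ha⟩
  have hsub : ∀ S' : Finset β, S' ⊆ S → ∀ e : ι → ℕ, nn N e ≤ X ^ c →
      ((S'.filter (fun b => ∀ l, e l ≤ E b l)).card : ℝ) ≤ T * ∏ l, w l (e l) := by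
    intro S' hS' e he
    refine le_trans ?_ (hd e he)
    exact_mod_cast Finset.card_le_card (Finset.filter_subset_filter _ hS')
  -- S1
  have hb1 : ∑ b ∈ S1, tg Z P m (E b) ≤ D1 * C1 * T * W := by
    have hch : ∀ b : β, ∃ a : ι → ℕ, b ∈ S1 → Q1 b a := by
      intro b
      by_cases hb : b ∈ S1
      · obtain ⟨a, ha⟩ := (Finset.mem_filter.1 hb).2
        exact ⟨a, fun _ => ha⟩
      · exact ⟨0, fun h' => absurd h' hb⟩
    choose a ha using hch
    have h1 := hcls ι N h Z w hw g hg0 hg1 hgw P (X ^ c) T X 0 hT hX le_rfl (by norm_num) (by simp [hA0.le]) β S1 E a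
      (hsub S1 (Finset.filter_subset _ _)) (fun b hb => (ha b hb).1) (fun b hb => (ha b hb).2.1) (by
        intro b hb l hl
        by_contra hne
        have h2 : N l ≤ nn N (a b) := by
          have h3 : nn N (Pi.single l 1) ≤ nn N (a b) := nn_mono h fun l' => by
            by_cases hl' : l' = l
            · subst hl'; rw [Pi.single_eq_same]; omega
            · rw [Pi.single_eq_of_ne hl']; exact Nat.zero_le _
          rwa [nn_single, pow_one] at h3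
        have h4 : X ^ c ≤ X := by
          calc X ^ c ≤ X ^ (1 : ℝ) := Real.rpow_le_rpow_of_exponent_le hX1 hc1
            _ = X := Real.rpow_one X
        have := (ha b hb).2.1
        linarith)
    calc ∑ b ∈ S1, tg Z P m (E b) ≤ ∑ b ∈ S1, D1 * (tg Z P m (a b) * nn N (a b) ^ (0 : ℝ)) := by
          refine Finset.sum_le_sum fun b hb => ?_
          rw [Real.rpow_zero, mul_one]
          exact (ha b hb).2.2
      _ = D1 * ∑ b ∈ S1, tg Z P m (a b) * nn N (a b) ^ (0 : ℝ) := by rw [Finset.mul_sum]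
      _ ≤ D1 * (C1 * T * W) := mul_le_mul_of_nonneg_left h1 hD1'.le
      _ = _ := by ring
  -- S2
  have hb2 : ∑ b ∈ S2, tg Z P m (E b) ≤ B * B * C2 * T * W := by
    have h1 := pp hB h hw (X ^ c) T (X ^ κ) (X ^ θ) hT (Real.one_le_rpow hX1 hκ0.le)
      (Real.one_le_rpow hX1 hθ0.le) (by
        rw [← Real.rpow_add hX0]
        exact Real.rpow_le_rpow_of_exponent_le hX1 (by rw [hθ]; linarith)) S E hd
    have h2 : ∀ b ∈ S2, tg Z P m (E b) ≤ C2 * X ^ (κ / 8) := by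
      intro b hb
      have hbS := (Finset.mem_filter.1 hb).1
      refine (htau ι N h Z P (E b)).trans (mul_le_mul_of_nonneg_left ?_ (by linarith))
      calc nn N (E b) ^ ε ≤ (X ^ C0) ^ ε :=
            Real.rpow_le_rpow (by have := one_le_nn h (E b); linarith) (hE b hbS) hε0.le
        _ = X ^ (κ / 8) := by
            rw [← Real.rpow_mul hX0.le, hε]
            congr 1
            field_simp
    have h3 : X ^ (κ / 8) * ((X ^ θ) ^ (3 / 2 : ℝ) * (X ^ κ) ^ (-(1 / 2) : ℝ)) ≤ 1 := by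
      rw [← Real.rpow_mul hX0.le, ← Real.rpow_mul hX0.le, ← Real.rpow_add hX0, ← Real.rpow_add hX0]
      exact Real.rpow_le_one_of_one_le_of_nonpos hX1 (by rw [hθ]; nlinarith)
    calc ∑ b ∈ S2, tg Z P m (E b) ≤ ∑ _b ∈ S2, C2 * X ^ (κ / 8) := Finset.sum_le_sum h2
      _ = (S2.card : ℝ) * (C2 * X ^ (κ / 8)) := by rw [Finset.sum_const, nsmul_eq_mul]
      _ ≤ (T * (B * B * (X ^ θ) ^ (3 / 2 : ℝ) * (X ^ κ) ^ (-(1 / 2) : ℝ))) * (C2 * X ^ (κ / 8)) :=
          mul_le_mul_of_nonneg_right h1 (by positivity)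
      _ = B * B * C2 * T * (X ^ (κ / 8) * ((X ^ θ) ^ (3 / 2 : ℝ) * (X ^ κ) ^ (-(1 / 2) : ℝ))) := by ring
      _ ≤ B * B * C2 * T * 1 := mul_le_mul_of_nonneg_left h3 (by positivity)
      _ ≤ B * B * C2 * T * W := mul_le_mul_of_nonneg_left hW1 (by positivity)
  -- S3
  have hb3 : ∀ v ∈ V, ∑ b ∈ S3 v, tg Z P m (E b) ≤ Real.exp D0 * C1 * T * W * Real.exp (-(v : ℝ)) := by
    intro v hv
    obtain ⟨-, hv1, hvY⟩ := Finset.mem_filter.1 hv
    have hv0 : (0 : ℝ) < v := by exact_mod_cast hv1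
    set y : ℝ := X ^ (1 / (v : ℝ)) with hy
    have hlogy : Real.log y = Real.log X / v := by rw [hy, Real.log_rpow hX0]; ring
    have h16 : 16 * A < Real.log y := by
      have := Real.log_lt_log (by linarith) hvY
      rwa [hY, Real.log_exp] at this
    have hlogy0 : 0 < Real.log y := by linarith
    have hAge : 1 ≤ A := by
      rw [hA, le_div_iff₀ hc]
      linarith
    have hy2 : 2 ≤ y := by
      have h1 : Real.exp 1 ≤ y := by
        rw [← Real.exp_log (show (0 : ℝ) < y from Real.rpow_pos_of_pos hX0 _)]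
        exact Real.exp_le_exp.2 (by linarith)
      have h2 := Real.add_one_le_exp (1 : ℝ)
      linarith
    have hch : ∀ b : β, ∃ a : ι → ℕ, b ∈ S3 v → Q3 v b a := by
      intro b
      by_cases hb : b ∈ S3 v
      · obtain ⟨a, ha⟩ := (Finset.mem_filter.1 hb).2
        exact ⟨a, fun _ => ha⟩
      · exact ⟨0, fun h' => absurd h' hb⟩
    choose a ha using hch
    have hσ0 : 0 ≤ A / Real.log y := by positivity
    have h1 := hcls ι N h Z w hw g hg0 hg1 hgw P (X ^ c) T y (A / Real.log y) hT hy2 hσ0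
      (by rw [div_le_iff₀ hlogy0]; linarith) (by rw [div_mul_cancel₀ _ hlogy0.ne']) β (S3 v) E a
      (hsub _ (Finset.filter_subset _ _)) (fun b hb => (ha b hb).1) (fun b hb => (ha b hb).2.1)
      (fun b hb => (ha b hb).2.2.2.2)
    have h2 : ∀ b ∈ S3 v, tg Z P m (E b) ≤
        Real.exp (D0 * (v + 1)) * Real.exp (-((D0 + 1) * v)) * (tg Z P m (a b) * nn N (a b) ^ (A / Real.log y)) := by
      intro b hb
      obtain ⟨-, -, q3, q4, -⟩ := ha b hb
      have h3 : Real.exp ((D0 + 1) * v) ≤ nn N (a b) ^ (A / Real.log y) := by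
        calc Real.exp ((D0 + 1) * v) = (X ^ (c / 2)) ^ (A / Real.log y) := by
              rw [← Real.rpow_mul hX0.le, Real.rpow_def_of_pos hX0, hlogy]
              congr 1
              rw [hA]
              field_simp
          _ ≤ _ := Real.rpow_le_rpow (Real.rpow_nonneg hX0.le _) q3 hσ0
      have h4 : 1 ≤ Real.exp (-((D0 + 1) * v)) * nn N (a b) ^ (A / Real.log y) := by
        calc (1 : ℝ) = Real.exp (-((D0 + 1) * v)) * Real.exp ((D0 + 1) * v) := by rw [← Real.exp_add]; simp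
          _ ≤ _ := mul_le_mul_of_nonneg_left h3 (Real.exp_pos _).le
      calc tg Z P m (E b) ≤ Real.exp (D0 * (v + 1)) * tg Z P m (a b) := q4
        _ = Real.exp (D0 * (v + 1)) * tg Z P m (a b) * 1 := by ring
        _ ≤ Real.exp (D0 * (v + 1)) * tg Z P m (a b) *
            (Real.exp (-((D0 + 1) * v)) * nn N (a b) ^ (A / Real.log y)) :=
            mul_le_mul_of_nonneg_left h4 (mul_nonneg (Real.exp_pos _).le (tg_nonneg Z P m _))
        _ = _ := by ring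
    have h5 : Real.exp (D0 * (v + 1)) * Real.exp (-((D0 + 1) * v)) = Real.exp D0 * Real.exp (-(v : ℝ)) := by
      rw [← Real.exp_add, ← Real.exp_add]
      congr 1
      ring
    have h6 : Real.exp (∑ l ∈ P with N l ≤ y, g l / N l + C1 * ∑ l ∈ Z, 1 / N l) ≤ W := by
      refine Real.exp_le_exp.2 (by
        have : ∑ l ∈ P with N l ≤ y, g l / N l ≤ ∑ l ∈ P with N l ≤ X, g l / N l := by
          refine Finset.sum_le_sum_of_subset_of_nonneg ?_ fun l _ _ => div_nonneg (hg0 l) (by have := h.two l; linarith)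
          intro l hl
          obtain ⟨hlP, hly⟩ := Finset.mem_filter.1 hl
          refine Finset.mem_filter.2 ⟨hlP, hly.trans ?_⟩
          calc y ≤ X ^ (1 : ℝ) := Real.rpow_le_rpow_of_exponent_le hX1 (by
                rw [div_le_one hv0]; exact_mod_cast hv1)
            _ = X := Real.rpow_one X
        linarith)
    calc ∑ b ∈ S3 v, tg Z P m (E b) ≤ ∑ b ∈ S3 v, Real.exp (D0 * (v + 1)) * Real.exp (-((D0 + 1) * v)) *
          (tg Z P m (a b) * nn N (a b) ^ (A / Real.log y)) := Finset.sum_le_sum h2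
      _ = Real.exp D0 * Real.exp (-(v : ℝ)) * ∑ b ∈ S3 v, tg Z P m (a b) * nn N (a b) ^ (A / Real.log y) := by
          rw [← Finset.mul_sum, h5]
      _ ≤ Real.exp D0 * Real.exp (-(v : ℝ)) *
          (C1 * T * Real.exp (∑ l ∈ P with N l ≤ y, g l / N l + C1 * ∑ l ∈ Z, 1 / N l)) :=
          mul_le_mul_of_nonneg_left h1 (by positivity)
      _ ≤ Real.exp D0 * Real.exp (-(v : ℝ)) * (C1 * T * W) := by
          refine mul_le_mul_of_nonneg_left (mul_le_mul_of_nonneg_left h6 (by positivity)) (by positivity)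
      _ = _ := by ring
  have hgeo : ∑ v ∈ V, Real.exp (-(v : ℝ)) ≤ 2 := by
    have h1 : ∑ v ∈ V, Real.exp (-(v : ℝ)) ≤ ∑ v ∈ Finset.range (⌊Real.log X / Real.log 2⌋₊ + 1), (1 / 2 : ℝ) ^ v := by
      refine (Finset.sum_le_sum fun v _ => ?_).trans
        (Finset.sum_le_sum_of_subset_of_nonneg (Finset.filter_subset _ _) fun v _ _ => by positivity)
      have h2 : (2 : ℝ) ≤ Real.exp 1 := by have := Real.add_one_le_exp (1 : ℝ); linarith
      have h3 : Real.exp (-(v : ℝ)) = (1 / Real.exp 1) ^ v := by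
        rw [Real.exp_neg, one_div, inv_pow, ← Real.exp_nat_mul, mul_one]
      rw [h3]
      exact pow_le_pow_left₀ (by positivity) (one_div_le_one_div_of_le (by norm_num) h2) v
    have h2 : ∑ v ∈ Finset.range (⌊Real.log X / Real.log 2⌋₊ + 1), (1 / 2 : ℝ) ^ v ≤ 2 := by
      have := Summable.sum_le_tsum (Finset.range (⌊Real.log X / Real.log 2⌋₊ + 1))
        (fun i _ => by positivity) summable_geometric_two
      rwa [tsum_geometric_two] at this
    linarith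
  have hall : ∑ b ∈ S, tg Z P m (E b) ≤ ∑ b ∈ S1, tg Z P m (E b) + (∑ b ∈ S2, tg Z P m (E b) +
      ∑ v ∈ V, ∑ b ∈ S3 v, tg Z P m (E b)) := by
    have hn : ∀ b : β, 0 ≤ tg Z P m (E b) := fun b => tg_nonneg Z P m _
    have u1 : ∀ U V' : Finset β, ∑ b ∈ U ∪ V', tg Z P m (E b) ≤ ∑ b ∈ U, tg Z P m (E b) + ∑ b ∈ V', tg Z P m (E b) := by
      intro U V'
      rw [← Finset.sum_union_inter]
      have : 0 ≤ ∑ b ∈ U ∩ V', tg Z P m (E b) := Finset.sum_nonneg fun b _ => hn b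
      linarith
    calc ∑ b ∈ S, tg Z P m (E b) ≤ ∑ b ∈ S1 ∪ (S2 ∪ V.biUnion S3), tg Z P m (E b) :=
          Finset.sum_le_sum_of_subset_of_nonneg hcov fun b _ _ => hn b
      _ ≤ ∑ b ∈ S1, tg Z P m (E b) + ∑ b ∈ S2 ∪ V.biUnion S3, tg Z P m (E b) := u1 _ _
      _ ≤ ∑ b ∈ S1, tg Z P m (E b) + (∑ b ∈ S2, tg Z P m (E b) + ∑ b ∈ V.biUnion S3, tg Z P m (E b)) := by
          have := u1 S2 (V.biUnion S3)
          linarith
      _ ≤ _ := by
          have := sum_biUnion_leG V S3 (fun b => tg Z P m (E b)) hn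
          linarith
  have hb3' : ∑ v ∈ V, ∑ b ∈ S3 v, tg Z P m (E b) ≤ 2 * Real.exp D0 * C1 * T * W := by
    calc _ ≤ ∑ v ∈ V, Real.exp D0 * C1 * T * W * Real.exp (-(v : ℝ)) := Finset.sum_le_sum hb3
      _ = Real.exp D0 * C1 * T * W * ∑ v ∈ V, Real.exp (-(v : ℝ)) := by rw [Finset.mul_sum]
      _ ≤ Real.exp D0 * C1 * T * W * 2 := mul_le_mul_of_nonneg_left hgeo (by positivity)
      _ = _ := by ring
  calc ∑ b ∈ S, tg Z P m (E b) ≤ D1 * C1 * T * W + (B * B * C2 * T * W + 2 * Real.exp D0 * C1 * T * W) := by linarith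
    _ = (D1 * C1 + B * B * C2 + 2 * Real.exp D0 * C1) * T * W := by ring
    _ ≤ C' * T * W := by
        refine mul_le_mul_of_nonneg_right (mul_le_mul_of_nonneg_right ?_ hT) (by linarith)
        rw [hC']
        linarith
    _ ≤ _ := mul_le_mul_of_nonneg_left hWle (by
        have : 0 ≤ C' := by linarith
        positivity)

/-- THE PREFIX LEMMA, for local factors `f l k ≤ (k+1)^m` everywhere and, outside `Z`, `≤ k + 1` on `P`, `≤ 1` outside `P` -/
theorem pfxH (B C0 c : ℝ) (m : ℕ) (hB : 1 ≤ B) (hC0 : 1 ≤ C0) (hc : 0 < c) (hc1 : c ≤ 1) : ∃ C' : ℝ, 1 ≤ C' ∧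
    ∀ (ι : Type) [Fintype ι] [LinearOrder ι] (N : ι → ℝ), Hyp B N → ∀ (Z : Finset ι) (w : ι → ℕ → ℝ), Den B N Z w →
    ∀ (g : ι → ℝ), (∀ l, 0 ≤ g l) → (∀ l, g l ≤ 1) → (∀ l, l ∉ Z → w l 1 ≤ g l / N l + B / N l ^ 2) →
    ∀ (P : Finset ι) (X T : ℝ), 2 ≤ X → 0 ≤ T →
    ∀ (f : ι → ℕ → ℝ), (∀ l k, 0 ≤ f l k) → (∀ l k, f l k ≤ ((k : ℝ) + 1) ^ m) →
      (∀ l k, l ∉ Z → l ∈ P → f l k ≤ (k : ℝ) + 1) → (∀ l k, l ∉ Z → l ∉ P → f l k ≤ 1) →
    ∀ (β : Type) (S : Finset β) (E : β → ι → ℕ), (∀ b ∈ S, nn N (E b) ≤ X ^ C0) →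
      (∀ e : ι → ℕ, nn N e ≤ X ^ c →
        ((S.filter (fun b => ∀ l, e l ≤ E b l)).card : ℝ) ≤ T * ∏ l, w l (e l)) →
      ∑ b ∈ S, ∏ l, f l (E b l) ≤
        C' * T * Real.exp (∑ l ∈ P with N l ≤ X, g l / N l + C' * ∑ l ∈ Z, 1 / N l) := by
  classical
  obtain ⟨C', hC', h⟩ := pfxTH B C0 c m hB hC0 hc hc1
  refine ⟨C', hC', ?_⟩
  intro ι _ _ N hN Z w hw g hg0 hg1 hgw P X T hX hT f f0 f1 f2 f3 β S E hE hd
  refine le_trans (Finset.sum_le_sum fun b _ => ?_) (h ι N hN Z w hw g hg0 hg1 hgw P X T hX hT β S E hE hd)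
  refine Finset.prod_le_prod (fun l _ => f0 l _) fun l _ => ?_
  unfold fl
  split_ifs with h1 h2
  · exact f1 l _
  · exact f2 l _ h1 h2
  · exact f3 l _ h1 h2

end H12.AQ
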