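import Pool.Agent.H12.AQ.Den3
import Pool.Agent.H12.AQ.Mrt2
import Pool.Agent.H12.AQ.Fcl3
import Pool.Agent.H12.AQ.CrtG
import Pool.Agent.H12.AQ.PfxH
import Pool.Agent.H77.PX.Den

/-!
# [H12 AQ AVG3] Assembly of `Avg3Stmt` (130-190 lines)

MODEL: `avg` in H77/PX/Avg.lean, with `c = τ(b)`, no content, no `Inr` part. `set3_of`: `ω ∈ 𝓞 M`. `d = [M:ℚ] ≥ 1`. `c0 = min 1 (δ d / 4)`, `C0 = (4 (A+1) + 4) d`,
`B = max (B of hyp k) (B of den3)`, `pfxH B C0 c0 96` gives `C'`; `crtG M` gives `C1`, `mrt2` gives `C2`.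
`T` = the primes `l` in the union of the `pf (span {ek τ b})`, `b ∈ S`, such that no prime over `l` contains `h`; `enum T`: `p`. `N i = ni (p i)`, `E b i = ev m τ b (p i)`,
`f i j = fl3 m (p i) j`, `P = univ`, `Z` = the `i` with `m ∈ p i`, `g i = gf τ (p i)`. `nn N (E b) ≤ nz (E2 τ b)` (`nnle3`) `≤ X^C0` (`nzE M` with `c = τ b`, `A + 1`:
`Bd (2 X^A)` and `2 X^A ≤ X^(A+1)`; `sz φ (tO τ x) = sz (φ.comp τ) x`).
Counts: `nn N e ≤ X^c0 ≤ X^(δ d/4) ≤ y^(d/4)`, so `ni h * ∏ ni (ex M (p i) ^ e i) = ni h * (nn N e)^2 ≤ y^(d/40) y^(d/2) ≤ y^d` (`exN`). `crtG` for `I i = ex M (p i) ^ e i`,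
`Z i = Z2n m τ (p i) (e i)`: pairwise coprime: `p i ≠ p j` maximal, coprime, so are their extensions (`IsCoprime.map`/`Ideal.map_sup`, `1 ∈`), `IsCoprime.pow`; `h` and `ex M (p i)`:
a maximal ideal containing both is a prime over `p i` containing `h` (`ov_iff`): excluded. `b ∈ S` with `e i ≤ E b i`: if `e i ≥ 1` then `Nin` holds and
`ek τ b ∈ (p i)^(e i)` (`od`: `le_count` in normalized factors; `UniqueFactorizationMonoid`..: see `hcc` in H77/PX), so `E2 τ b ∈ (ex M (p i))^(e i)` (`ek_map`, `alg_mem_ex_iff`).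
`∏ ncard / ni (I i)^3 = ∏ w i (e i)` (`ni (ex M l ^ e)^3 = ni l ^ (6 e)`).
Conclusion: `∑ F2 ≤ ∑ ∏ f ≤ C' C1 y^(3d) (ni h)^(-3) exp (∑_{N i ≤ X} g i / N i + C' ∑_{i ∈ Z} 1 / N i)`; first sum `≤ (3/4) log (log X) + C2` (`mrt2`, `T = image`); second:
the `p i` with `m ∈ p i` are in `pf (span {m})`: at most `card` of them, each `1/N ≤ 1`. `exp ((3/4) log log X) = (log X)^(3/4)`. `(ni h)^(-3) ≤ ni h ^ (-5/2)` (`ni h ≥ 1`),
`1 ≤ (log log X + 3)^C`.
-/

set_option autoImplicit false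
set_option linter.unusedSectionVars false

open scoped NumberField
open H88.A4 H88.WS Pool.Agent.H67.WA H77.PX Pool.Agent.H12.WM H88.AQ

noncomputable section

namespace H12.AQ

variable {k M : Type} [Field k] [NumberField k] [Field M] [NumberField M] [Algebra k M]

private theorem a3_fl_le {K : Type} [Field K] [NumberField K] (m : ℕ) (l : Ideal (𝓞 K)) (j : ℕ) :
    (fl3 m l j : ℝ) ≤ ((j : ℝ) + 1) ^ 96 := by
  have h1 : (1 : ℝ) ≤ (j : ℝ) + 1 := by have : (0 : ℝ) ≤ j := Nat.cast_nonneg j; linarith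
  unfold fl3
  split_ifs
  · push_cast
    exact le_rfl
  · push_cast
    calc (j : ℝ) + 1 = ((j : ℝ) + 1) ^ 1 := (pow_one _).symm
      _ ≤ _ := pow_le_pow_right₀ h1 (by norm_num)

private theorem a3_fl_good {K : Type} [Field K] [NumberField K] {m : ℕ} {l : Ideal (𝓞 K)} (hm : (m : 𝓞 K) ∉ l)
    (j : ℕ) : (fl3 m l j : ℝ) ≤ (j : ℝ) + 1 := by
  unfold fl3
  rw [if_neg hm]
  push_cast
  exact le_rfl

private theorem a3_pf {K : Type} [Field K] [NumberField K] {I P : Ideal (𝓞 K)} (h : P ∈ pf I) :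
    P.IsPrime ∧ P ≠ ⊥ := by
  unfold pf at h
  rw [Multiset.mem_toFinset] at h
  have h1 := UniqueFactorizationMonoid.prime_of_normalized_factor P h
  exact ⟨Ideal.isPrime_of_prime h1, h1.ne_zero⟩

private theorem a3_pf_mem {K : Type} [Field K] [NumberField K] {x : 𝓞 K} (hx : x ≠ 0) {P : Ideal (𝓞 K)}
    (hP : P.IsPrime) (h : x ∈ P) : P ∈ pf (Ideal.span {x}) := by
  unfold pf
  rw [Multiset.mem_toFinset, Ideal.mem_normalizedFactors_iff (by simpa using hx)]
  exact ⟨hP, (Ideal.span_singleton_le_iff_mem P).2 h⟩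

private theorem a3_od {K : Type} [Field K] [NumberField K] {x : 𝓞 K} (hx : x ≠ 0) {l : Ideal (𝓞 K)} {n : ℕ}
    (h : n ≤ od l (Ideal.span {x})) : x ∈ l ^ n := by
  classical
  have h0 : (Ideal.span {x} : Ideal (𝓞 K)) ≠ ⊥ := by simpa using hx
  unfold od at h
  have h1 : Multiset.replicate n l ≤ UniqueFactorizationMonoid.normalizedFactors (Ideal.span {x}) := by
    rw [← Multiset.le_count_iff_replicate_le]
    convert h
  have h2 := Multiset.prod_dvd_prod_of_le h1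
  rw [Multiset.prod_replicate, Ideal.prod_normalizedFactors_eq_self h0, Ideal.dvd_span_singleton] at h2
  exact h2

private theorem a3_sz (τ : M ≃ₐ[k] M) (φ : M →+* ℂ) (x : 𝓞 M) :
    sz φ (tO τ x) = sz (φ.comp (τ : M →+* M)) x := rfl

private theorem a3_ni {τ : M ≃ₐ[k] M} (hτ : Invo k M τ) (l : Ideal (𝓞 k)) (e : ℕ) :
    ni (ex M l ^ e) = (ni l ^ e) ^ 2 := by
  unfold ni
  rw [map_pow, exN hτ]
  push_cast
  ring

private theorem a3_cop {l l' : Ideal (𝓞 k)} (hl : l.IsPrime ∧ l ≠ ⊥) (hl' : l'.IsPrime ∧ l' ≠ ⊥) (h : l ≠ l')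
    (e e' : ℕ) : IsCoprime (ex M l ^ e) (ex M l' ^ e') := by
  apply IsCoprime.pow
  have h1 : l.IsMaximal := hl.1.isMaximal hl.2
  have h2 : l'.IsMaximal := hl'.1.isMaximal hl'.2
  have h3 : IsCoprime l l' := Ideal.isCoprime_of_isMaximal (ne := h)
  exact h3.map (Ideal.mapHom (algebraMap (𝓞 k) (𝓞 M)))

private theorem a3_coph {l : Ideal (𝓞 k)} (hl : l.IsPrime ∧ l ≠ ⊥) {h : Ideal (𝓞 M)}
    (hh : ¬ ∃ w : Ideal (𝓞 M), Ov l w ∧ h ≤ w) (e : ℕ) : IsCoprime h (ex M l ^ e) := by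
  apply IsCoprime.pow_right
  rw [Ideal.isCoprime_iff_sup_eq]
  by_contra hne
  obtain ⟨w, hw, hle⟩ := Ideal.exists_le_maximal _ hne
  exact hh ⟨w, (ov_iff hl.1 hl.2).2 ⟨hw.isPrime, le_sup_right.trans hle⟩, le_sup_left.trans hle⟩

theorem avg3 (k M : Type) [Field k] [NumberField k] [Field M] [NumberField M] [Algebra k M] : Avg3Stmt k M := by
  classical
  intro τ ω0 hω m hm h6 A δ hδ
  obtain ⟨ω, hs⟩ := set3_of hω
  have hd1 : 1 ≤ Module.finrank ℚ M := Module.finrank_pos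
  set d : ℕ := Module.finrank ℚ M with hd
  have hd1' : (1 : ℝ) ≤ (d : ℝ) := by exact_mod_cast hd1
  set c0 : ℝ := min 1 (δ * d / 4) with hc0
  have hc00 : 0 < c0 := lt_min one_pos (by positivity)
  have hc01 : c0 ≤ 1 := min_le_left _ _
  set C0 : ℝ := (((4 * (A + 1) + 4) * d : ℕ) : ℝ) with hC0
  have hC01 : 1 ≤ C0 := by
    rw [hC0]
    have : 1 ≤ (4 * (A + 1) + 4) * d := Nat.mul_pos (by omega) hd1
    exact_mod_cast this
  obtain ⟨B1, hB1, hhyp⟩ := hyp k
  obtain ⟨B2, hB2, hden⟩ := den3 hs m h6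
  set B : ℝ := max B1 B2 with hB
  have hBB1 : 1 ≤ B := hB1.trans (le_max_left _ _)
  obtain ⟨C', hC', hpfx⟩ := pfxH B C0 c0 96 hBB1 hC01 hc00 hc01
  obtain ⟨C1, hC1, hcrt⟩ := crtG M
  obtain ⟨C2, hC2, hmrt⟩ := mrt2 hs
  set κ : ℝ := ((pf (Ideal.span {(m : 𝓞 k)})).card : ℝ) with hκ
  have hκ0 : 0 ≤ κ := Nat.cast_nonneg _
  have hm0 : (m : 𝓞 k) ≠ 0 := by exact_mod_cast hm
  refine ⟨C' * C1 * Real.exp (C2 + C' * κ), by positivity, ?_⟩
  intro X y hX hy1 hy2 h hh _ _ hni b0 hb0 S hS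
  have hX1 : (1 : ℝ) ≤ X := by linarith
  have hX0 : (0 : ℝ) < X := by linarith
  have hy : 1 ≤ y := (Real.one_le_rpow hX1 hδ.le).trans hy1
  have hy0 : 0 < y := by linarith
  -- the primes
  set T : Finset (Ideal (𝓞 k)) := (S.biUnion fun b => pf (Ideal.span {ek τ b})).filter
    fun l => ¬ ∃ w : Ideal (𝓞 M), Ov l w ∧ h ≤ w with hT
  obtain ⟨n, p, hpi, hpT, hTp, hpm⟩ := enum T
  have hpp : ∀ i, (p i).IsPrime ∧ p i ≠ ⊥ := by
    intro i
    have h1 := hpT i
    rw [hT, Finset.mem_filter, Finset.mem_biUnion] at h1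
    obtain ⟨⟨b, -, hb⟩, -⟩ := h1
    exact a3_pf hb
  have hph : ∀ i, ¬ ∃ w : Ideal (𝓞 M), Ov (p i) w ∧ h ≤ w := by
    intro i
    have h1 := hpT i
    rw [hT, Finset.mem_filter] at h1
    exact h1.2
  obtain ⟨hD, hD1⟩ := hden B (le_max_right _ _) n p hpp
  have hH := hhyp B (le_max_left _ _) n p hpi hpp hpm
  set T0 : ℝ := C1 * y ^ (3 * d) * (ni h)⁻¹ ^ 3 with hT0
  have hnh : 1 ≤ ni h := one_le_ni hh
  have hT00 : 0 ≤ T0 := by positivity
  have hgf0 : ∀ l : Ideal (𝓞 k), 0 ≤ gf τ l := by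
    intro l
    unfold gf
    split_ifs <;> norm_num
  have hgf1 : ∀ l : Ideal (𝓞 k), gf τ l ≤ 1 := by
    intro l
    unfold gf
    split_ifs <;> norm_num
  have hmain := hpfx (Fin n) (fun i => ni (p i)) hH _ _ hD (fun i => gf τ (p i)) (fun i => hgf0 _) (fun i => hgf1 _)
    (fun i hi => hD1 i (by
      intro hcon
      exact hi (Finset.mem_filter.2 ⟨Finset.mem_univ _, hcon⟩)))
    Finset.univ X T0 (by linarith) hT00
    (fun i j => (fl3 m (p i) j : ℝ)) (fun i j => Nat.cast_nonneg _) (fun i j => a3_fl_le _ _ _)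
    (fun i j hi _ => a3_fl_good (by
      intro hcon
      exact hi (Finset.mem_filter.2 ⟨Finset.mem_univ _, hcon⟩)) _)
    (fun i j _ hi => absurd (Finset.mem_univ i) hi)
    (T3 M) S (fun b i => ev m τ b (p i)) (by
      intro b hb
      obtain ⟨hb1, hb2, -, hb3⟩ := hS b hb
      have h1 := nnle3 hs.inv m b hb3 n p hpi hpp
      have hXA : X ^ A ≤ X ^ (A + 1) := pow_le_pow_right₀ hX1 (by omega)
      have key : ∀ x x0 : 𝓞 M, Bd y (x - x0) → Bd (X ^ A) x0 → Bd (X ^ (A + 1)) (tO τ x) := by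
        intro x x0 g1 g2 φ
        have g3 : sz φ (tO τ x) ≤ X ^ (A + 1) := by
          rw [a3_sz]
          have g4 := sz_add (φ.comp (τ : M →+* M)) (x - x0) x0
          rw [sub_add_cancel] at g4
          have g5 : sz (φ.comp (τ : M →+* M)) (x - x0) ≤ y := g1 _
          have g6 : sz (φ.comp (τ : M →+* M)) x0 ≤ X ^ A := g2 _
          have g7 : 2 * X ^ A ≤ X ^ (A + 1) := by
            rw [pow_succ, mul_comm]
            exact mul_le_mul_of_nonneg_left (by linarith) (by positivity)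
          linarith
        exact g3
      have h2 := nzE X y (A + 1) hX (hy2.trans hXA) (cj τ b) b b0
        ⟨key _ _ hb1.1 hb0.1, key _ _ hb1.2.1 hb0.2.1, key _ _ hb1.2.2 hb0.2.2⟩
        ⟨fun φ => (hb0.1 φ).trans hXA, fun φ => (hb0.2.1 φ).trans hXA, fun φ => (hb0.2.2 φ).trans hXA⟩ hb1
      rw [hC0, Real.rpow_natCast]
      exact h1.trans h2) (by
      intro e he
      have he' : H51.AV.nn (fun i => ni (p i)) e ≤ y ^ ((d : ℝ) / 4) := by
        calc H51.AV.nn (fun i => ni (p i)) e ≤ X ^ c0 := he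
          _ ≤ X ^ (δ * d / 4) := Real.rpow_le_rpow_of_exponent_le hX1 (min_le_right _ _)
          _ = (X ^ δ) ^ ((d : ℝ) / 4) := by
              rw [← Real.rpow_mul hX0.le]
              congr 1
              ring
          _ ≤ y ^ ((d : ℝ) / 4) := Real.rpow_le_rpow (Real.rpow_nonneg hX0.le _) hy1 (by positivity)
      have hnn0 : 0 ≤ H51.AV.nn (fun i => ni (p i)) e := Finset.prod_nonneg fun i _ => pow_nonneg (ni_nonneg _) _
      have hy3 : ni h * ∏ i, ni (ex M (p i) ^ e i) ≤ y ^ d := by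
        have h1 : ∏ i, ni (ex M (p i) ^ e i) = (H51.AV.nn (fun i => ni (p i)) e) ^ 2 := by
          unfold H51.AV.nn
          rw [← Finset.prod_pow]
          exact Finset.prod_congr rfl fun i _ => a3_ni hs.inv _ _
        have h2 : (H51.AV.nn (fun i => ni (p i)) e) ^ 2 ≤ y ^ ((d : ℝ) / 2) := by
          calc (H51.AV.nn (fun i => ni (p i)) e) ^ 2 ≤ (y ^ ((d : ℝ) / 4)) ^ 2 := pow_le_pow_left₀ hnn0 he' 2
            _ = y ^ ((d : ℝ) / 2) := by
                rw [← Real.rpow_natCast, ← Real.rpow_mul hy0.le]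
                congr 1
                push_cast
                ring
        rw [h1]
        calc ni h * (H51.AV.nn (fun i => ni (p i)) e) ^ 2 ≤ y ^ ((d : ℝ) / 40) * y ^ ((d : ℝ) / 2) :=
              mul_le_mul hni h2 (by positivity) (Real.rpow_nonneg hy0.le _)
          _ = y ^ ((d : ℝ) / 40 + (d : ℝ) / 2) := by rw [← Real.rpow_add hy0]
          _ ≤ y ^ (d : ℝ) := Real.rpow_le_rpow_of_exponent_le hy (by linarith)
          _ = y ^ d := Real.rpow_natCast _ _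
      have h2 := hcrt n (fun i => ex M (p i) ^ e i) (fun i => Z2n m τ (p i) (e i)) h y b0
        (S.filter fun b => ∀ i, e i ≤ ev m τ b (p i)) (fun i => exj_ne (hpp i).2 _)
        (fun i j hij => a3_cop (hpp i) (hpp j) (fun h => hij (hpi h)) _ _)
        (fun i => a3_coph (hpp i) (hph i) _) hh hy hy3 (by
          intro b hb
          obtain ⟨hbS, hbe⟩ := Finset.mem_filter.1 hb
          obtain ⟨hb1, hb2, -, hb3⟩ := hS b hbS
          refine ⟨hb1, hb2, fun i => ?_⟩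
          have h3 := hbe i
          unfold ev at h3
          rcases Nat.eq_zero_or_pos (e i) with h4 | h4
          · refine ⟨b, ⟨?_, fun h5 => ?_⟩, rfl⟩
            · rw [h4, pow_zero, Ideal.one_eq_top]
              exact Submodule.mem_top
            · omega
          · have h5 : Nin m (dt b) (p i) := by
              by_contra hcon
              rw [if_neg hcon] at h3
              omega
            rw [if_pos h5] at h3
            refine ⟨b, ⟨?_, fun _ => h5⟩, rfl⟩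
            rw [← ek_map hs.inv, alg_mem_ex_iff]
            exact a3_od (ek_ne hs.inv hb3) h3)
      rw [hT0]
      have h3 : ∏ i, ((Z2n m τ (p i) (e i)).ncard : ℝ) / ni (ex M (p i) ^ e i) ^ 3 =
          ∏ i, ((Z2n m τ (p i) (e i)).ncard : ℝ) / ni (p i) ^ (6 * e i) := by
        refine Finset.prod_congr rfl fun i _ => ?_
        rw [a3_ni hs.inv]
        congr 1
        ring
      rw [h3] at h2
      convert h2)
  -- conclusion
  have hlog3 : 1 < Real.log X := by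
    rw [Real.lt_log_iff_exp_lt hX0]
    have := Real.exp_one_lt_d9
    linarith
  have hlog0 : 0 < Real.log X := by linarith
  have hL : 0 ≤ Real.log (Real.log X) := Real.log_nonneg hlog3.le
  have hs1 : ∑ i ∈ (Finset.univ : Finset (Fin n)) with ni (p i) ≤ X, gf τ (p i) / ni (p i) ≤
      3 / 4 * Real.log (Real.log X) + C2 := by
    have h1 := hmrt X hX ((Finset.univ.filter fun i => ni (p i) ≤ X).image p) (by
      intro l hl
      obtain ⟨i, hi, rfl⟩ := Finset.mem_image.1 hl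
      exact ⟨(hpp i).1, (hpp i).2, (Finset.mem_filter.1 hi).2⟩)
    rwa [Finset.sum_image fun i _ j _ hij => hpi hij] at h1
  have hs2 : ∑ i ∈ Finset.univ.filter (fun i => (m : 𝓞 k) ∈ p i), 1 / ni (p i) ≤ κ := by
    calc ∑ i ∈ Finset.univ.filter (fun i => (m : 𝓞 k) ∈ p i), 1 / ni (p i) ≤
          ∑ i ∈ Finset.univ.filter (fun i => (m : 𝓞 k) ∈ p i), (1 : ℝ) := by
            refine Finset.sum_le_sum fun i _ => ?_
            have := two_le_ni (hpp i).1 (hpp i).2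
            rw [div_le_one (by linarith)]
            linarith
      _ = ((Finset.univ.filter (fun i => (m : 𝓞 k) ∈ p i)).card : ℝ) := by simp
      _ ≤ κ := by
          rw [hκ]
          have h1 : (Finset.univ.filter (fun i => (m : 𝓞 k) ∈ p i)).card ≤ (pf (Ideal.span {(m : 𝓞 k)})).card := by
            refine Finset.card_le_card_of_injOn p ?_ (hpi.injOn)
            intro i hi
            exact a3_pf_mem hm0 (hpp i).1 (Finset.mem_filter.1 hi).2
          exact_mod_cast h1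
  have hexp : Real.exp (∑ i ∈ (Finset.univ : Finset (Fin n)) with ni (p i) ≤ X, gf τ (p i) / ni (p i) +
      C' * ∑ i ∈ Finset.univ.filter (fun i => (m : 𝓞 k) ∈ p i), 1 / ni (p i)) ≤
      Real.exp (C2 + C' * κ) * Real.log X ^ (3 / 4 : ℝ) := by
    have h1 : Real.log X ^ (3 / 4 : ℝ) = Real.exp (3 / 4 * Real.log (Real.log X)) := by
      rw [Real.rpow_def_of_pos hlog0, mul_comm]
    rw [h1, ← Real.exp_add]
    refine Real.exp_le_exp.2 ?_
    have h2 := mul_le_mul_of_nonneg_left hs2 (by linarith : (0 : ℝ) ≤ C')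
    linarith
  have hsum : ∑ b ∈ S, (F2 τ m h b : ℝ) ≤ ∑ b ∈ S, ∏ i, (fl3 m (p i) (ev m τ b (p i)) : ℝ) := by
    refine Finset.sum_le_sum fun b hb => ?_
    obtain ⟨hb1, hb2, -, hb3⟩ := hS b hb
    refine f3le hs.inv m h b hb3 n p hpi ?_
    intro l hl hhl
    exact hTp l (by
      rw [hT, Finset.mem_filter, Finset.mem_biUnion]
      exact ⟨⟨b, hb, hl⟩, hhl⟩)
  have hC : 0 < C' * C1 * Real.exp (C2 + C' * κ) := by positivity
  have hnh3 : (ni h)⁻¹ ^ 3 ≤ ni h ^ (-(5 / 2) : ℝ) := by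
    have h1 : (ni h)⁻¹ ^ 3 = ni h ^ (-3 : ℝ) := by
      rw [Real.rpow_neg (by linarith), inv_pow]
      congr 1
      exact_mod_cast (Real.rpow_natCast (ni h) 3).symm
    rw [h1]
    exact Real.rpow_le_rpow_of_exponent_le hnh (by norm_num)
  have hL3 : 1 ≤ (Real.log (Real.log X) + 3) ^ (C' * C1 * Real.exp (C2 + C' * κ)) :=
    Real.one_le_rpow (by linarith) hC.le
  have hlp : 0 ≤ Real.log X ^ (3 / 4 : ℝ) := Real.rpow_nonneg hlog0.le _
  calc ∑ b ∈ S, (F2 τ m h b : ℝ) ≤ C' * T0 * (Real.exp (C2 + C' * κ) * Real.log X ^ (3 / 4 : ℝ)) :=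
        hsum.trans (hmain.trans (mul_le_mul_of_nonneg_left hexp (by positivity)))
    _ = (C' * C1 * Real.exp (C2 + C' * κ)) * y ^ (3 * d) * (ni h)⁻¹ ^ 3 * 1 * Real.log X ^ (3 / 4 : ℝ) := by
        rw [hT0]
        ring
    _ ≤ (C' * C1 * Real.exp (C2 + C' * κ)) * y ^ (3 * d) * ni h ^ (-(5 / 2) : ℝ) *
          (Real.log (Real.log X) + 3) ^ (C' * C1 * Real.exp (C2 + C' * κ)) * Real.log X ^ (3 / 4 : ℝ) := by
        refine mul_le_mul_of_nonneg_right ?_ hlp
        refine mul_le_mul ?_ hL3 zero_le_one (by positivity)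
        exact mul_le_mul_of_nonneg_left hnh3 (by positivity)

end H12.AQ
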