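import Pool.Agent.H77.PX.EDef
import Pool.Agent.H12.WM.Tau
import Pool.Agent.H88.AQ.Iface

/-!
# [H12 AQ] (W2#), densities and averages for conjugate blocks (MP_b39724): definitions (complete)

`M / k` quadratic with involution `τ`, `ω ∈ 𝓞 M` with `ω^2 + ω + 1 = 0`, `τ ω = ω^2` (`Set3`). Blocks over `𝓞 M` with `c = τ(b)`.
The objects are those of H88/AQ/Iface: `cj τ b = τ(b)`, `E2 τ b = dt b τ(dt b) - mx(b, τ b)^2` (in `𝓞 k`: `ek τ b`), `tR τ`, `cI τ P = τ(P)`,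
`Ov l w`: the prime `w` is over `l`, `lf2`, `F2`, `Avg3Stmt`.
* `ex M l = l 𝓞 M`.
* `Nin m D l`: no prime of `M` over `l` is inert for `D` (`Inr` of H88/WS/Defs).
* `Z2 τ l j`: the classes modulo `l^j 𝓞 M` of the `b` with `E2 τ b ∈ l^j`, `Z2n`: those for which moreover no prime over `l` is inert for `dt b`.
* `TA τ l P`: `l` splits, `ex M l` prime: `l` is inert in `M`, `TC τ l P`: `l` is ramified.
* `gf τ l = 1/2` if `l` splits, `1` otherwise.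
-/

set_option autoImplicit false
set_option linter.unusedSectionVars false

open scoped NumberField
open H88.A4 H88.WS Pool.Agent.H67.WA H77.PX Pool.Agent.H12.WM H88.AQ

noncomputable section

namespace H12.AQ

variable {k M : Type} [Field k] [NumberField k] [Field M] [NumberField M] [Algebra k M]

/-- the standing hypotheses on `τ`, `ω` -/
structure Set3 (τ : M ≃ₐ[k] M) (ω : 𝓞 M) : Prop where
  inv : Invo k M τ
  om : ω ^ 2 + ω + 1 = 0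
  tau : tO τ ω = ω ^ 2

/-- the ideal `l 𝓞 M` -/
def ex (M : Type) [Field M] [NumberField M] [Algebra k M] (l : Ideal (𝓞 k)) : Ideal (𝓞 M) :=
  l.map (algebraMap (𝓞 k) (𝓞 M))

/-- no prime over `l` is inert for `D` -/
def Nin (m : ℕ) (D : 𝓞 M) (l : Ideal (𝓞 k)) : Prop :=
  ¬ ∃ w : Ideal (𝓞 M), Ov l w ∧ Inr m D w

/-- the classes modulo `l^j 𝓞 M` of the solutions of `E2 τ b ∈ l^j` -/
def Z2 (τ : M ≃ₐ[k] M) (l : Ideal (𝓞 k)) (j : ℕ) : Set (Q3 (ex M l ^ j)) :=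
  q3 (ex M l ^ j) '' {b | E2 τ b ∈ ex M l ^ j}

/-- the same with the condition `Nin` if `j ≥ 1` -/
def Z2n (m : ℕ) (τ : M ≃ₐ[k] M) (l : Ideal (𝓞 k)) (j : ℕ) : Set (Q3 (ex M l ^ j)) :=
  q3 (ex M l ^ j) '' {b | E2 τ b ∈ ex M l ^ j ∧ (1 ≤ j → Nin m (dt b) l)}

/-- `l` splits in `M` -/
def TA (τ : M ≃ₐ[k] M) (l : Ideal (𝓞 k)) (P : Ideal (𝓞 M)) : Prop :=
  P.IsPrime ∧ P ≠ ⊥ ∧ ex M l = P * cI τ P ∧ P ≠ cI τ P ∧ Ideal.absNorm P = Ideal.absNorm l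

/-- `l` is ramified in `M` -/
def TC (τ : M ≃ₐ[k] M) (l : Ideal (𝓞 k)) (P : Ideal (𝓞 M)) : Prop :=
  P.IsPrime ∧ P ≠ ⊥ ∧ ex M l = P ^ 2 ∧ cI τ P = P ∧ Ideal.absNorm P = Ideal.absNorm l

open Classical in
/-- the expected number of classes at `l`, minus one -/
def gf (τ : M ≃ₐ[k] M) (l : Ideal (𝓞 k)) : ℝ := if ∃ P, TA τ l P then 1 / 2 else 1

/-! ### elementary facts -/

theorem mem_cI {τ : M ≃ₐ[k] M} {P : Ideal (𝓞 M)} {x : 𝓞 M} : x ∈ cI τ P ↔ tO τ x ∈ P := Iff.rfl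

theorem Set3.cube {τ : M ≃ₐ[k] M} {ω : 𝓞 M} (h : Set3 τ ω) : ω ^ 3 = 1 := by
  linear_combination (ω - 1) * h.om

theorem tO_algebraMap (τ : M ≃ₐ[k] M) (y : 𝓞 k) :
    tO τ (algebraMap (𝓞 k) (𝓞 M) y) = algebraMap (𝓞 k) (𝓞 M) y :=
  NumberField.RingOfIntegers.coe_injective (τ.commutes (y : k))

theorem tO_nat (τ : M ≃ₐ[k] M) (n : ℕ) : tO τ (n : 𝓞 M) = n := map_natCast (tR τ) n

theorem cI_cI {τ : M ≃ₐ[k] M} (hτ : Invo k M τ) (P : Ideal (𝓞 M)) : cI τ (cI τ P) = P := by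
  ext x
  rw [mem_cI, mem_cI, tO_tO hτ]

theorem cI_prime {τ : M ≃ₐ[k] M} {P : Ideal (𝓞 M)} (hP : P.IsPrime) : (cI τ P).IsPrime :=
  hP.comap (tR τ)

theorem cI_mono {τ : M ≃ₐ[k] M} {P Q : Ideal (𝓞 M)} (h : P ≤ Q) : cI τ P ≤ cI τ Q :=
  Ideal.comap_mono h

theorem E2_eq (τ : M ≃ₐ[k] M) (b : T3 M) : E2 τ b =
    (b.1 * b.2.2 - b.2.1 ^ 2) * (tO τ b.1 * tO τ b.2.2 - tO τ b.2.1 ^ 2) -
      (b.1 * tO τ b.2.2 + b.2.2 * tO τ b.1 - 2 * b.2.1 * tO τ b.2.1) ^ 2 := rfl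

theorem dt_cj (τ : M ≃ₐ[k] M) (b : T3 M) : dt (cj τ b) = tO τ (dt b) := by
  unfold dt cj
  simp only [tO_sub, tO_mul, tO_pow]

theorem E2_fix {τ : M ≃ₐ[k] M} (hτ : Invo k M τ) (b : T3 M) : tO τ (E2 τ b) = E2 τ b := by
  have h2 : tO τ (2 : 𝓞 M) = 2 := by exact_mod_cast tO_nat τ 2
  rw [E2_eq]
  simp only [tO_sub, tO_mul, tO_pow, tO_add, tO_tO hτ, h2]
  ring

theorem ek_map {τ : M ≃ₐ[k] M} (hτ : Invo k M τ) (b : T3 M) :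
    algebraMap (𝓞 k) (𝓞 M) (ek τ b) = E2 τ b := by
  have h : ∃ y : 𝓞 k, algebraMap (𝓞 k) (𝓞 M) y = E2 τ b := fixed_int hτ (E2_fix hτ b)
  unfold ek
  rw [dif_pos h]
  exact h.choose_spec

theorem ek_ne {τ : M ≃ₐ[k] M} (hτ : Invo k M τ) {b : T3 M} (hb : E2 τ b ≠ 0) : ek τ b ≠ 0 := by
  intro h
  apply hb
  rw [← ek_map hτ b, h, map_zero]

theorem ex_pow (l : Ideal (𝓞 k)) (j : ℕ) : ex M (l ^ j) = ex M l ^ j := Ideal.map_pow _ _ _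

theorem alg_mem_ex {l : Ideal (𝓞 k)} {y : 𝓞 k} (h : y ∈ l) : algebraMap (𝓞 k) (𝓞 M) y ∈ ex M l :=
  Ideal.mem_map_of_mem _ h

theorem ex_tau0 (τ : M ≃ₐ[k] M) {l : Ideal (𝓞 k)} {x : 𝓞 M} (hx : x ∈ ex M l) : tO τ x ∈ ex M l := by
  have h : ex M l ≤ (ex M l).comap (tR τ) := by
    unfold ex
    rw [Ideal.map_le_iff_le_comap]
    intro y hy
    rw [Ideal.mem_comap, Ideal.mem_comap]
    have h1 : tR τ (algebraMap (𝓞 k) (𝓞 M) y) = algebraMap (𝓞 k) (𝓞 M) y := tO_algebraMap τ y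
    rw [h1]
    exact Ideal.mem_map_of_mem _ hy
  exact h hx

theorem ex_tau (τ : M ≃ₐ[k] M) {l : Ideal (𝓞 k)} {j : ℕ} {x : 𝓞 M} (hx : x ∈ ex M l ^ j) :
    tO τ x ∈ ex M l ^ j := by
  rw [← ex_pow] at hx ⊢
  exact ex_tau0 τ hx

theorem cI_ex {τ : M ≃ₐ[k] M} (hτ : Invo k M τ) (l : Ideal (𝓞 k)) : cI τ (ex M l) = ex M l := by
  apply le_antisymm
  · intro x hx
    have h := ex_tau0 τ (mem_cI.1 hx)
    rwa [tO_tO hτ] at h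
  · intro x hx
    exact mem_cI.2 (ex_tau0 τ hx)

theorem ex_ne {l : Ideal (𝓞 k)} (h : l ≠ ⊥) : ex M l ≠ ⊥ := by
  unfold ex
  rw [Ne, Ideal.map_eq_bot_iff_of_injective (FaithfulSMul.algebraMap_injective (𝓞 k) (𝓞 M))]
  exact h

theorem ex_comap (l : Ideal (𝓞 k)) : (ex M l).comap (algebraMap (𝓞 k) (𝓞 M)) = l := by
  have : Module.Flat (𝓞 k) (𝓞 M) := inferInstance
  have : Module.FaithfullyFlat (𝓞 k) (𝓞 M) := inferInstance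
  exact Ideal.comap_map_eq_self_of_faithfullyFlat l

theorem alg_mem_ex_iff {l : Ideal (𝓞 k)} {j : ℕ} {y : 𝓞 k} :
    algebraMap (𝓞 k) (𝓞 M) y ∈ ex M l ^ j ↔ y ∈ l ^ j := by
  rw [← ex_pow, ← Ideal.mem_comap, ex_comap]

theorem exN {τ : M ≃ₐ[k] M} (hτ : Invo k M τ) (l : Ideal (𝓞 k)) :
    Ideal.absNorm (ex M l) = Ideal.absNorm l ^ 2 := by
  have h : Module.finrank (𝓞 k) (𝓞 M) = 2 := by
    rw [← hτ.deg]
    exact (IsFractionRing.finrank_eq (𝓞 k) k (𝓞 M) M).symm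
  unfold ex
  rw [Ideal.absNorm_algebraMap, h]

theorem ov_iff {l : Ideal (𝓞 k)} (hl : l.IsPrime) (hl0 : l ≠ ⊥) {w : Ideal (𝓞 M)} :
    Ov l w ↔ w.IsPrime ∧ ex M l ≤ w := by
  unfold Ov ex
  constructor
  · rintro ⟨h1, h2⟩
    exact ⟨h1, by rw [Ideal.map_le_iff_le_comap, h2]⟩
  · rintro ⟨h1, h2⟩
    refine ⟨h1, ?_⟩
    rw [Ideal.map_le_iff_le_comap] at h2
    have h3 : (w.comap (algebraMap (𝓞 k) (𝓞 M))).IsPrime := h1.comap _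
    exact ((hl.isMaximal hl0).eq_of_le h3.ne_top h2).symm

theorem set3_of {τ : M ≃ₐ[k] M} {ω : M} (h : Omk τ ω) : ∃ o : 𝓞 M, Set3 τ o := by
  obtain ⟨h1, h2, h3⟩ := h
  have h4 : ω ^ 2 + ω + 1 = 0 := by
    have h5 := h2.pow_eq_one
    have h6 : ω ≠ 1 := h2.ne_one (by norm_num)
    have h7 : (ω - 1) * (ω ^ 2 + ω + 1) = 0 := by linear_combination h5
    exact (mul_eq_zero.1 h7).resolve_left (sub_ne_zero.2 h6)
  refine ⟨⟨ω, h2.isIntegral (by norm_num)⟩, h1, ?_, ?_⟩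
  · apply NumberField.RingOfIntegers.coe_injective
    exact h4
  · apply NumberField.RingOfIntegers.coe_injective
    exact h3

theorem E2_congr (τ : M ≃ₐ[k] M) {l : Ideal (𝓞 k)} {j : ℕ} {b b' : T3 M}
    (h : q3 (ex M l ^ j) b = q3 (ex M l ^ j) b') : E2 τ b - E2 τ b' ∈ ex M l ^ j := by
  obtain ⟨h1, h2, h3⟩ := q3_eq.1 h
  have g1 : tO τ b.1 - tO τ b'.1 ∈ ex M l ^ j := by rw [← tO_sub]; exact ex_tau τ h1
  have g2 : tO τ b.2.1 - tO τ b'.2.1 ∈ ex M l ^ j := by rw [← tO_sub]; exact ex_tau τ h2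
  have g3 : tO τ b.2.2 - tO τ b'.2.2 ∈ ex M l ^ j := by rw [← tO_sub]; exact ex_tau τ h3
  rw [← Ideal.Quotient.eq] at h1 h2 h3 g1 g2 g3 ⊢
  rw [E2_eq, E2_eq]
  simp only [map_sub, map_mul, map_pow, map_add, h1, h2, h3, g1, g2, g3]

end H12.AQ
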