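import Pool.Agent.H12.AQ.Val

/-!
# [H12 AQ CNT] The number of solutions of `u v = t` modulo `l` and `l^2`; the kernel of `b2 ↦ b1 τ(b2) - τ(b1) b2` (70-110 lines)

`N = absNorm l`, `cardk` (`pow_one` for `j = 1`: state `𝓞 K ⧸ l` and use `Ideal.absNorm_apply`, `Submodule.cardQuot_apply`).
`cnt1`: `𝓞 K ⧸ l` is a field. Solutions with `u ≠ 0`: `v = t / u` is determined: at most `N`. Solutions with `u = 0`: only if `t = 0`, at most `N`.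
`cnt2`: modulo `l^2`: three kinds of solutions `(u, v)` (classes of `x, y`): `x ∉ l`: two solutions `(u, v), (u, v')`: `x (y - y') ∈ l^2`, `y - y' ∈ l^2`
(`Ideal.IsPrime.mul_mem_pow`): `v` is determined by `u`: at most `N^2`. `x ∈ l`, `x ∉ l^2`: at most `N` classes `u` (`coset_card` or `cls`), and two solutions
with the same `u` have `x (y - y') ∈ l^2`, so `y - y' ∈ l^(2+1-2)` (`vmul` with `r = 2`): at most `N` classes `v` (a coset of `l` modulo `l^2`: `coset_card`): `N * N`.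
`x ∈ l^2`: `u = 0`, `v` any: `N^2`. Total `≤ 3 N^2`.
`ker1`: `L = ex M l` prime (`≠ ⊥`: `ex_ne`), `b1 ∉ L`, `G = 𝓞 M ⧸ L` has `N^2` elements (`cardL`, `j = 1`), `K0` = the set of the statement. The map `K0 × K0 → G`,
`(x, x') ↦ x + ω x'` is injective: the set of the `x` with `b1 τx - τb1 x ∈ L` is an additive group, so let `x, x'` be in it with `x + ω x' ∈ L`. Apply `τ` (`ex_tau0`,
`hs.tau`) and multiply by `b1`: `b1 τx + ω^2 b1 τx' ∈ L`; `b1 τx ≡ τb1 x`, `b1 τx' ≡ τb1 x'`: `τb1 (x + ω^2 x') ∈ L`, and `τb1 ∉ L` (`ex_tau0`, `tO_tO`), so `x + ω^2 x' ∈ L`;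
difference: `(ω - ω^2) x' ∈ L`, and `(ω - ω^2)^2 = -3 ∉ L` (`alg_mem_ex_iff` with `j = 1`, `pow_one`), so `x' ∈ L`, `x ∈ L`. So `(#K0)^2 ≤ N^2` and `#K0 ≤ N`
(`Nat.pow_le_pow_iff_left` or `abs_le_of_sq_le`, `nlinarith`).
-/

set_option autoImplicit false
set_option linter.unusedSectionVars false

open scoped NumberField
open H88.A4 H88.WS Pool.Agent.H67.WA H77.PX Pool.Agent.H12.WM H88.AQ

noncomputable section

namespace H12.AQ

private theorem cn_fst {R : Type} [Finite R] (A : Set (R × R))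
    (h : ∀ p ∈ A, ∀ q ∈ A, p.1 = q.1 → p.2 = q.2) : A.ncard ≤ Nat.card R := by
  rw [← Set.ncard_univ]
  exact Set.ncard_le_ncard_of_injOn Prod.fst (fun _ _ => Set.mem_univ _)
    (fun p hp q hq hpq => Prod.ext hpq (h p hp q hq hpq)) Set.finite_univ

private theorem cn_snd {R : Type} [Finite R] (A : Set (R × R))
    (h : ∀ p ∈ A, ∀ q ∈ A, p.2 = q.2 → p.1 = q.1) : A.ncard ≤ Nat.card R := by
  rw [← Set.ncard_univ]
  exact Set.ncard_le_ncard_of_injOn Prod.snd (fun _ _ => Set.mem_univ _)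
    (fun p hp q hq hpq => Prod.ext (h p hp q hq hpq) hpq) Set.finite_univ

private theorem cn_dbl {R : Type} [Finite R] [AddGroup R] (A : Set (R × R)) (I : Set R)
    (h1 : ∀ p ∈ A, p.1 ∈ I) (h2 : ∀ p ∈ A, ∀ q ∈ A, p.1 = q.1 → p.2 - q.2 ∈ I) :
    A.ncard ≤ I.ncard * I.ncard := by
  classical
  let f : R → R := fun u => if h : ∃ q ∈ A, q.1 = u then h.choose.2 else 0
  rw [← Set.ncard_prod]
  refine Set.ncard_le_ncard_of_injOn (fun p => (p.1, p.2 - f p.1)) ?_ ?_ (Set.toFinite _)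
  · intro p hp
    refine ⟨h1 p hp, ?_⟩
    have h : ∃ q ∈ A, q.1 = p.1 := ⟨p, hp, rfl⟩
    have hf : f p.1 = h.choose.2 := dif_pos h
    change p.2 - f p.1 ∈ I
    rw [hf]
    exact h2 p hp _ h.choose_spec.1 h.choose_spec.2.symm
  · rintro p _ q _ hpq
    obtain ⟨e1, e2⟩ := Prod.mk.inj hpq
    rw [e1] at e2
    exact Prod.ext e1 (sub_left_injective e2)

variable {k M : Type} [Field k] [NumberField k] [Field M] [NumberField M] [Algebra k M]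

private theorem cn_fin {K : Type} [Field K] [NumberField K] {J : Ideal (𝓞 K)} (hJ : J ≠ ⊥) :
    Finite (𝓞 K ⧸ J) := Ideal.finiteQuotientOfFreeOfNeBot J hJ

theorem cnt1 {K : Type} [Field K] [NumberField K] {l : Ideal (𝓞 K)} (hl : l.IsPrime) (hl0 : l ≠ ⊥)
    (t : 𝓞 K ⧸ l) : {p : (𝓞 K ⧸ l) × (𝓞 K ⧸ l) | p.1 * p.2 = t}.ncard ≤ 2 * Ideal.absNorm l ∧
      (t ≠ 0 → {p : (𝓞 K ⧸ l) × (𝓞 K ⧸ l) | p.1 * p.2 = t}.ncard ≤ Ideal.absNorm l) := by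
  have hfin : Finite (𝓞 K ⧸ l) := cn_fin hl0
  have hdom : IsDomain (𝓞 K ⧸ l) := Ideal.Quotient.isDomain l
  have hN : Ideal.absNorm l = Nat.card (𝓞 K ⧸ l) := by
    rw [Ideal.absNorm_apply, Submodule.cardQuot_apply]
  rw [hN]
  constructor
  · have h1 : {p : (𝓞 K ⧸ l) × (𝓞 K ⧸ l) | p.1 * p.2 = t} ⊆
        {p : (𝓞 K ⧸ l) × (𝓞 K ⧸ l) | p.1 * p.2 = t ∧ p.1 ≠ 0} ∪
        {p : (𝓞 K ⧸ l) × (𝓞 K ⧸ l) | p.1 * p.2 = t ∧ p.1 = 0} := by
      intro p hp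
      by_cases h : p.1 = 0
      · exact Or.inr ⟨hp, h⟩
      · exact Or.inl ⟨hp, h⟩
    have h2 := (Set.ncard_le_ncard h1 (Set.toFinite _)).trans (Set.ncard_union_le _ _)
    have h3 := cn_fst {p : (𝓞 K ⧸ l) × (𝓞 K ⧸ l) | p.1 * p.2 = t ∧ p.1 ≠ 0} (by
      rintro p ⟨hp, hp0⟩ q ⟨hq, -⟩ hpq
      rw [← hpq] at hq
      exact mul_left_cancel₀ hp0 (hp.trans hq.symm))
    have h4 := cn_snd {p : (𝓞 K ⧸ l) × (𝓞 K ⧸ l) | p.1 * p.2 = t ∧ p.1 = 0} (by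
      rintro p ⟨-, hp0⟩ q ⟨-, hq0⟩ -
      rw [hp0, hq0])
    omega
  · intro ht
    refine cn_fst _ ?_
    intro p hp q hq hpq
    have hp' : p.1 * p.2 = t := hp
    have hq' : q.1 * q.2 = t := hq
    have hp0 : p.1 ≠ 0 := by
      intro h
      rw [h, zero_mul] at hp'
      exact ht hp'.symm
    rw [← hpq] at hq'
    exact mul_left_cancel₀ hp0 (hp'.trans hq'.symm)

theorem cnt2 {K : Type} [Field K] [NumberField K] {l : Ideal (𝓞 K)} (hl : l.IsPrime) (hl0 : l ≠ ⊥)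
    (t : 𝓞 K ⧸ (l ^ 2)) : {p : (𝓞 K ⧸ (l ^ 2)) × (𝓞 K ⧸ (l ^ 2)) | p.1 * p.2 = t}.ncard ≤ 3 * Ideal.absNorm l ^ 2 := by
  have hl2 : l ^ 2 ≠ ⊥ := pow_ne_zero 2 hl0
  have hfin : Finite (𝓞 K ⧸ (l ^ 2)) := cn_fin hl2
  have hN := cardk l 2
  obtain ⟨I, hI⟩ : ∃ I : Set (𝓞 K ⧸ (l ^ 2)), I = Ideal.Quotient.mk (l ^ 2) '' {x | x ∈ l} := ⟨_, rfl⟩
  have hIc : I.ncard = Ideal.absNorm l := by
    have h1 := cls (I := l) (J := l ^ 2) (Ideal.pow_le_self two_ne_zero)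
    rw [← hI, map_pow] at h1
    refine Nat.eq_of_mul_eq_mul_right (by have := two_le_N hl hl0; omega : 0 < Ideal.absNorm l) (h1.trans ?_)
    exact pow_two _
  have hmk : ∀ x : 𝓞 K, Ideal.Quotient.mk (l ^ 2) x ∈ I → x ∈ l := by
    intro x hx
    rw [hI] at hx
    obtain ⟨y, hy, hxy⟩ := hx
    rw [Ideal.Quotient.eq] at hxy
    have h1 : y - x ∈ l := Ideal.pow_le_self two_ne_zero hxy
    have h2 : x = y - (y - x) := by ring
    rw [h2]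
    exact sub_mem hy h1
  obtain ⟨A, hA⟩ : ∃ A : Set ((𝓞 K ⧸ (l ^ 2)) × (𝓞 K ⧸ (l ^ 2))), A = {p | p.1 * p.2 = t} := ⟨_, rfl⟩
  have hAm : ∀ p, p ∈ A ↔ p.1 * p.2 = t := by
    intro p
    rw [hA]
    rfl
  have hdiff : ∀ p ∈ A, ∀ q ∈ A, p.1 = q.1 → p.1 * (p.2 - q.2) = 0 := by
    intro p hp q hq hpq
    rw [hAm] at hp hq
    rw [mul_sub, hp, hpq, hq, sub_self]
  rw [← hA]
  have h1 : A ⊆ ({p ∈ A | p.1 ∉ I} ∪ {p ∈ A | p.1 ∈ I ∧ p.1 ≠ 0}) ∪ {p ∈ A | p.1 = 0} := by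
    intro p hp
    by_cases h : p.1 = 0
    · exact Or.inr ⟨hp, h⟩
    · by_cases h' : p.1 ∈ I
      · exact Or.inl (Or.inr ⟨hp, h', h⟩)
      · exact Or.inl (Or.inl ⟨hp, h'⟩)
  have h2 := (Set.ncard_le_ncard h1 (Set.toFinite _)).trans ((Set.ncard_union_le _ _).trans
    (Nat.add_le_add_right (Set.ncard_union_le _ _) _))
  have h3 := cn_fst {p ∈ A | p.1 ∉ I} (by
    rintro ⟨u, v⟩ ⟨hp, hp0⟩ ⟨u', v'⟩ ⟨hq, -⟩ hpq
    have h5 := hdiff _ hp _ hq hpq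
    obtain ⟨x, rfl⟩ := Ideal.Quotient.mk_surjective u
    obtain ⟨y, rfl⟩ := Ideal.Quotient.mk_surjective v
    obtain ⟨y', rfl⟩ := Ideal.Quotient.mk_surjective v'
    simp only at h5 hp0
    rw [← map_sub, ← map_mul, Ideal.Quotient.eq_zero_iff_mem] at h5
    have hx : x ∉ l ^ 1 := by
      rw [pow_one]
      intro hx
      apply hp0
      rw [hI]
      exact ⟨x, hx, rfl⟩
    have h6 := vmul hl hl0 h5 hx
    change Ideal.Quotient.mk (l ^ 2) y = Ideal.Quotient.mk (l ^ 2) y'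
    rw [Ideal.Quotient.eq]
    exact h6)
  have h4 := cn_dbl {p ∈ A | p.1 ∈ I ∧ p.1 ≠ 0} I (fun p hp => hp.2.1) (by
    rintro ⟨u, v⟩ ⟨hp, -, hp0⟩ ⟨u', v'⟩ ⟨hq, -⟩ hpq
    have h5 := hdiff _ hp _ hq hpq
    obtain ⟨x, rfl⟩ := Ideal.Quotient.mk_surjective u
    obtain ⟨y, rfl⟩ := Ideal.Quotient.mk_surjective v
    obtain ⟨y', rfl⟩ := Ideal.Quotient.mk_surjective v'
    simp only at h5 hp0 ⊢
    rw [← map_sub, ← map_mul, Ideal.Quotient.eq_zero_iff_mem] at h5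
    rw [Ne, Ideal.Quotient.eq_zero_iff_mem] at hp0
    have h6 := vmul hl hl0 h5 hp0
    rw [← map_sub, hI]
    exact ⟨y - y', by simpa using h6, rfl⟩)
  have h5 := cn_snd {p ∈ A | p.1 = 0} (by
    rintro p ⟨-, hp0⟩ q ⟨-, hq0⟩ -
    rw [hp0, hq0])
  rw [hN] at h3 h5
  rw [hIc] at h4
  have h6 : Ideal.absNorm l * Ideal.absNorm l = Ideal.absNorm l ^ 2 := (pow_two _).symm
  omega

theorem ker1 {τ : M ≃ₐ[k] M} {ω : 𝓞 M} (hs : Set3 τ ω) {l : Ideal (𝓞 k)} (hl0 : l ≠ ⊥) (hL : (ex M l).IsPrime)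
    (h3 : (3 : 𝓞 k) ∉ l) (b1 : 𝓞 M) (h1 : b1 ∉ ex M l) :
    (Ideal.Quotient.mk (ex M l) '' {x | b1 * tO τ x - tO τ b1 * x ∈ ex M l}).ncard ≤ Ideal.absNorm l := by
  have hτ := hs.inv
  have hfin : Finite (𝓞 M ⧸ ex M l) := cn_fin (ex_ne hl0)
  have hcard : Nat.card (𝓞 M ⧸ ex M l) = Ideal.absNorm l ^ 2 := by
    rw [← Submodule.cardQuot_apply, ← Ideal.absNorm_apply, exN hτ]
  obtain ⟨X, hX⟩ : ∃ X : Set (𝓞 M), X = {x | b1 * tO τ x - tO τ b1 * x ∈ ex M l} := ⟨_, rfl⟩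
  have hXm : ∀ x, x ∈ X ↔ b1 * tO τ x - tO τ b1 * x ∈ ex M l := by
    intro x
    rw [hX]
    rfl
  have hXs : ∀ x ∈ X, ∀ y ∈ X, x - y ∈ X := by
    intro x hx y hy
    rw [hXm] at hx hy ⊢
    have h4 : b1 * tO τ (x - y) - tO τ b1 * (x - y) =
        (b1 * tO τ x - tO τ b1 * x) - (b1 * tO τ y - tO τ b1 * y) := by
      rw [tO_sub]
      ring
    rw [h4]
    exact sub_mem hx hy
  have h1' : tO τ b1 ∉ ex M l := by
    intro h
    apply h1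
    have h4 := ex_tau0 τ h
    rwa [tO_tO hτ] at h4
  have h3' : (3 : 𝓞 M) ∉ ex M l := by
    intro h
    have h4 : algebraMap (𝓞 k) (𝓞 M) 3 ∈ ex M l ^ 1 := by
      rw [pow_one, map_ofNat]
      exact h
    rw [alg_mem_ex_iff, pow_one] at h4
    exact h3 h4
  -- the key fact
  have key : ∀ x ∈ X, ∀ x' ∈ X, x + ω * x' ∈ ex M l → x ∈ ex M l ∧ x' ∈ ex M l := by
    intro x hx x' hx' h
    rw [hXm] at hx hx'
    have g1 := ex_tau0 τ h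
    rw [tO_add, tO_mul, hs.tau] at g1
    have g2 : tO τ b1 * (x + ω ^ 2 * x') ∈ ex M l := by
      have e1 : tO τ b1 * (x + ω ^ 2 * x') = b1 * (tO τ x + ω ^ 2 * tO τ x') -
          ((b1 * tO τ x - tO τ b1 * x) + ω ^ 2 * (b1 * tO τ x' - tO τ b1 * x')) := by ring
      rw [e1]
      exact sub_mem (Ideal.mul_mem_left _ _ g1) (add_mem hx (Ideal.mul_mem_left _ _ hx'))
    have g3 := (hL.mem_or_mem g2).resolve_left h1'
    have g4 : (-3 : 𝓞 M) * x' ∈ ex M l := by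
      have e1 : (-3 : 𝓞 M) * x' = (ω - ω ^ 2) * ((x + ω * x') - (x + ω ^ 2 * x')) := by
        linear_combination (-x' * (ω ^ 2 - 3 * ω + 3)) * hs.om
      rw [e1]
      exact Ideal.mul_mem_left _ _ (sub_mem h g3)
    have g5 : x' ∈ ex M l := by
      rcases hL.mem_or_mem g4 with h5 | h5
      · exact absurd (by simpa using neg_mem h5) h3'
      · exact h5
    refine ⟨?_, g5⟩
    have e1 : x = (x + ω * x') - ω * x' := by ring
    rw [e1]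
    exact sub_mem h (Ideal.mul_mem_left _ _ g5)
  rw [← hX]
  obtain ⟨K0, hK0⟩ : ∃ K0 : Set (𝓞 M ⧸ ex M l), K0 = Ideal.Quotient.mk (ex M l) '' X := ⟨_, rfl⟩
  rw [← hK0]
  have h5 : (K0 ×ˢ K0).ncard ≤ Ideal.absNorm l ^ 2 := by
    rw [← hcard, ← Set.ncard_univ]
    refine Set.ncard_le_ncard_of_injOn (fun p => p.1 + Ideal.Quotient.mk (ex M l) ω * p.2)
      (fun _ _ => Set.mem_univ _) ?_ Set.finite_univ
    rintro ⟨u, v⟩ ⟨hu, hv⟩ ⟨u', v'⟩ ⟨hu', hv'⟩ h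
    rw [hK0] at hu hv hu' hv'
    obtain ⟨x, hx, rfl⟩ := hu
    obtain ⟨y, hy, rfl⟩ := hv
    obtain ⟨x', hx', rfl⟩ := hu'
    obtain ⟨y', hy', rfl⟩ := hv'
    simp only at h
    rw [← map_mul, ← map_add, ← map_mul, ← map_add, Ideal.Quotient.eq] at h
    have h6 : (x - x') + ω * (y - y') ∈ ex M l := by
      have e1 : (x - x') + ω * (y - y') = (x + ω * y) - (x' + ω * y') := by ring
      rw [e1]
      exact h
    obtain ⟨g1, g2⟩ := key _ (hXs x hx x' hx') _ (hXs y hy y' hy') h6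
    rw [Prod.mk.injEq, Ideal.Quotient.eq, Ideal.Quotient.eq]
    exact ⟨g1, g2⟩
  rw [Set.ncard_prod, ← pow_two] at h5
  exact (Nat.pow_le_pow_iff_left two_ne_zero).1 h5

end H12.AQ
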