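import Pool.Agent.H12.AQ.HybA
import Pool.Agent.H12.AQ.Cnt

/-!
# [H12 AQ HYBB] The densities at the inert primes (120-170 lines)

`L = ex M l` prime, `N = absNorm l`, `L` has `N^2` classes, `L^2` has `N^4` (`cardL`), `3 ∉ L` (`alg_mem_ex_iff`, `pow_one`).
`fib`: fixed `b1 ∉ L`, `b2`. For `x` with `E2 (b1, b2, x) ∈ L^j`: `U, V` (`UU`, `VV` of `(b1, b2, x)`) and `δ^4` are images of `u, v, t ∈ 𝓞 k` (`uv_fix`, `fixed_int`), and
`u v - t ∈ l^j` (`uv`: `U V - δ^4 = - 3 n^2 E2 ∈ L^j`; `alg_mem_ex_iff`). `t` does not depend on `x`. The map `mk x ↦ (mk u, mk v)` is injective on the set (`uv_inj`).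
So the set has at most `#{p : p.1 * p.2 = mk t}` elements (`Set.ncard_le_ncard_of_injOn` after choosing representatives).
`hy1`: classes `(b1, b2, b3)` modulo `L`. (a) `b1 ∉ L`, `δ ∉ L` (then `δ^4 ∉ L`, `t ∉ l`): `b3` at most `N` (`fib`, `cnt1`): `≤ N^2 N^2 N`. (b) `b1 ∉ L`, `δ ∈ L`: `b2` in the set of
`ker1` (`≤ N`), `b3` at most `2 N` (`fib`, `cnt1`): `≤ N^2 N 2N = 2 N^4`. (c) `b1 ∈ L`: `E2 ≡ - 3 (b2 τb2)^2` modulo `L` (`E2_eq`), so `b2 ∈ L` (`ex_tau0`): one `b1`, one `b2`, `N^2`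
classes `b3`: `N^2 ≤ N^4`. Total `≤ N^5 + 3 N^4`.
`hy2`: modulo `L^2`: (a) `b1 ∉ L`: `≤ N^4 N^4 3 N^2` (`fib`, `cnt2`). (b) `b1 ∈ L` (`N^2` classes modulo `L^2`: `cls`): `E2 ∈ L^2 ≤ L` gives `b2 ∈ L` as above (`N^2` classes), `b3`:
`N^4`: `≤ N^8 ≤ N^10`. Total `≤ 4 N^10`.
(The classes: the condition only depends on the classes, `E2_congr`; count with `Finset.card_le_mul_card_image` for the map to the classes of `(b1, b2)`.)
-/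

set_option autoImplicit false
set_option linter.unusedSectionVars false

open scoped NumberField
open H88.A4 H88.WS Pool.Agent.H67.WA H77.PX Pool.Agent.H12.WM H88.AQ

noncomputable section

namespace H12.AQ

variable {k M : Type} [Field k] [NumberField k] [Field M] [NumberField M] [Algebra k M]

private theorem cf {α β γ : Type} [Finite α] [Finite β] [Finite γ] (Z : Set α) (f : α → β) (g : α → γ)
    (hfg : ∀ x y, f x = f y → g x = g y → x = y) (V : Set β) (m : ℕ) (hV : ∀ z ∈ Z, f z ∈ V)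
    (T : β → Set γ) (hT : ∀ z ∈ Z, g z ∈ T (f z)) (hm : ∀ x ∈ V, (T x).ncard ≤ m) :
    Z.ncard ≤ V.ncard * m := by
  classical
  have hZ : Z.Finite := Set.toFinite Z
  have hVf : V.Finite := Set.toFinite V
  rw [Set.ncard_eq_toFinset_card Z hZ, Set.ncard_eq_toFinset_card V hVf, mul_comm]
  apply Finset.card_le_mul_card_image_of_maps_to (f := f)
  · intro a ha
    rw [Set.Finite.mem_toFinset] at ha ⊢
    exact hV a ha
  · intro b hb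
    rw [Set.Finite.mem_toFinset] at hb
    refine le_trans ?_ (hm b hb)
    rw [← Set.ncard_coe_finset]
    refine Set.ncard_le_ncard_of_injOn g ?_ ?_ (Set.toFinite _)
    · intro a ha
      rw [Finset.coe_filter, Set.mem_ofPred_eq, Set.Finite.mem_toFinset] at ha
      rw [← ha.2]
      exact hT a ha.1
    · intro a ha a' ha' h
      rw [Finset.coe_filter, Set.mem_ofPred_eq, Set.Finite.mem_toFinset] at ha ha'
      exact hfg a a' (by rw [ha.2, ha'.2]) h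

private theorem cf3 {G : Type} [Finite G] (Z : Set (G × G × G)) (W : Set (G × G)) (m : ℕ)
    (hm : ∀ w ∈ W, {c | (w.1, w.2, c) ∈ Z}.ncard ≤ m) :
    {z | z ∈ Z ∧ (z.1, z.2.1) ∈ W}.ncard ≤ W.ncard * m := by
  refine cf {z : G × G × G | z ∈ Z ∧ (z.1, z.2.1) ∈ W} (fun z => (z.1, z.2.1)) (fun z => z.2.2) ?_ W m
    ?_ (fun w => {c | (w.1, w.2, c) ∈ Z}) ?_ hm
  · rintro ⟨a, b, c⟩ ⟨a', b', c'⟩ h h'
    obtain ⟨h1, h2⟩ := Prod.mk.inj h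
    exact Prod.ext h1 (Prod.ext h2 h')
  · exact fun z hz => hz.2
  · exact fun z hz => hz.1

private theorem cf2 {G : Type} [Finite G] (W : Set (G × G)) (V : Set G) (m : ℕ)
    (hV : ∀ w ∈ W, w.1 ∈ V) (hm : ∀ x ∈ V, {y | (x, y) ∈ W}.ncard ≤ m) : W.ncard ≤ V.ncard * m :=
  cf W Prod.fst Prod.snd (fun _ _ h h' => Prod.ext h h') V m hV (fun x => {y | (x, y) ∈ W})
    (fun _ hz => hz) hm

private theorem fib {τ : M ≃ₐ[k] M} {ω : 𝓞 M} (hs : Set3 τ ω) {l : Ideal (𝓞 k)} (hl0 : l ≠ ⊥)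
    (hL : (ex M l).IsPrime) (h3 : (3 : 𝓞 k) ∉ l) (j : ℕ) {I : Ideal (𝓞 k)} {J : Ideal (𝓞 M)}
    (hI : I = l ^ j) (hJ : J = ex M l ^ j) (b1 b2 : 𝓞 M) (h1 : b1 ∉ ex M l) :
    ∃ t : 𝓞 k, algebraMap (𝓞 k) (𝓞 M) t = dd τ b1 b2 ^ 4 ∧
      (Ideal.Quotient.mk J '' {x | E2 τ (b1, b2, x) ∈ J}).ncard ≤
        {p : (𝓞 k ⧸ I) × (𝓞 k ⧸ I) | p.1 * p.2 = Ideal.Quotient.mk I t}.ncard := by
  have hfix := fun x => uv_fix hs (b1, b2, x)
  obtain ⟨t, ht⟩ := fixed_int hs.inv (hfix 0).2.2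
  choose u hu using fun x => fixed_int hs.inv (hfix x).1
  choose v hv using fun x => fixed_int hs.inv (hfix x).2.1
  refine ⟨t, ht, ?_⟩
  have hIne : I ≠ ⊥ := by
    rw [hI]
    exact pow_ne_zero j hl0
  have := finQ hIne
  have hch : ∀ z : 𝓞 M ⧸ J, ∃ x, z ∈ Ideal.Quotient.mk J '' {x | E2 τ (b1, b2, x) ∈ J} →
      E2 τ (b1, b2, x) ∈ J ∧ Ideal.Quotient.mk J x = z := by
    intro z
    by_cases hz : z ∈ Ideal.Quotient.mk J '' {x | E2 τ (b1, b2, x) ∈ J}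
    · obtain ⟨x, hx, hxz⟩ := hz
      exact ⟨x, fun _ => ⟨hx, hxz⟩⟩
    · exact ⟨0, fun h => absurd h hz⟩
  choose f hf using hch
  refine Set.ncard_le_ncard_of_injOn
    (fun z => (Ideal.Quotient.mk I (u (f z)), Ideal.Quotient.mk I (v (f z)))) ?_ ?_ (Set.toFinite _)
  · intro z hz
    obtain ⟨g1, g2⟩ := hf z hz
    change Ideal.Quotient.mk I (u (f z)) * Ideal.Quotient.mk I (v (f z)) = Ideal.Quotient.mk I t
    rw [← map_mul, Ideal.Quotient.eq, hI, ← alg_mem_ex_iff (M := M), map_sub, map_mul, hu, hv, ht,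
      uv hs]
    have h5 : dd τ b1 b2 ^ 4 - 3 * (b1 * tO τ b1) ^ 2 * E2 τ (b1, b2, f z) - dd τ b1 b2 ^ 4 =
        (-(3 * (b1 * tO τ b1) ^ 2)) * E2 τ (b1, b2, f z) := by ring
    change dd τ b1 b2 ^ 4 - 3 * (b1 * tO τ b1) ^ 2 * E2 τ (b1, b2, f z) - dd τ b1 b2 ^ 4 ∈ _
    rw [h5]
    rw [hJ] at g1
    exact Ideal.mul_mem_left _ _ g1
  · intro z hz z' hz' h
    obtain ⟨g1, g2⟩ := hf z hz
    obtain ⟨g3, g4⟩ := hf z' hz'
    obtain ⟨h5, h6⟩ := Prod.mk.inj h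
    rw [Ideal.Quotient.eq, hI, ← alg_mem_ex_iff (M := M), map_sub, hu, hu] at h5
    rw [Ideal.Quotient.eq, hI, ← alg_mem_ex_iff (M := M), map_sub, hv, hv] at h6
    rw [← g2, ← g4, Ideal.Quotient.eq, hJ]
    exact uv_inj hs hL h3 j b1 b2 _ _ h1 h5 h6

private theorem fibz (τ : M ≃ₐ[k] M) {l : Ideal (𝓞 k)} {J : Ideal (𝓞 M)} {j : ℕ} (hJ : J = ex M l ^ j)
    (b1 b2 : 𝓞 M) : {c | (Ideal.Quotient.mk J b1, Ideal.Quotient.mk J b2, c) ∈ q3 J '' {b | E2 τ b ∈ J}} ⊆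
      Ideal.Quotient.mk J '' {x | E2 τ (b1, b2, x) ∈ J} := by
  subst hJ
  rintro c ⟨b, hb, hbc⟩
  obtain ⟨h1, h2⟩ := Prod.mk.inj hbc
  obtain ⟨h2, h3⟩ := Prod.mk.inj h2
  refine ⟨b.2.2, ?_, h3⟩
  have h4 := E2_congr τ (l := l) (j := j) (b := (b1, b2, b.2.2)) (b' := b) (by
    unfold q3
    rw [h1, h2])
  have h5 := (ex M l ^ j).add_mem h4 hb
  rwa [sub_add_cancel] at h5

private theorem ccase {τ : M ≃ₐ[k] M} {ω : 𝓞 M} (hs : Set3 τ ω) {l : Ideal (𝓞 k)}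
    (hL : (ex M l).IsPrime) (h3 : (3 : 𝓞 k) ∉ l) (b : T3 M) (hb : E2 τ b ∈ ex M l) (h1 : b.1 ∈ ex M l) :
    b.2.1 ∈ ex M l := by
  have h2 := ex_tau0 τ h1
  have h4 : 3 * (b.2.1 * tO τ b.2.1) ^ 2 ∈ ex M l := by
    have h5 : 3 * (b.2.1 * tO τ b.2.1) ^ 2 = -E2 τ b +
        (b.1 * (b.2.2 * (tO τ b.1 * tO τ b.2.2 - tO τ b.2.1 ^ 2) -
          tO τ b.2.2 * (b.1 * tO τ b.2.2 + b.2.2 * tO τ b.1 - 4 * b.2.1 * tO τ b.2.1) -
          b.2.2 * tO τ b.1 * tO τ b.2.2) +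
        tO τ b.1 * (-(b.2.1 ^ 2 * tO τ b.2.2) -
          b.2.2 * (b.2.2 * tO τ b.1 - 4 * b.2.1 * tO τ b.2.1))) := by
      rw [E2_eq]
      ring
    rw [h5]
    exact (ex M l).add_mem ((ex M l).neg_mem hb) ((ex M l).add_mem ((ex M l).mul_mem_right _ h1)
      ((ex M l).mul_mem_right _ h2))
  have h33 : (3 : 𝓞 M) ∉ ex M l := by
    intro h
    apply h3
    have h6 := (alg_mem_ex_iff (M := M) (l := l) (j := 1) (y := 3)).1 (by
      rw [pow_one, map_ofNat]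
      exact h)
    rwa [pow_one] at h6
  rcases hL.mem_or_mem h4 with h5 | h5
  · exact absurd h5 h33
  · rcases hL.mem_or_mem (hL.mem_of_pow_mem 2 h5) with h6 | h6
    · exact h6
    · have h7 := ex_tau0 τ h6
      rwa [tO_tO hs.inv] at h7

theorem hy1 {τ : M ≃ₐ[k] M} {ω : 𝓞 M} (hs : Set3 τ ω) {l : Ideal (𝓞 k)} (hl : l.IsPrime) (hl0 : l ≠ ⊥)
    (hL : (ex M l).IsPrime) (h3 : (3 : 𝓞 k) ∉ l) :
    (Z2 τ l 1).ncard ≤ Ideal.absNorm l ^ 5 + 3 * Ideal.absNorm l ^ 4 := by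
  have hN := two_le_N hl hl0
  have hcard : Nat.card (𝓞 M ⧸ ex M l) = Ideal.absNorm l ^ 2 := by
    have h := cardL hs.inv l 1
    rwa [pow_one, mul_one] at h
  have hfin : Finite (𝓞 M ⧸ ex M l) := finQ (ex_ne hl0)
  have hJ : ex M l = ex M l ^ 1 := (pow_one _).symm
  unfold Z2
  rw [← hJ]
  obtain ⟨Z, hZ⟩ : ∃ Z : Set (Q3 (ex M l)), Z = q3 (ex M l) '' {b | E2 τ b ∈ ex M l} := ⟨_, rfl⟩
  rw [← hZ]
  obtain ⟨Wa, hWa⟩ : ∃ Wa : Set ((𝓞 M ⧸ ex M l) × (𝓞 M ⧸ ex M l)), Wa = {w | ∃ b1 b2 : 𝓞 M,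
    w = (Ideal.Quotient.mk (ex M l) b1, Ideal.Quotient.mk (ex M l) b2) ∧ b1 ∉ ex M l ∧
      dd τ b1 b2 ∉ ex M l} := ⟨_, rfl⟩
  obtain ⟨Wb, hWb⟩ : ∃ Wb : Set ((𝓞 M ⧸ ex M l) × (𝓞 M ⧸ ex M l)), Wb = {w | ∃ b1 b2 : 𝓞 M,
    w = (Ideal.Quotient.mk (ex M l) b1, Ideal.Quotient.mk (ex M l) b2) ∧ b1 ∉ ex M l ∧
      dd τ b1 b2 ∈ ex M l} := ⟨_, rfl⟩
  have hsub : Z ⊆ ({z | z ∈ Z ∧ (z.1, z.2.1) ∈ Wa} ∪ {z | z ∈ Z ∧ (z.1, z.2.1) ∈ Wb}) ∪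
      {z | z ∈ Z ∧ (z.1, z.2.1) ∈ ({(0, 0)} : Set ((𝓞 M ⧸ ex M l) × (𝓞 M ⧸ ex M l)))} := by
    intro z hz
    have hz' := hz
    rw [hZ] at hz'
    obtain ⟨b, hb, rfl⟩ := hz'
    by_cases h1 : b.1 ∈ ex M l
    · right
      refine ⟨hz, ?_⟩
      have h2 := ccase hs hL h3 b hb h1
      exact Set.mem_singleton_iff.2 (Prod.ext (Ideal.Quotient.eq_zero_iff_mem.2 h1)
        (Ideal.Quotient.eq_zero_iff_mem.2 h2))
    · left
      by_cases h2 : dd τ b.1 b.2.1 ∈ ex M l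
      · right
        refine ⟨hz, ?_⟩
        rw [hWb]
        exact ⟨b.1, b.2.1, rfl, h1, h2⟩
      · left
        refine ⟨hz, ?_⟩
        rw [hWa]
        exact ⟨b.1, b.2.1, rfl, h1, h2⟩
  have hA : {z | z ∈ Z ∧ (z.1, z.2.1) ∈ Wa}.ncard ≤ Wa.ncard * Ideal.absNorm l := by
    apply cf3
    intro w hw
    rw [hWa] at hw
    obtain ⟨b1, b2, rfl, h1, h2⟩ := hw
    obtain ⟨t, ht, ht2⟩ := fib hs hl0 hL h3 1 (pow_one l).symm hJ b1 b2 h1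
    have h4 : Ideal.Quotient.mk l t ≠ 0 := by
      intro h5
      rw [Ideal.Quotient.eq_zero_iff_mem] at h5
      apply h2
      refine hL.mem_of_pow_mem 4 ?_
      rw [← ht]
      exact alg_mem_ex h5
    refine le_trans (Set.ncard_le_ncard ?_ (Set.toFinite _)) (ht2.trans ((cnt1 hl hl0 _).2 h4))
    rw [hZ]
    exact fibz τ hJ b1 b2
  have hB : {z | z ∈ Z ∧ (z.1, z.2.1) ∈ Wb}.ncard ≤ Wb.ncard * (2 * Ideal.absNorm l) := by
    apply cf3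
    intro w hw
    rw [hWb] at hw
    obtain ⟨b1, b2, rfl, h1, h2⟩ := hw
    obtain ⟨t, ht, ht2⟩ := fib hs hl0 hL h3 1 (pow_one l).symm hJ b1 b2 h1
    refine le_trans (Set.ncard_le_ncard ?_ (Set.toFinite _)) (ht2.trans (cnt1 hl hl0 _).1)
    rw [hZ]
    exact fibz τ hJ b1 b2
  have hC : {z | z ∈ Z ∧ (z.1, z.2.1) ∈ ({(0, 0)} : Set ((𝓞 M ⧸ ex M l) × (𝓞 M ⧸ ex M l)))}.ncard ≤
      ({(0, 0)} : Set ((𝓞 M ⧸ ex M l) × (𝓞 M ⧸ ex M l))).ncard * Ideal.absNorm l ^ 2 := by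
    apply cf3
    intro w _
    rw [← hcard]
    exact Set.ncard_le_card _
  have hWa' : Wa.ncard ≤ Ideal.absNorm l ^ 4 := by
    refine (Set.ncard_le_card Wa).trans ?_
    rw [Nat.card_prod, hcard, ← pow_add]
  have hWb' : Wb.ncard ≤ Ideal.absNorm l ^ 2 * Ideal.absNorm l := by
    have h1 := cf2 Wb Set.univ (Ideal.absNorm l) (fun _ _ => trivial) (by
      intro x _
      obtain ⟨b1, rfl⟩ := Ideal.Quotient.mk_surjective x
      by_cases h1 : b1 ∈ ex M l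
      · have h2 : {y | (Ideal.Quotient.mk (ex M l) b1, y) ∈ Wb} = ∅ := by
          rw [Set.eq_empty_iff_forall_notMem]
          intro y hy
          rw [hWb] at hy
          obtain ⟨c1, c2, h4, h5, h6⟩ := hy
          obtain ⟨h7, h8⟩ := Prod.mk.inj h4
          rw [Ideal.Quotient.eq] at h7
          apply h5
          have h9 := (ex M l).sub_mem h1 h7
          rwa [sub_sub_cancel] at h9
        rw [h2, Set.ncard_empty]
        exact Nat.zero_le _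
      · refine (Set.ncard_le_ncard ?_ (Set.toFinite _)).trans (ker1 hs hl0 hL h3 b1 h1)
        intro y hy
        rw [Set.mem_ofPred_eq, hWb] at hy
        obtain ⟨c1, c2, h4, h5, h6⟩ := hy
        obtain ⟨h7, h8⟩ := Prod.mk.inj h4
        rw [Ideal.Quotient.eq] at h7
        refine ⟨c2, ?_, h8.symm⟩
        have h9 := ex_tau0 τ h7
        rw [tO_sub] at h9
        have h10 : b1 * tO τ c2 - tO τ b1 * c2 = dd τ c1 c2 + (b1 - c1) * tO τ c2 -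
            (tO τ b1 - tO τ c1) * c2 := by
          unfold dd
          ring
        rw [Set.mem_ofPred_eq, h10]
        exact (ex M l).sub_mem ((ex M l).add_mem h6 ((ex M l).mul_mem_right _ h7))
          ((ex M l).mul_mem_right _ h9))
    rwa [Set.ncard_univ, hcard] at h1
  have h5 := (Set.ncard_le_ncard hsub (Set.toFinite _)).trans ((Set.ncard_union_le _ _).trans
    (Nat.add_le_add_right (Set.ncard_union_le _ _) _))
  rw [Set.ncard_singleton, one_mul] at hC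
  generalize Ideal.absNorm l = N at hN hWa' hWb' hA hB hC ⊢
  have h6 : Wa.ncard * N ≤ N ^ 4 * N := Nat.mul_le_mul_right _ hWa'
  have h7 : Wb.ncard * (2 * N) ≤ N ^ 2 * N * (2 * N) := Nat.mul_le_mul_right _ hWb'
  have h8 : N ^ 2 ≤ N ^ 4 := Nat.pow_le_pow_right (by omega) (by norm_num)
  have h9 : N ^ 4 * N = N ^ 5 := by ring
  have h10 : N ^ 2 * N * (2 * N) = 2 * N ^ 4 := by ring
  omega

theorem hy2 {τ : M ≃ₐ[k] M} {ω : 𝓞 M} (hs : Set3 τ ω) {l : Ideal (𝓞 k)} (hl : l.IsPrime) (hl0 : l ≠ ⊥)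
    (hL : (ex M l).IsPrime) (h3 : (3 : 𝓞 k) ∉ l) :
    (Z2 τ l 2).ncard ≤ 4 * Ideal.absNorm l ^ 10 := by
  have hN := two_le_N hl hl0
  have hcard : Nat.card (𝓞 M ⧸ ex M l ^ 2) = Ideal.absNorm l ^ 4 := cardL hs.inv l 2
  have hfin : Finite (𝓞 M ⧸ ex M l ^ 2) := finQ (exj_ne hl0 2)
  have hle : ex M l ^ 2 ≤ ex M l := Ideal.pow_le_self (by norm_num)
  unfold Z2
  obtain ⟨Z, hZ⟩ : ∃ Z : Set (Q3 (ex M l ^ 2)), Z = q3 (ex M l ^ 2) '' {b | E2 τ b ∈ ex M l ^ 2} :=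
    ⟨_, rfl⟩
  rw [← hZ]
  obtain ⟨Wa, hWa⟩ : ∃ Wa : Set ((𝓞 M ⧸ ex M l ^ 2) × (𝓞 M ⧸ ex M l ^ 2)), Wa = {w | ∃ b1 b2 : 𝓞 M,
    w = (Ideal.Quotient.mk (ex M l ^ 2) b1, Ideal.Quotient.mk (ex M l ^ 2) b2) ∧ b1 ∉ ex M l} :=
    ⟨_, rfl⟩
  obtain ⟨V, hV⟩ : ∃ V : Set (𝓞 M ⧸ ex M l ^ 2), V = Ideal.Quotient.mk (ex M l ^ 2) '' {x | x ∈ ex M l} :=
    ⟨_, rfl⟩
  have hVc : V.ncard = Ideal.absNorm l ^ 2 := by
    have h1 := cls hle
    rw [← hV, map_pow, exN hs.inv, pow_two (Ideal.absNorm l ^ 2)] at h1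
    exact Nat.eq_of_mul_eq_mul_right (pow_pos (by omega) 2) h1
  have hsub : Z ⊆ {z | z ∈ Z ∧ (z.1, z.2.1) ∈ Wa} ∪ {z | z ∈ Z ∧ (z.1, z.2.1) ∈ V ×ˢ V} := by
    intro z hz
    have hz' := hz
    rw [hZ] at hz'
    obtain ⟨b, hb, rfl⟩ := hz'
    by_cases h1 : b.1 ∈ ex M l
    · right
      refine ⟨hz, ?_⟩
      have h2 := ccase hs hL h3 b (hle hb) h1
      rw [hV]
      exact ⟨⟨b.1, h1, rfl⟩, ⟨b.2.1, h2, rfl⟩⟩
    · left
      refine ⟨hz, ?_⟩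
      rw [hWa]
      exact ⟨b.1, b.2.1, rfl, h1⟩
  have hA : {z | z ∈ Z ∧ (z.1, z.2.1) ∈ Wa}.ncard ≤ Wa.ncard * (3 * Ideal.absNorm l ^ 2) := by
    apply cf3
    intro w hw
    rw [hWa] at hw
    obtain ⟨b1, b2, rfl, h1⟩ := hw
    obtain ⟨t, ht, ht2⟩ := fib hs hl0 hL h3 2 (I := l ^ 2) (J := ex M l ^ 2) rfl rfl b1 b2 h1
    refine le_trans (Set.ncard_le_ncard ?_ (Set.toFinite _)) (ht2.trans (cnt2 hl hl0 _))
    rw [hZ]
    exact fibz τ (j := 2) rfl b1 b2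
  have hC : {z | z ∈ Z ∧ (z.1, z.2.1) ∈ V ×ˢ V}.ncard ≤ (V ×ˢ V).ncard * Ideal.absNorm l ^ 4 := by
    apply cf3
    intro w _
    rw [← hcard]
    exact Set.ncard_le_card _
  have hWa' : Wa.ncard ≤ Ideal.absNorm l ^ 8 := by
    refine (Set.ncard_le_card Wa).trans ?_
    rw [Nat.card_prod, hcard, ← pow_add]
  rw [Set.ncard_prod, hVc] at hC
  have h5 := (Set.ncard_le_ncard hsub (Set.toFinite _)).trans (Set.ncard_union_le _ _)
  generalize Ideal.absNorm l = N at hN hWa' hA hC ⊢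
  have h6 : Wa.ncard * (3 * N ^ 2) ≤ N ^ 8 * (3 * N ^ 2) := Nat.mul_le_mul_right _ hWa'
  have h7 : N ^ 2 * N ^ 2 * N ^ 4 = N ^ 8 := by ring
  have h8 : N ^ 8 ≤ N ^ 10 := Nat.pow_le_pow_right (by omega) (by norm_num)
  have h9 : N ^ 8 * (3 * N ^ 2) = 3 * N ^ 10 := by ring
  omega

end H12.AQ
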