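import Pool.Agent.H12.AQ.Val

/-!
# [H12 AQ SQC] Triples over a finite field whose determinant is minus a nonzero square; with determinant zero (50-80 lines)

`q = card F`, `2 ≠ 0` in `F`. `sqc`: the pairs `(c, s)`, `s ≠ 0`, `s^2 = - (c1 c3 - c2^2)`, i.e. `c1 c3 = c2^2 - s^2`: over every `c` of the set there are exactly two
(`s`, `-s`, different as `2 ≠ 0`), so `2 #{c} ≤ #{(c, s)}`. Pairs with `c1 ≠ 0`: `c3` is determined by `(c1, c2, s)`: at most `(q-1) q (q-1)`. Pairs with `c1 = 0`: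
`c2 = s` or `c2 = -s`, `s ≠ 0`, `c3` any: at most `2 (q-1) q`. Total `≤ (q-1) q (q-1) + 2 (q-1) q = (q-1) q (q+1) ≤ q^3`.
(`Finset.card_le_card_of_injOn` into products, `Finset.card_filter`, `Fintype.card_prod`.)
`dtz`: `c1 ≠ 0`: `c3` is determined by `(c1, c2)`: `≤ (q-1) q`; `c1 = 0`: `c2 = 0`, `c3` any: `q`. Total `≤ q^2`.
-/

set_option autoImplicit false
set_option linter.unusedSectionVars false

open scoped NumberField
open H88.A4 H88.WS Pool.Agent.H67.WA H77.PX Pool.Agent.H12.WM H88.AQ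

noncomputable section

namespace H12.AQ

variable {k M : Type} [Field k] [NumberField k] [Field M] [NumberField M] [Algebra k M]

private theorem sq_arith (q a1 a2 P A : ℕ) (hq : 1 ≤ q) (h1 : a1 ≤ (q - 1) * (q * (q - 1)))
    (h2 : a2 ≤ (q - 1) * (2 * q)) (hP : P = a1 + a2) (hA : 2 * A ≤ P) : 2 * A ≤ q ^ 3 := by
  obtain ⟨r, rfl⟩ : ∃ r, q = r + 1 := ⟨q - 1, by omega⟩
  rw [Nat.add_sub_cancel] at h1 h2
  have h3 : r * ((r + 1) * r) + r * (2 * (r + 1)) ≤ (r + 1) ^ 3 := by nlinarith [Nat.zero_le r]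
  omega

theorem sqc (F : Type) [Field F] [Fintype F] [DecidableEq F] (hF : (2 : F) ≠ 0) :
    2 * {c : F × F × F | ∃ s : F, s ≠ 0 ∧ s ^ 2 = -(c.1 * c.2.2 - c.2.1 ^ 2)}.ncard ≤ Fintype.card F ^ 3 := by
  classical
  obtain ⟨q, hq⟩ : ∃ q : ℕ, q = Fintype.card F := ⟨_, rfl⟩
  have hq1 : 1 ≤ q := by rw [hq]; exact Fintype.card_pos
  obtain ⟨A, hA⟩ : ∃ A : Finset (F × F × F), A =
    Finset.univ.filter fun c => ∃ s : F, s ≠ 0 ∧ s ^ 2 = -(c.1 * c.2.2 - c.2.1 ^ 2) := ⟨_, rfl⟩
  have hAe : {c : F × F × F | ∃ s : F, s ≠ 0 ∧ s ^ 2 = -(c.1 * c.2.2 - c.2.1 ^ 2)} = (A : Set (F × F × F)) := by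
    ext c
    rw [hA]
    simp
  rw [hAe, Set.ncard_coe_finset, ← hq]
  obtain ⟨P, hP⟩ : ∃ P : Finset ((F × F × F) × F), P =
    Finset.univ.filter fun z => z.2 ≠ 0 ∧ z.2 ^ 2 = -(z.1.1 * z.1.2.2 - z.1.2.1 ^ 2) := ⟨_, rfl⟩
  have hPm : ∀ z, z ∈ P ↔ z.2 ≠ 0 ∧ z.2 ^ 2 = -(z.1.1 * z.1.2.2 - z.1.2.1 ^ 2) := by
    intro z
    rw [hP]
    simp
  -- two values of `s` over every triple
  have hmaps : ∀ z ∈ P, z.1 ∈ A := by
    intro z hz
    rw [hPm] at hz
    rw [hA, Finset.mem_filter]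
    exact ⟨Finset.mem_univ _, z.2, hz⟩
  have h2A : 2 * A.card ≤ P.card := by
    rw [Finset.card_eq_sum_card_fiberwise hmaps, mul_comm, ← smul_eq_mul, ← Finset.sum_const]
    refine Finset.sum_le_sum fun c hc => ?_
    rw [hA, Finset.mem_filter] at hc
    obtain ⟨-, s, hs0, hs⟩ := hc
    have hne : (c, s) ≠ (c, -s) := by
      intro h
      have h1 : s = -s := congrArg Prod.snd h
      have h2 : (2 : F) * s = 0 := by linear_combination h1
      rcases mul_eq_zero.1 h2 with h3 | h3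
      · exact hF h3
      · exact hs0 h3
    rw [← Finset.card_pair hne]
    refine Finset.card_le_card ?_
    intro z hz
    rw [Finset.mem_insert, Finset.mem_singleton] at hz
    rw [Finset.mem_filter, hPm]
    rcases hz with rfl | rfl
    · exact ⟨⟨hs0, hs⟩, rfl⟩
    · exact ⟨⟨neg_ne_zero.2 hs0, by rw [neg_sq]; exact hs⟩, rfl⟩
  have hcne : (Finset.univ.filter fun x : F => x ≠ 0).card = q - 1 := by
    rw [Finset.filter_ne' Finset.univ (0 : F), Finset.card_erase_of_mem (Finset.mem_univ _), Finset.card_univ, hq]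
  have hP1 : (P.filter fun z => z.1.1 ≠ 0).card ≤ (q - 1) * (q * (q - 1)) := by
    have h1 : (P.filter fun z => z.1.1 ≠ 0).card ≤ ((Finset.univ.filter fun x : F => x ≠ 0) ×ˢ
        ((Finset.univ : Finset F) ×ˢ (Finset.univ.filter fun x : F => x ≠ 0))).card := by
      refine Finset.card_le_card_of_injOn (fun z => (z.1.1, z.1.2.1, z.2)) ?_ ?_
      · intro z hz
        rw [Finset.mem_coe, Finset.mem_filter, hPm] at hz
        rw [Finset.mem_coe, Finset.mem_product, Finset.mem_product, Finset.mem_filter, Finset.mem_filter]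
        exact ⟨⟨Finset.mem_univ _, hz.2⟩, Finset.mem_univ _, Finset.mem_univ _, hz.1.1⟩
      · rintro ⟨⟨c1, c2, c3⟩, s⟩ hz ⟨⟨d1, d2, d3⟩, t⟩ hw h
        rw [Finset.mem_coe, Finset.mem_filter, hPm] at hz hw
        simp only [Prod.mk.injEq] at h
        obtain ⟨rfl, rfl, rfl⟩ := h
        obtain ⟨⟨-, h1⟩, h2⟩ := hz
        obtain ⟨⟨-, h3⟩, -⟩ := hw
        simp only at h1 h2 h3
        have h4 : c1 * c3 = c1 * d3 := by linear_combination h1 - h3
        rw [mul_left_cancel₀ h2 h4]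
    rw [Finset.card_product, Finset.card_product, hcne, Finset.card_univ, ← hq] at h1
    exact h1
  have hP2 : (P.filter fun z => ¬ z.1.1 ≠ 0).card ≤ (q - 1) * (2 * q) := by
    have h1 : (P.filter fun z => ¬ z.1.1 ≠ 0).card ≤ ((Finset.univ.filter fun x : F => x ≠ 0) ×ˢ
        ((Finset.univ : Finset Bool) ×ˢ (Finset.univ : Finset F))).card := by
      refine Finset.card_le_card_of_injOn (fun z => (z.2, decide (z.1.2.1 = z.2), z.1.2.2)) ?_ ?_
      · intro z hz
        rw [Finset.mem_coe, Finset.mem_filter, hPm] at hz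
        rw [Finset.mem_coe, Finset.mem_product, Finset.mem_product, Finset.mem_filter]
        exact ⟨⟨Finset.mem_univ _, hz.1.1⟩, Finset.mem_univ _, Finset.mem_univ _⟩
      · rintro ⟨⟨c1, c2, c3⟩, s⟩ hz ⟨⟨d1, d2, d3⟩, t⟩ hw h
        rw [Finset.mem_coe, Finset.mem_filter, hPm] at hz hw
        simp only [Prod.mk.injEq] at h
        obtain ⟨rfl, h5, rfl⟩ := h
        obtain ⟨⟨-, h1⟩, h2⟩ := hz
        obtain ⟨⟨-, h3⟩, h4⟩ := hw
        simp only [not_not] at h1 h2 h3 h4
        subst h2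
        subst h4
        have g1 : (c2 - s) * (c2 + s) = 0 := by linear_combination -h1
        have g2 : (d2 - s) * (d2 + s) = 0 := by linear_combination -h3
        have h6 : c2 = s ↔ d2 = s := by
          rw [← decide_eq_true_iff (p := c2 = s), h5, decide_eq_true_iff]
        have h7 : c2 = d2 := by
          by_cases h8 : c2 = s
          · rw [h8, h6.1 h8]
          · have h9 : d2 ≠ s := fun h => h8 (h6.2 h)
            have e1 := (mul_eq_zero.1 g1).resolve_left (sub_ne_zero.2 h8)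
            have e2 := (mul_eq_zero.1 g2).resolve_left (sub_ne_zero.2 h9)
            linear_combination e1 - e2
        rw [h7]
    rw [Finset.card_product, Finset.card_product, hcne, Finset.card_univ, Finset.card_univ, ← hq,
      Fintype.card_bool] at h1
    exact h1
  exact sq_arith q _ _ P.card A.card hq1 hP1 hP2
    (Finset.card_filter_add_card_filter_not (s := P) fun z => z.1.1 ≠ 0).symm h2A

private theorem dt_arith (q a1 a2 P : ℕ) (hq : 1 ≤ q) (h1 : a1 ≤ (q - 1) * q)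
    (h2 : a2 ≤ q) (hP : P = a1 + a2) : P ≤ q ^ 2 := by
  obtain ⟨r, rfl⟩ : ∃ r, q = r + 1 := ⟨q - 1, by omega⟩
  rw [Nat.add_sub_cancel] at h1
  nlinarith

theorem dtz (F : Type) [Field F] [Fintype F] [DecidableEq F] :
    {c : F × F × F | c.1 * c.2.2 - c.2.1 ^ 2 = 0}.ncard ≤ Fintype.card F ^ 2 := by
  classical
  obtain ⟨q, hq⟩ : ∃ q : ℕ, q = Fintype.card F := ⟨_, rfl⟩
  have hq1 : 1 ≤ q := by rw [hq]; exact Fintype.card_pos
  obtain ⟨P, hP⟩ : ∃ P : Finset (F × F × F), P =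
    Finset.univ.filter fun c => c.1 * c.2.2 - c.2.1 ^ 2 = 0 := ⟨_, rfl⟩
  have hPe : {c : F × F × F | c.1 * c.2.2 - c.2.1 ^ 2 = 0} = (P : Set (F × F × F)) := by
    ext c
    rw [hP]
    simp
  rw [hPe, Set.ncard_coe_finset, ← hq]
  have hPm : ∀ z, z ∈ P ↔ z.1 * z.2.2 - z.2.1 ^ 2 = 0 := by
    intro z
    rw [hP]
    simp
  have hcne : (Finset.univ.filter fun x : F => x ≠ 0).card = q - 1 := by
    rw [Finset.filter_ne' Finset.univ (0 : F), Finset.card_erase_of_mem (Finset.mem_univ _), Finset.card_univ, hq]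
  have hP1 : (P.filter fun z => z.1 ≠ 0).card ≤ (q - 1) * q := by
    have h1 : (P.filter fun z => z.1 ≠ 0).card ≤
        ((Finset.univ.filter fun x : F => x ≠ 0) ×ˢ (Finset.univ : Finset F)).card := by
      refine Finset.card_le_card_of_injOn (fun z => (z.1, z.2.1)) ?_ ?_
      · intro z hz
        rw [Finset.mem_coe, Finset.mem_filter, hPm] at hz
        rw [Finset.mem_coe, Finset.mem_product, Finset.mem_filter]
        exact ⟨⟨Finset.mem_univ _, hz.2⟩, Finset.mem_univ _⟩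
      · rintro ⟨c1, c2, c3⟩ hz ⟨d1, d2, d3⟩ hw h
        rw [Finset.mem_coe, Finset.mem_filter, hPm] at hz hw
        simp only [Prod.mk.injEq] at h
        obtain ⟨rfl, rfl⟩ := h
        obtain ⟨h1, h2⟩ := hz
        obtain ⟨h3, -⟩ := hw
        simp only at h1 h2 h3
        have h4 : c1 * c3 = c1 * d3 := by linear_combination h1 - h3
        rw [mul_left_cancel₀ h2 h4]
    rw [Finset.card_product, hcne, Finset.card_univ, ← hq] at h1
    exact h1
  have hP2 : (P.filter fun z => ¬ z.1 ≠ 0).card ≤ q := by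
    have h1 : (P.filter fun z => ¬ z.1 ≠ 0).card ≤ (Finset.univ : Finset F).card := by
      refine Finset.card_le_card_of_injOn (fun z => z.2.2) (fun _ _ => Finset.mem_coe.2 (Finset.mem_univ _)) ?_
      rintro ⟨c1, c2, c3⟩ hz ⟨d1, d2, d3⟩ hw h
      rw [Finset.mem_coe, Finset.mem_filter, hPm] at hz hw
      simp only at h
      subst h
      obtain ⟨h1, h2⟩ := hz
      obtain ⟨h3, h4⟩ := hw
      simp only [not_not] at h1 h2 h3 h4
      subst h2
      subst h4
      have e1 : c2 ^ 2 = 0 := by linear_combination -h1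
      have e2 : d2 ^ 2 = 0 := by linear_combination -h3
      rw [pow_eq_zero_iff (by norm_num)] at e1 e2
      rw [e1, e2]
    rw [Finset.card_univ, ← hq] at h1
    exact h1
  exact dt_arith q _ _ P.card hq1 hP1 hP2
    (Finset.card_filter_add_card_filter_not (s := P) fun z => z.1 ≠ 0).symm

end H12.AQ
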