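import Pool.Agent.H12.AQ.Val

/-!
# [H12 AQ TRI] The primes of `k` in `M`: split, inert, ramified (90-130 lines)

`L = ex M l`, `N = absNorm l ≥ 2` (`two_le_N`), `absNorm L = N ^ 2` (`exN`), `L ≠ ⊥` (`ex_ne`), `L ≠ ⊤` (`ex_comap`). Take a maximal `P ≥ L`
(`Ideal.exists_le_maximal`), `P ≠ ⊥`. `P ∩ 𝓞 k = l` (`ov_iff`: `Ov l P`), so `𝓞 k ⧸ l → 𝓞 M ⧸ P` is injective (`Ideal.quotientMap`) and `N ≤ absNorm P`
(`Nat.card_le_card_of_injective`, `finQ`). `cI τ P` is a prime `≥ cI τ L = L` (`cI_mono`, `cI_ex`, `cI_prime`) of the same norm (`cI_norm`).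
(A) `P ≠ cI τ P`: both are maximal, so coprime, `P * cI τ P ∣ L` (`IsCoprime.mul_dvd`, `Ideal.dvd_iff_le`), `L = P * cI τ P * J`,
`N ^ 2 = (absNorm P) ^ 2 * absNorm J`, `absNorm P ≥ N`: so `absNorm J = 1`, `J = ⊤` (`Ideal.absNorm_eq_one_iff`), `absNorm P = N`: `TA τ l P`.
(B) `cI τ P = P`: every prime `Q ≥ L` is `P`: for `x ∈ P`: `x * tO τ x ∈ P` is fixed by `τ` (`fixed_int`: `= algebraMap y`, `y ∈ l` as `P ∩ 𝓞 k = l`), so it is in
`L ≤ Q`, so `x ∈ Q` or `tO τ x ∈ Q` (i.e. `x ∈ cI τ Q`). So `P ⊆ Q ∪ cI τ Q`; a subgroup in the union of two subgroups is in one of them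
(`Ideal.subset_union`): `P ≤ Q`, so `P = Q`, or `P ≤ cI τ Q`, `P = cI τ Q`, `Q = cI τ P = P` (`cI_cI`). So all normalized factors of `L` are `P`:
`L = P ^ a` (`Multiset.eq_replicate`, `Ideal.prod_normalizedFactors_eq_self`, or induction), `a ≥ 1`, `N ^ 2 = (absNorm P) ^ a ≥ N ^ a`: `a ≤ 2`.
`a = 1`: `L = P` is prime. `a = 2`: `absNorm P = N`: `TC τ l P`, and `𝓞 k ⧸ l → 𝓞 M ⧸ P` is an injection of finite sets with the same number of elements, so it
is surjective: `ω - algebraMap y ∈ P` for some `y`. Apply `tO τ` (`cI τ P = P`, `tO_algebraMap`): `ω ^ 2 - algebraMap y ∈ P`. So `ω - ω ^ 2 ∈ P` and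
`3 = - (ω - ω ^ 2) ^ 2 ∈ P` (`Set3.om`, `linear_combination`), `3 ∈ l`.
`ovP`: a prime `w` over `l` (`ov_iff`: `ex M l ≤ w`) contains `P` or `cI τ P`, which are maximal.
-/

set_option autoImplicit false
set_option linter.unusedSectionVars false

open scoped NumberField
open H88.A4 H88.WS Pool.Agent.H67.WA H77.PX Pool.Agent.H12.WM H88.AQ

noncomputable section

namespace H12.AQ

variable {k M : Type} [Field k] [NumberField k] [Field M] [NumberField M] [Algebra k M]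

private theorem tri_norm {N a n : ℕ} (hN : 2 ≤ N) (ha : N ≤ a) (h : N ^ 2 = a ^ 2 * n) : a = N ∧ n = 1 := by
  have hn : n = 1 := by
    rcases Nat.lt_or_ge n 2 with h2 | h2
    · interval_cases n
      · rw [mul_zero] at h
        have : 0 < N ^ 2 := by positivity
        omega
      · rfl
    · have h3 : N ^ 2 ≤ a ^ 2 := Nat.pow_le_pow_left ha 2
      have h4 : 0 < N ^ 2 := by positivity
      nlinarith
  subst hn
  rw [mul_one] at h
  exact ⟨(Nat.pow_left_injective (by norm_num : 2 ≠ 0) h).symm, rfl⟩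

theorem tri {τ : M ≃ₐ[k] M} {ω : 𝓞 M} (hs : Set3 τ ω) {l : Ideal (𝓞 k)} (hl : l.IsPrime) (hl0 : l ≠ ⊥) :
    (∃ P, TA τ l P) ∨ (ex M l).IsPrime ∨ ((∃ P, TC τ l P) ∧ (3 : 𝓞 k) ∈ l) := by
  have hτ := hs.inv
  have hL0 : ex M l ≠ ⊥ := ex_ne hl0
  have hLt : ex M l ≠ ⊤ := by
    intro h
    have h1 := ex_comap (M := M) l
    rw [h, Ideal.comap_top] at h1
    exact hl.ne_top h1.symm
  have hN2 : 2 ≤ Ideal.absNorm l := two_le_N hl hl0
  have hcomap : ∀ P : Ideal (𝓞 M), P.IsMaximal → ex M l ≤ P →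
      P.comap (algebraMap (𝓞 k) (𝓞 M)) = l := fun P hPm hLP =>
    ((ov_iff hl hl0).2 ⟨hPm.isPrime, hLP⟩).2
  have hne0 : ∀ P : Ideal (𝓞 M), ex M l ≤ P → P ≠ ⊥ := fun P hLP h => hL0 (le_bot_iff.1 (h ▸ hLP))
  have hNP : ∀ P : Ideal (𝓞 M), P.IsMaximal → ex M l ≤ P →
      Ideal.absNorm l ≤ Ideal.absNorm P := by
    intro P hPm hLP
    have hcm := hcomap P hPm hLP
    have := finQ (hne0 P hLP)
    have h1 := Nat.card_le_card_of_injective _
      (Ideal.quotientMap_injective' (f := algebraMap (𝓞 k) (𝓞 M)) (H := le_of_eq hcm.symm) (le_of_eq hcm))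
    rw [Ideal.absNorm_apply, Submodule.cardQuot_apply, Ideal.absNorm_apply, Submodule.cardQuot_apply]
    exact h1
  obtain ⟨P, hPm, hLP⟩ := Ideal.exists_le_maximal _ hLt
  have hP := hPm.isPrime
  have hP0 := hne0 P hLP
  have hcm := hcomap P hPm hLP
  have hPN := hNP P hPm hLP
  have hLcP : ex M l ≤ cI τ P := by
    have h := cI_mono (τ := τ) hLP
    rwa [cI_ex hτ] at h
  by_cases hPP : P = cI τ P
  · -- one prime
    have huniq : ∀ Q : Ideal (𝓞 M), Q.IsMaximal → ex M l ≤ Q → Q = P := by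
      intro Q hQm hLQ
      have hQ := hQm.isPrime
      have hsub : (P : Set (𝓞 M)) ⊆ (Q : Set (𝓞 M)) ∪ (cI τ Q : Set (𝓞 M)) := by
        intro x hx
        obtain ⟨y, hy⟩ := fixed_int hτ (x := x * tO τ x) (by
          rw [tO_mul, tO_tO hτ, mul_comm])
        have h1 : algebraMap (𝓞 k) (𝓞 M) y ∈ P := by
          rw [hy]
          exact P.mul_mem_right _ hx
        have h2 : y ∈ l := by
          rw [← hcm]
          exact h1
        have h3 : x * tO τ x ∈ Q := by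
          rw [← hy]
          exact hLQ (alg_mem_ex h2)
        rcases hQ.mem_or_mem h3 with h4 | h4
        · exact Or.inl h4
        · exact Or.inr (mem_cI.2 h4)
      rcases Ideal.subset_union.1 hsub with h1 | h1
      · exact (hPm.eq_of_le hQ.ne_top h1).symm
      · have h2 : P = cI τ Q := hPm.eq_of_le (cI_prime hQ).ne_top h1
        rw [hPP, h2, cI_cI hτ]
    obtain ⟨J, hJ⟩ := Ideal.dvd_iff_le.2 hLP
    by_cases hJt : J = ⊤
    · right; left
      rw [hJ, hJt, Ideal.mul_top]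
      exact hP
    · obtain ⟨Q, hQm, hJQ⟩ := Ideal.exists_le_maximal _ hJt
      have hLQ : ex M l ≤ Q := by
        rw [hJ]
        exact Ideal.mul_le_right.trans hJQ
      have hQP := huniq Q hQm hLQ
      subst hQP
      obtain ⟨J', hJ'⟩ := Ideal.dvd_iff_le.2 hJQ
      rw [hJ', ← mul_assoc] at hJ
      have hnorm : Ideal.absNorm l ^ 2 = Ideal.absNorm Q ^ 2 * Ideal.absNorm J' := by
        rw [← exN hτ, hJ, map_mul, map_mul, pow_two]
      obtain ⟨h1, h2⟩ := tri_norm hN2 hPN hnorm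
      have h3 : J' = ⊤ := Ideal.absNorm_eq_one_iff.1 h2
      rw [h3, Ideal.mul_top, ← pow_two] at hJ
      right; right
      refine ⟨⟨Q, hP, hP0, hJ, hPP.symm, h1⟩, ?_⟩
      -- surjective on the residue fields
      have := finQ hP0
      have hbij : Function.Bijective (Ideal.quotientMap Q (algebraMap (𝓞 k) (𝓞 M)) (le_of_eq hcm.symm)) := by
        refine (Ideal.quotientMap_injective' (le_of_eq hcm)).bijective_of_nat_card_le ?_
        have h4 := h1.le
        rw [Ideal.absNorm_apply, Submodule.cardQuot_apply, Ideal.absNorm_apply,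
          Submodule.cardQuot_apply] at h4
        exact h4
      obtain ⟨q, hq⟩ := hbij.2 (Ideal.Quotient.mk Q ω)
      obtain ⟨y, rfl⟩ := Ideal.Quotient.mk_surjective q
      rw [Ideal.quotientMap_mk, Ideal.Quotient.eq] at hq
      have h5 : tO τ (algebraMap (𝓞 k) (𝓞 M) y - ω) ∈ Q := by
        rw [hPP] at hq
        exact mem_cI.1 hq
      rw [tO_sub, tO_algebraMap, hs.tau] at h5
      have h6 : ω - ω ^ 2 ∈ Q := by
        have h7 : ω - ω ^ 2 = (algebraMap (𝓞 k) (𝓞 M) y - ω ^ 2) - (algebraMap (𝓞 k) (𝓞 M) y - ω) := by ring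
        rw [h7]
        exact Q.sub_mem h5 hq
      have h8 : (3 : 𝓞 M) ∈ Q := by
        have h9 : (3 : 𝓞 M) = -((ω - ω ^ 2) * (ω - ω ^ 2)) := by
          linear_combination (ω ^ 2 - 3 * ω + 3) * hs.om
        rw [h9]
        exact Q.neg_mem (Q.mul_mem_left _ h6)
      rw [← hcm, Ideal.mem_comap, map_ofNat]
      exact h8
  · left
    have hcPm : (cI τ P).IsMaximal := (cI_prime hP).isMaximal (cI_ne hτ hP0)
    have hcop : IsCoprime P (cI τ P) := Ideal.isCoprime_of_isMaximal hPP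
    obtain ⟨J, hJ⟩ := hcop.mul_dvd (Ideal.dvd_iff_le.2 hLP) (Ideal.dvd_iff_le.2 hLcP)
    have hnorm : Ideal.absNorm l ^ 2 = Ideal.absNorm P ^ 2 * Ideal.absNorm J := by
      rw [← exN hτ, hJ, map_mul, map_mul, cI_norm hτ, pow_two]
    obtain ⟨h1, h2⟩ := tri_norm hN2 hPN hnorm
    have h3 : J = ⊤ := Ideal.absNorm_eq_one_iff.1 h2
    rw [h3, Ideal.mul_top] at hJ
    exact ⟨P, hP, hP0, hJ, hPP, h1⟩

theorem ovP {τ : M ≃ₐ[k] M} (hτ : Invo k M τ) {l : Ideal (𝓞 k)} (hl : l.IsPrime) (hl0 : l ≠ ⊥) {P w : Ideal (𝓞 M)}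
    (hP : TA τ l P) (hw : Ov l w) : w = P ∨ w = cI τ P := by
  obtain ⟨hPp, hP0, hL, -, -⟩ := hP
  obtain ⟨hwp, hLw⟩ := (ov_iff hl hl0).1 hw
  rw [hL] at hLw
  rcases hwp.mul_le.1 hLw with h | h
  · exact Or.inl ((hPp.isMaximal hP0).eq_of_le hwp.ne_top h).symm
  · exact Or.inr (((cI_prime hPp).isMaximal (cI_ne hτ hP0)).eq_of_le hwp.ne_top h).symm

end H12.AQ
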