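import Pool.Agent.H12.AQ.SplA
import Pool.Agent.H12.AQ.Sqc
import Pool.Agent.H12.AQ.Tri
import Pool.Agent.H77.PX.Gen
import Pool.Agent.H77.PX.Z12

/-!
# [H12 AQ SPLB] The densities at the split primes (110-160 lines)

`N = absNorm l = absNorm P`, `F = 𝓞 M ⧸ P` a field with `N` elements (`Ideal.Quotient.field`, `finQ`), `2, 3 ∉ P` (`6 ∣ m`, `m ∉ l`: `m ∉ P` as `P ∩ 𝓞 k = l`
(`ov_iff`, `Ov l P`), so `2 ∉ P`, `3 ∉ P`: see `hgood` in H77/PX/Den.lean).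
`spl1`: `j = 1` (`pow_one`). `V1` = the classes of the `c` with `s^2 + dt c ∈ P` for some `s ∉ P`, `V2` = the classes of the `c` with `dt c ∈ P`, `Pm P c` (some entry
not in `P`), `V3` = the class of `0`. `#V1 ≤ N^3 / 2` (`sqc`), `#V2 ≤ N^2` (`dtz`), `#V3 = 1`. For `c` in `V1`: `zn c P ≤ N^2` (`z1`); in `V2`: `≤ 2 N^2` (`gen`, `j = 1`);
in `V3`: `≤ N^3` (all classes, `Set.ncard_le_..`, `Nat.card_prod`). Let `z = q3 b ∈ Z2n m τ l 1`, `E2 τ b ∈ ex M l`, `Nin m (dt b) l`. `cI τ P` is a prime over `l`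
(`Ov`, `ov_iff`, `ex M l = P * cI τ P ≤ cI τ P`), so `¬ Inr m (dt b) (cI τ P)`: `m ∈ cI τ P` (impossible: `m ∉ l`), or `dt b ∈ cI τ P`, i.e.
`τ(dt b) = dt (τ b) ∈ P` (`dt_cj`): `τ b` is in `V2` or `V3`, or `x^2 + dt b ∈ cI τ P` for some `x`: `(τx)^2 + dt (τ b) ∈ P`: `s = τx`; if `s ∈ P` then `dt (τ b) ∈ P` again, else
`V1`. So `Z2n` is the union of three sets `W1, W2, W3` to which `sp_le` applies: `2 #Z2n ≤ N^3 N^2 + 2 N^2 2 N^2 + 2 N^3 ≤ N^5 + 6 N^4`.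
`spl2`: `j = 2`: `V1` = the classes of the `c` with `dt c ∉ P` (at most all: `N^6`), `V2`: `dt c ∈ P`, `Pm P c`: the number of classes modulo `P^2` is `N^3` times the
number of classes modulo `P` (fibres of `Q3 (P^2) → Q3 P`, `cls_coset` for the entries), so `≤ N^3 N^2` (`dtz`); `V3`: all entries in `P`: `N^3`. For `c` in `V1`:
`zn c (P^2) ≤ 2 N^4` (`z2`), `V2`: `≤ 2 N^(4+1)` (`gen`, `j = 2`), `V3`: `≤ N^6`. `sp_le`: `#Z2 ≤ N^6 2 N^4 + N^5 2 N^5 + N^3 N^6 ≤ 5 N^10`.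
-/

set_option autoImplicit false
set_option linter.unusedSectionVars false

open scoped NumberField
open H88.A4 H88.WS Pool.Agent.H67.WA H77.PX Pool.Agent.H12.WM H88.AQ

noncomputable section

namespace H12.AQ

section aux

variable {K : Type} [Field K] [NumberField K]

/-- the classes all of whose members satisfy `p` -/
private def Vs (I : Ideal (𝓞 K)) (p : T3 K → Prop) : Set (Q3 I) := {z | ∀ c, q3 I c = z → p c}

private theorem cQ (I : Ideal (𝓞 K)) : Nat.card (𝓞 K ⧸ I) = Ideal.absNorm I := by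
  rw [Ideal.absNorm_apply, Submodule.cardQuot_apply]

private theorem all_le {I : Ideal (𝓞 K)} (hI : I ≠ ⊥) (A : Set (Q3 I)) : A.ncard ≤ Ideal.absNorm I ^ 3 := by
  have := finQ hI
  have h1 : A.ncard ≤ (Set.univ : Set (Q3 I)).ncard :=
    Set.ncard_le_ncard (Set.subset_univ _) (Set.toFinite _)
  rw [Set.ncard_univ, Nat.card_prod, Nat.card_prod, cQ] at h1
  calc A.ncard ≤ _ := h1
    _ = _ := by ring

private theorem cnt1 {I : Ideal (𝓞 K)} (hI : I.IsPrime) (hI0 : I ≠ ⊥) (h2 : (2 : 𝓞 K) ∉ I) :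
    2 * (Vs I fun c => ∃ x, x ∉ I ∧ x ^ 2 + dt c ∈ I).ncard ≤ Ideal.absNorm I ^ 3 := by
  classical
  have hmax : I.IsMaximal := hI.isMaximal hI0
  have := finQ hI0
  letI : Field (𝓞 K ⧸ I) := Ideal.Quotient.field I
  letI : Fintype (𝓞 K ⧸ I) := Fintype.ofFinite _
  have hF : (2 : 𝓞 K ⧸ I) ≠ 0 := by
    intro h
    apply h2
    rw [← Ideal.Quotient.eq_zero_iff_mem, map_ofNat]
    exact h
  have h3 := sqc (𝓞 K ⧸ I) hF
  rw [← Nat.card_eq_fintype_card, cQ] at h3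
  refine le_trans (Nat.mul_le_mul_left 2 (Set.ncard_le_ncard ?_ (Set.toFinite _))) h3
  intro z hz
  obtain ⟨c, rfl⟩ := q3_surj I z
  obtain ⟨x, hx, hxc⟩ := hz c rfl
  refine ⟨Ideal.Quotient.mk I x, fun h => hx (Ideal.Quotient.eq_zero_iff_mem.1 h), ?_⟩
  have h4 := Ideal.Quotient.eq_zero_iff_mem.2 hxc
  unfold dt at h4
  rw [map_add, map_sub, map_mul, map_pow, map_pow] at h4
  exact eq_neg_of_add_eq_zero_left h4

private theorem cnt2 {I : Ideal (𝓞 K)} (hI : I.IsPrime) (hI0 : I ≠ ⊥) :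
    (Vs I fun c => dt c ∈ I).ncard ≤ Ideal.absNorm I ^ 2 := by
  classical
  have hmax : I.IsMaximal := hI.isMaximal hI0
  have := finQ hI0
  letI : Field (𝓞 K ⧸ I) := Ideal.Quotient.field I
  letI : Fintype (𝓞 K ⧸ I) := Fintype.ofFinite _
  have h3 := dtz (𝓞 K ⧸ I)
  rw [← Nat.card_eq_fintype_card, cQ] at h3
  refine le_trans (Set.ncard_le_ncard ?_ (Set.toFinite _)) h3
  intro z hz
  obtain ⟨c, rfl⟩ := q3_surj I z
  have h4 := Ideal.Quotient.eq_zero_iff_mem.2 (hz c rfl)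
  unfold dt at h4
  rw [map_sub, map_mul, map_pow] at h4
  exact h4

private theorem cnt3 {I : Ideal (𝓞 K)} :
    (Vs I fun c => c.1 ∈ I ∧ c.2.1 ∈ I ∧ c.2.2 ∈ I).ncard ≤ 1 := by
  have h : (Vs I fun c => c.1 ∈ I ∧ c.2.1 ∈ I ∧ c.2.2 ∈ I) ⊆ {q3 I 0} := by
    intro z hz
    obtain ⟨c, rfl⟩ := q3_surj I z
    obtain ⟨h1, h2, h3⟩ := hz c rfl
    rw [Set.mem_singleton_iff, q3_eq]
    exact ⟨by simpa using h1, by simpa using h2, by simpa using h3⟩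
  have h1 := Set.ncard_le_ncard h (Set.finite_singleton _)
  rwa [Set.ncard_singleton] at h1

private theorem fibc {α β : Type} [Finite α] [Finite β] (f : α → β) (A : Set α) (T : Set β) (n : ℕ)
    (hT : ∀ a ∈ A, f a ∈ T) (hf : ∀ t ∈ T, {a | a ∈ A ∧ f a = t}.ncard ≤ n) :
    A.ncard ≤ T.ncard * n := by
  classical
  letI := Fintype.ofFinite α
  letI := Fintype.ofFinite β
  rw [Set.ncard_eq_toFinset_card', Set.ncard_eq_toFinset_card', mul_comm]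
  refine Finset.card_le_mul_card_image_of_maps_to (f := f) (fun a ha => ?_) n fun t ht => ?_
  · rw [Set.mem_toFinset] at ha ⊢
    exact hT a ha
  · rw [Set.mem_toFinset] at ht
    refine le_trans (le_of_eq ?_) (hf t ht)
    rw [Set.ncard_eq_toFinset_card']
    congr 1
    ext a
    simp

private theorem coset_N {P : Ideal (𝓞 K)} (hP0 : P ≠ ⊥) (x0 : 𝓞 K) :
    (Ideal.Quotient.mk (P ^ 2) '' {x | x - x0 ∈ P}).ncard = Ideal.absNorm P := by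
  have h1 := cls_coset (K := K) (Ideal.pow_le_self (I := P) (n := 2) (by norm_num)) x0
  rw [map_pow, sq (Ideal.absNorm P)] at h1
  have h2 : 0 < Ideal.absNorm P := Nat.pos_of_ne_zero (by rwa [Ne, Ideal.absNorm_eq_zero_iff])
  exact Nat.eq_of_mul_eq_mul_right h2 h1

private theorem fib2 {P : Ideal (𝓞 K)} (hP0 : P ≠ ⊥) (T : Set (Q3 P)) :
    (Vs (P ^ 2) fun c => q3 P c ∈ T).ncard ≤ T.ncard * Ideal.absNorm P ^ 3 := by
  classical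
  have hle : P ^ 2 ≤ P := Ideal.pow_le_self (by norm_num)
  have := finQ hP0
  have := finQ (pow_ne_zero 2 hP0)
  let ρ : Q3 (P ^ 2) → Q3 P := fun z => (Ideal.Quotient.factor hle z.1,
    Ideal.Quotient.factor hle z.2.1, Ideal.Quotient.factor hle z.2.2)
  have hρ : ∀ c, ρ (q3 (P ^ 2) c) = q3 P c := fun c => rfl
  refine fibc ρ _ T _ (fun z hz => ?_) fun t ht => ?_
  · obtain ⟨c, rfl⟩ := q3_surj (P ^ 2) z
    rw [hρ]
    exact hz c rfl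
  · obtain ⟨c, rfl⟩ := q3_surj P t
    have hsub : {a | a ∈ (Vs (P ^ 2) fun c => q3 P c ∈ T) ∧ ρ a = q3 P c} ⊆
        (Ideal.Quotient.mk (P ^ 2) '' {x | x - c.1 ∈ P}) ×ˢ
          ((Ideal.Quotient.mk (P ^ 2) '' {x | x - c.2.1 ∈ P}) ×ˢ
            (Ideal.Quotient.mk (P ^ 2) '' {x | x - c.2.2 ∈ P})) := by
      rintro z ⟨-, hz⟩
      obtain ⟨d, rfl⟩ := q3_surj (P ^ 2) z
      rw [hρ, q3_eq] at hz
      exact ⟨⟨d.1, hz.1, rfl⟩, ⟨d.2.1, hz.2.1, rfl⟩, ⟨d.2.2, hz.2.2, rfl⟩⟩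
    refine (Set.ncard_le_ncard hsub (Set.toFinite _)).trans ?_
    rw [Set.ncard_prod, Set.ncard_prod, coset_N hP0, coset_N hP0, coset_N hP0]
    apply le_of_eq
    ring

private theorem dt_sub {I : Ideal (𝓞 K)} {c c' : T3 K} (h : q3 I c = q3 I c') : dt c - dt c' ∈ I := by
  obtain ⟨h1, h2, h3⟩ := q3_eq.1 h
  rw [← Ideal.Quotient.eq] at h1 h2 h3 ⊢
  unfold dt
  rw [map_sub, map_sub, map_mul, map_mul, map_pow, map_pow, h1, h2, h3]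

private theorem dt_iff {I P : Ideal (𝓞 K)} (hIP : I ≤ P) {c c' : T3 K} (h : q3 I c = q3 I c') :
    dt c ∈ P ↔ dt c' ∈ P := by
  have h1 := hIP (dt_sub h)
  exact ⟨fun h2 => by
    have h3 := P.sub_mem h2 h1
    rwa [sub_sub_cancel] at h3, fun h2 => by
    have h3 := P.add_mem h1 h2
    rwa [sub_add_cancel] at h3⟩

private theorem ent_iff {P : Ideal (𝓞 K)} {x y : 𝓞 K} (h : x - y ∈ P) : x ∈ P ↔ y ∈ P :=
  ⟨fun h2 => by
    have h3 := P.sub_mem h2 h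
    rwa [sub_sub_cancel] at h3, fun h2 => by
    have h3 := P.add_mem h h2
    rwa [sub_add_cancel] at h3⟩

private theorem ents_iff {I P : Ideal (𝓞 K)} (hIP : I ≤ P) {c c' : T3 K} (h : q3 I c = q3 I c') :
    (c.1 ∈ P ∧ c.2.1 ∈ P ∧ c.2.2 ∈ P) ↔ (c'.1 ∈ P ∧ c'.2.1 ∈ P ∧ c'.2.2 ∈ P) := by
  obtain ⟨h1, h2, h3⟩ := q3_eq.1 h
  rw [ent_iff (hIP h1), ent_iff (hIP h2), ent_iff (hIP h3)]

end aux

variable {k M : Type} [Field k] [NumberField k] [Field M] [NumberField M] [Algebra k M]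

private theorem good {l : Ideal (𝓞 k)} {P : Ideal (𝓞 M)} (hov : Ov l P) (m : ℕ) (h6 : 6 ∣ m)
    (hm : (m : 𝓞 k) ∉ l) : (m : 𝓞 M) ∉ P ∧ (2 : 𝓞 M) ∉ P ∧ (3 : 𝓞 M) ∉ P := by
  have h1 : (m : 𝓞 M) ∉ P := by
    intro h
    apply hm
    rw [← hov.2, Ideal.mem_comap, map_natCast]
    exact h
  obtain ⟨r, rfl⟩ := h6
  refine ⟨h1, fun h => h1 ?_, fun h => h1 ?_⟩
  · have e : ((6 * r : ℕ) : 𝓞 M) = 2 * (3 * (r : 𝓞 M)) := by
      push_cast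
      ring
    rw [e]
    exact P.mul_mem_right _ h
  · have e : ((6 * r : ℕ) : 𝓞 M) = 3 * (2 * (r : 𝓞 M)) := by
      push_cast
      ring
    rw [e]
    exact P.mul_mem_right _ h

theorem spl1 {τ : M ≃ₐ[k] M} (hτ : Invo k M τ) {l : Ideal (𝓞 k)} (hl : l.IsPrime) (hl0 : l ≠ ⊥) {P : Ideal (𝓞 M)}
    (hP : TA τ l P) (m : ℕ) (h6 : 6 ∣ m) (hm : (m : 𝓞 k) ∉ l) :
    2 * (Z2n m τ l 1).ncard ≤ Ideal.absNorm l ^ 5 + 6 * Ideal.absNorm l ^ 4 := by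
  classical
  have hP' := hP
  obtain ⟨hp, hp0, hex, hne, hN⟩ := hP
  have hov : Ov l P := (ov_iff hl hl0).2 ⟨hp, by
    rw [hex]
    exact Ideal.mul_le_left (I := P) (J := cI τ P)⟩
  have hov' : Ov l (cI τ P) := (ov_iff hl hl0).2 ⟨cI_prime hp, by
    rw [hex]
    exact Ideal.mul_le_right (I := P) (J := cI τ P)⟩
  obtain ⟨g1, g2, g3⟩ := good hov m h6 hm
  obtain ⟨g1', -, -⟩ := good hov' m h6 hm
  have hp1 : (P ^ 1).IsPrime := by rwa [pow_one]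
  have hp10 : P ^ 1 ≠ ⊥ := by rwa [pow_one]
  have hfin := finQ (exj_ne (M := M) hl0 1)
  -- the three sets
  let p1 : T3 M → Prop := fun c => ∃ x, x ∉ P ^ 1 ∧ x ^ 2 + dt c ∈ P ^ 1
  let p2 : T3 M → Prop := fun c => dt c ∈ P ^ 1 ∧ Pm P c
  let p3 : T3 M → Prop := fun c => c.1 ∈ P ^ 1 ∧ c.2.1 ∈ P ^ 1 ∧ c.2.2 ∈ P ^ 1
  have hc1 : 2 * (Vs (P ^ 1) p1).ncard ≤ Ideal.absNorm (P ^ 1) ^ 3 :=
    cnt1 hp1 hp10 (by rwa [pow_one])
  have hfinP := finQ hp10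
  have hc2 : (Vs (P ^ 1) p2).ncard ≤ Ideal.absNorm (P ^ 1) ^ 2 :=
    le_trans (Set.ncard_le_ncard (fun z hz c hc => (hz c hc).1) (Set.toFinite _)) (cnt2 hp1 hp10)
  have hc3 : (Vs (P ^ 1) p3).ncard ≤ 1 := cnt3
  have hN1 : Ideal.absNorm (P ^ 1) = Ideal.absNorm l := by rw [pow_one, hN]
  rw [hN1] at hc1 hc2
  -- the three parts
  let W : (T3 M → Prop) → Set (Q3 (ex M l ^ 1)) := fun p =>
    {z | ∃ b : T3 M, z = q3 (ex M l ^ 1) b ∧ E2 τ b ∈ ex M l ^ 1 ∧ q3 (P ^ 1) (cj τ b) ∈ Vs (P ^ 1) p}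
  have hW1 := sp_le hτ hP' 1 (W p1) (Vs (P ^ 1) p1) (Ideal.absNorm l ^ 2) (fun c hc => by
    obtain ⟨x, hx, hxc⟩ := hc c rfl
    rw [← hN, pow_one]
    rw [pow_one] at hx hxc
    refine z1 hp hp0 g2 g3 c fun h => hx ?_
    have h1 := P.sub_mem hxc h
    rw [add_sub_cancel_right] at h1
    exact hp.mem_of_pow_mem 2 h1) (fun z hz => hz)
  have hW2 := sp_le hτ hP' 1 (W p2) (Vs (P ^ 1) p2) (2 * Ideal.absNorm l ^ 2) (fun c hc => by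
    have h1 := gen hp hp0 c (hc c rfl).2 1
    rw [hN] at h1
    exact h1) (fun z hz => hz)
  have hW3 := sp_le hτ hP' 1 (W p3) (Vs (P ^ 1) p3) (Ideal.absNorm l ^ 3) (fun c hc => by
    have h1 := all_le hp10 (Zc c (P ^ 1))
    rw [hN1] at h1
    exact h1) (fun z hz => hz)
  have hcov : Z2n m τ l 1 ⊆ W p1 ∪ W p2 ∪ W p3 := by
    rintro _ ⟨b, ⟨hE, hNin⟩, rfl⟩
    by_cases hdt : dt (cj τ b) ∈ P ^ 1
    · by_cases h0 : (cj τ b).1 ∈ P ^ 1 ∧ (cj τ b).2.1 ∈ P ^ 1 ∧ (cj τ b).2.2 ∈ P ^ 1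
      · exact Or.inr ⟨b, rfl, hE, fun c hc => (ents_iff le_rfl hc).2 h0⟩
      · refine Or.inl (Or.inr ⟨b, rfl, hE, fun c hc => ⟨(dt_iff le_rfl hc).2 hdt, fun h => h0 ?_⟩⟩)
        rw [← pow_one P] at h
        exact (ents_iff le_rfl hc).1 h
    · refine Or.inl (Or.inl ⟨b, rfl, hE, fun c hc => ?_⟩)
      have h1 := hNin le_rfl
      have h2 : ¬ Inr m (dt b) (cI τ P) := fun h => h1 ⟨_, hov', h⟩
      unfold Inr at h2
      push Not at h2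
      obtain ⟨x, hx⟩ := h2 g1' (fun h => hdt (by
        rw [pow_one, dt_cj]
        exact mem_cI.1 h))
      have h3 : tO τ x ^ 2 + dt (cj τ b) ∈ P ^ 1 := by
        rw [pow_one, dt_cj, ← tO_pow, ← tO_add]
        exact mem_cI.1 hx
      have h4 : tO τ x ^ 2 + dt c ∈ P ^ 1 := by
        have h5 := (P ^ 1).add_mem h3 (dt_sub hc)
        rwa [show tO τ x ^ 2 + dt (cj τ b) + (dt c - dt (cj τ b)) = tO τ x ^ 2 + dt c by ring] at h5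
      refine ⟨tO τ x, fun h => hdt ?_, h4⟩
      have h5 := (P ^ 1).sub_mem h3 ((P ^ 1).pow_mem_of_mem h 2 (by norm_num))
      rwa [add_sub_cancel_left] at h5
  have h1 := Set.ncard_le_ncard hcov (Set.toFinite _)
  have h2 := Set.ncard_union_le (W p1 ∪ W p2) (W p3)
  have h3 := Set.ncard_union_le (W p1) (W p2)
  set N := Ideal.absNorm l with hNdef
  have hN2 : 2 ≤ N := two_le_N hl hl0
  have e1 : (Vs (P ^ 1) p2).ncard * (2 * N ^ 2) ≤ N ^ 2 * (2 * N ^ 2) := Nat.mul_le_mul_right _ hc2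
  have e2 : (Vs (P ^ 1) p3).ncard * N ^ 3 ≤ 1 * N ^ 3 := Nat.mul_le_mul_right _ hc3
  have e3 : 2 * (Vs (P ^ 1) p1).ncard * N ^ 2 ≤ N ^ 3 * N ^ 2 := Nat.mul_le_mul_right _ hc1
  have e4 : N ^ 3 ≤ N ^ 4 := Nat.pow_le_pow_right (by omega) (by norm_num)
  have e5 : N ^ 3 * N ^ 2 = N ^ 5 := by ring
  have e6 : N ^ 2 * (2 * N ^ 2) = 2 * N ^ 4 := by ring
  have e7 : 2 * (Vs (P ^ 1) p1).ncard * N ^ 2 = 2 * ((Vs (P ^ 1) p1).ncard * N ^ 2) := by ring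
  omega

theorem spl2 {τ : M ≃ₐ[k] M} (hτ : Invo k M τ) {l : Ideal (𝓞 k)} (hl : l.IsPrime) (hl0 : l ≠ ⊥) {P : Ideal (𝓞 M)}
    (hP : TA τ l P) (m : ℕ) (h6 : 6 ∣ m) (hm : (m : 𝓞 k) ∉ l) :
    (Z2 τ l 2).ncard ≤ 5 * Ideal.absNorm l ^ 10 := by
  classical
  have hP' := hP
  obtain ⟨hp, hp0, hex, hne, hN⟩ := hP
  have hov : Ov l P := (ov_iff hl hl0).2 ⟨hp, by
    rw [hex]
    exact Ideal.mul_le_left (I := P) (J := cI τ P)⟩
  obtain ⟨g1, g2, g3⟩ := good hov m h6 hm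
  have hp20 : P ^ 2 ≠ ⊥ := pow_ne_zero 2 hp0
  have hfin := finQ (exj_ne (M := M) hl0 2)
  have hfinP := finQ hp20
  have hle : P ^ 2 ≤ P := Ideal.pow_le_self (by norm_num)
  have hN2' : Ideal.absNorm (P ^ 2) = Ideal.absNorm l ^ 2 := by rw [map_pow, hN]
  -- the three sets
  let p1 : T3 M → Prop := fun c => dt c ∉ P
  let p2 : T3 M → Prop := fun c => dt c ∈ P ∧ Pm P c
  let p3 : T3 M → Prop := fun c => c.1 ∈ P ∧ c.2.1 ∈ P ∧ c.2.2 ∈ P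
  have hc1 : (Vs (P ^ 2) p1).ncard ≤ Ideal.absNorm (P ^ 2) ^ 3 := all_le hp20 _
  have hq : ∀ {c c' : T3 M}, q3 P c = q3 P c' → (dt c ∈ P ↔ dt c' ∈ P) := fun h => dt_iff le_rfl h
  have hc2 : (Vs (P ^ 2) p2).ncard ≤ Ideal.absNorm P ^ 2 * Ideal.absNorm P ^ 3 := by
    refine le_trans (Set.ncard_le_ncard ?_ (Set.toFinite _)) (le_trans
      (fib2 hp0 (Vs P fun c => dt c ∈ P)) (Nat.mul_le_mul_right _ (cnt2 hp hp0)))
    intro z hz c hc c' hc'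
    exact (dt_iff le_rfl hc').2 (hz c hc).1
  have hc3 : (Vs (P ^ 2) p3).ncard ≤ 1 * Ideal.absNorm P ^ 3 := by
    refine le_trans (Set.ncard_le_ncard ?_ (Set.toFinite _)) (le_trans
      (fib2 hp0 (Vs P p3)) (Nat.mul_le_mul_right _ cnt3))
    intro z hz c hc c' hc'
    exact (ents_iff le_rfl hc').2 (hz c hc)
  rw [hN2'] at hc1
  rw [hN] at hc2 hc3
  -- the three parts
  let W : (T3 M → Prop) → Set (Q3 (ex M l ^ 2)) := fun p =>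
    {z | ∃ b : T3 M, z = q3 (ex M l ^ 2) b ∧ E2 τ b ∈ ex M l ^ 2 ∧ q3 (P ^ 2) (cj τ b) ∈ Vs (P ^ 2) p}
  have hW1 := sp_le hτ hP' 2 (W p1) (Vs (P ^ 2) p1) (2 * Ideal.absNorm l ^ 4) (fun c hc => by
    rw [← hN]
    exact z2 hp hp0 g2 g3 c (hc c rfl)) (fun z hz => hz)
  have hW2 := sp_le hτ hP' 2 (W p2) (Vs (P ^ 2) p2) (2 * Ideal.absNorm l ^ 5) (fun c hc => by
    have h1 := gen hp hp0 c (hc c rfl).2 2
    rw [hN] at h1
    exact h1) (fun z hz => hz)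
  have hW3 := sp_le hτ hP' 2 (W p3) (Vs (P ^ 2) p3) (Ideal.absNorm l ^ 6) (fun c hc => by
    have h1 := all_le hp20 (Zc c (P ^ 2))
    rw [hN2', ← pow_mul] at h1
    exact h1) (fun z hz => hz)
  have hcov : Z2 τ l 2 ⊆ W p1 ∪ W p2 ∪ W p3 := by
    rintro _ ⟨b, hE, rfl⟩
    by_cases hdt : dt (cj τ b) ∈ P
    · by_cases h0 : (cj τ b).1 ∈ P ∧ (cj τ b).2.1 ∈ P ∧ (cj τ b).2.2 ∈ P
      · exact Or.inr ⟨b, rfl, hE, fun c hc => (ents_iff hle hc).2 h0⟩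
      · exact Or.inl (Or.inr ⟨b, rfl, hE, fun c hc => ⟨(dt_iff hle hc).2 hdt, fun h =>
          h0 ((ents_iff hle hc).1 h)⟩⟩)
    · exact Or.inl (Or.inl ⟨b, rfl, hE, fun c hc h => hdt ((dt_iff hle hc).1 h)⟩)
  have h1 := Set.ncard_le_ncard hcov (Set.toFinite _)
  have h2 := Set.ncard_union_le (W p1 ∪ W p2) (W p3)
  have h3 := Set.ncard_union_le (W p1) (W p2)
  set N := Ideal.absNorm l with hNdef
  have hN2 : 2 ≤ N := two_le_N hl hl0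
  have e1 : (Vs (P ^ 2) p1).ncard * (2 * N ^ 4) ≤ (N ^ 2) ^ 3 * (2 * N ^ 4) := Nat.mul_le_mul_right _ hc1
  have e2 : (Vs (P ^ 2) p2).ncard * (2 * N ^ 5) ≤ N ^ 2 * N ^ 3 * (2 * N ^ 5) := Nat.mul_le_mul_right _ hc2
  have e3 : (Vs (P ^ 2) p3).ncard * N ^ 6 ≤ 1 * N ^ 3 * N ^ 6 := Nat.mul_le_mul_right _ hc3
  have e4 : N ^ 9 ≤ N ^ 10 := Nat.pow_le_pow_right (by omega) (by norm_num)
  have e5 : (N ^ 2) ^ 3 * (2 * N ^ 4) = 2 * N ^ 10 := by ring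
  have e6 : N ^ 2 * N ^ 3 * (2 * N ^ 5) = 2 * N ^ 10 := by ring
  have e7 : 1 * N ^ 3 * N ^ 6 = N ^ 9 := by ring
  omega

end H12.AQ
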