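import Pool.Agent.H12.AQ.Gen2b
import Pool.Agent.H12.AQ.SplB
import Pool.Agent.H12.AQ.HybB
import Pool.Agent.H12.AQ.Tri
import Pool.Agent.H51.AV.Def
import Pool.Agent.H77.PX.Mer

/-!
# [H12 AQ DEN3] The hypothesis `Den` of the prefix lemma (70-110 lines)

`w i j = #Z2n m τ (p i) j / ni (p i) ^ (6 j)`, `Z2n ⊆ Z2` (finite sets: `finQ`, `exj_ne`). `B = max (B of gen2) 5`, and every `B' ≥ B`.
`w0`: `j = 0`: `(ex M l)^0 = ⊤` and `Z2n` is the set of the class of any `b`: one element (`zn_top` in H77/PX/EDef is the model). `nonneg`: clear.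
`le`: `gen2`: `#Z2 ≤ B N^(6j - (j+1)/2)`, so `w ≤ B N^(-((j+1)/2))` (`(j+1)/2 ≤ 6j`; see `den` in H77/PX/Den.lean for the computation).
`w1` with `gf`: `l ∉ Z` means `m ∉ p l`, so `3 ∉ p l` (`6 ∣ m`). `tri`: (A) `TA`: `gf = 1/2` and `spl1`: `#Z2n ≤ N^5/2 + 3 N^4`: `w 1 ≤ (1/2)/N + 3/N^2`. (B) inert: `hy1`:
`w 1 ≤ 1/N + 3/N^2`, and `gf = 1`: `ex M l` prime is not `P * cI τ P` with `P ≠ ⊤` (or: `gf ≥ ..`: only `gf = 1/2` would be bad: `TA τ l P` and `ex M l` prime is impossible: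
`P * cI τ P` prime would contain `P` or `cI τ P`, norms: `absNorm (ex M l) = N^2` (`exN`), `absNorm P = N`, `N ≥ 2`). (C) `3 ∈ p l`: impossible.
The statement `w l 1 ≤ 1/N + B/N^2` of `Den` follows from `gf ≤ 1`.
`w2`: `spl2`, `hy2`: `#Z2 ≤ 5 N^10`: `w 2 ≤ 5/N^2`.
-/

set_option autoImplicit false
set_option linter.unusedSectionVars false

open scoped NumberField
open H88.A4 H88.WS Pool.Agent.H67.WA H77.PX Pool.Agent.H12.WM H88.AQ

noncomputable section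

namespace H12.AQ

variable {k M : Type} [Field k] [NumberField k] [Field M] [NumberField M] [Algebra k M]

private theorem d3_three {K : Type} [Field K] [NumberField K] {m : ℕ} (h6 : 6 ∣ m) {l : Ideal (𝓞 K)}
    (hm : (m : 𝓞 K) ∉ l) : (3 : 𝓞 K) ∉ l := by
  intro h
  obtain ⟨c, rfl⟩ := h6
  apply hm
  have e : ((6 * c : ℕ) : 𝓞 K) = 3 * (2 * (c : 𝓞 K)) := by
    push_cast
    ring
  rw [e]
  exact l.mul_mem_right _ h

private theorem d3_sub (m : ℕ) (τ : M ≃ₐ[k] M) {l : Ideal (𝓞 k)} (hl0 : l ≠ ⊥) (j : ℕ) :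
    (Z2n m τ l j).ncard ≤ (Z2 τ l j).ncard := by
  have := finQ (exj_ne (M := M) hl0 j)
  refine Set.ncard_le_ncard ?_ (Set.toFinite _)
  rintro z ⟨b, hb, rfl⟩
  exact ⟨b, hb.1, rfl⟩

private theorem d3_gf (τ : M ≃ₐ[k] M) (l : Ideal (𝓞 k)) : gf τ l ≤ 1 := by
  unfold gf
  split_ifs <;> norm_num

private theorem d3_inert {τ : M ≃ₐ[k] M} (hτ : Invo k M τ) {l : Ideal (𝓞 k)} (hl : l.IsPrime) (hl0 : l ≠ ⊥)
    (hL : (ex M l).IsPrime) : gf τ l = 1 := by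
  unfold gf
  rw [if_neg]
  rintro ⟨P, hP⟩
  obtain ⟨h1, h2, h3, h4, h5⟩ := hP
  have hN := two_le_N hl hl0
  have hle : ∀ Q : Ideal (𝓞 M), Q ≤ ex M l → Ideal.absNorm Q = Ideal.absNorm l → False := by
    intro Q hQ hQn
    have h6 := Ideal.absNorm_dvd_absNorm_of_le hQ
    rw [exN hτ, hQn] at h6
    have h7 := Nat.le_of_dvd (by omega) h6
    nlinarith
  have h6 : P * cI τ P ≤ ex M l := h3.symm.le
  rcases hL.mul_le.1 h6 with h7 | h7
  · exact hle _ h7 h5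
  · exact hle _ h7 (by rw [cI_norm hτ, h5])

private theorem d3_w0 (m : ℕ) (τ : M ≃ₐ[k] M) (l : Ideal (𝓞 k)) : (Z2n m τ l 0).ncard = 1 := by
  have h : Z2n m τ l 0 = {q3 (ex M l ^ 0) 0} := by
    ext z
    have h1 : ∀ x : 𝓞 M, x ∈ ex M l ^ 0 := by
      intro x
      rw [pow_zero, Ideal.one_eq_top]
      exact Submodule.mem_top
    constructor
    · rintro ⟨b, -, rfl⟩
      exact q3_eq.2 ⟨h1 _, h1 _, h1 _⟩
    · intro hz
      rw [Set.mem_singleton_iff] at hz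
      rw [hz]
      exact ⟨0, ⟨h1 _, fun h => absurd h (by norm_num)⟩, rfl⟩
  rw [h, Set.ncard_singleton]

open Classical in
theorem den3 {τ : M ≃ₐ[k] M} {ω : 𝓞 M} (hs : Set3 τ ω) (m : ℕ) (h6 : 6 ∣ m) : ∃ B : ℝ, 1 ≤ B ∧ ∀ B' : ℝ, B ≤ B' →
    ∀ (n : ℕ) (p : Fin n → Ideal (𝓞 k)), (∀ i, (p i).IsPrime ∧ p i ≠ ⊥) →
      H51.AV.Den B' (fun i => ni (p i)) (Finset.univ.filter fun i => (m : 𝓞 k) ∈ p i)
        (fun i j => ((Z2n m τ (p i) j).ncard : ℝ) / ni (p i) ^ (6 * j)) ∧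
      ∀ i, (m : 𝓞 k) ∉ p i → ((Z2n m τ (p i) 1).ncard : ℝ) / ni (p i) ^ (6 * 1) ≤
        gf τ (p i) / ni (p i) + B' / ni (p i) ^ 2 := by
  obtain ⟨B1, hB1, hg⟩ := gen2 hs
  refine ⟨max B1 5, hB1.trans (le_max_left _ _), fun B' hB' n p hp => ?_⟩
  have hBB : B1 ≤ B' := (le_max_left _ _).trans hB'
  have hB5 : 5 ≤ B' := (le_max_right _ _).trans hB'
  have hN : ∀ i, 2 ≤ ni (p i) := fun i => two_le_ni (hp i).1 (hp i).2
  have hw1 : ∀ i, (m : 𝓞 k) ∉ p i → ((Z2n m τ (p i) 1).ncard : ℝ) / ni (p i) ^ (6 * 1) ≤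
        gf τ (p i) / ni (p i) + B' / ni (p i) ^ 2 := by
    intro i hi
    have hN0 : 0 < ni (p i) := by linarith [hN i]
    have h3 := d3_three h6 hi
    have h4 : 0 < ni (p i) ^ (6 * 1) := by positivity
    rcases tri hs (hp i).1 (hp i).2 with ⟨P, hP⟩ | hL | ⟨-, hc⟩
    · have h5 : gf τ (p i) = 1 / 2 := by
        unfold gf
        rw [if_pos ⟨P, hP⟩]
      have h7 := spl1 hs.inv (hp i).1 (hp i).2 hP m h6 hi
      have h8 : 2 * ((Z2n m τ (p i) 1).ncard : ℝ) ≤ ni (p i) ^ 5 + 6 * ni (p i) ^ 4 := by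
        unfold ni
        exact_mod_cast h7
      rw [h5, div_le_iff₀ h4]
      have h9 : (1 / 2 / ni (p i) + B' / ni (p i) ^ 2) * ni (p i) ^ (6 * 1) =
          1 / 2 * ni (p i) ^ 5 + B' * ni (p i) ^ 4 := by
        field_simp
      rw [h9]
      have h10 : 5 * ni (p i) ^ 4 ≤ B' * ni (p i) ^ 4 := mul_le_mul_of_nonneg_right hB5 (by positivity)
      have h11 : 0 ≤ ni (p i) ^ 4 := by positivity
      linarith
    · rw [d3_inert hs.inv (hp i).1 (hp i).2 hL]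
      have h7 := hy1 hs (hp i).1 (hp i).2 hL h3
      have h8 : ((Z2n m τ (p i) 1).ncard : ℝ) ≤ ni (p i) ^ 5 + 3 * ni (p i) ^ 4 := by
        unfold ni
        exact_mod_cast (d3_sub m τ (hp i).2 1).trans h7
      rw [div_le_iff₀ h4]
      have h9 : (1 / ni (p i) + B' / ni (p i) ^ 2) * ni (p i) ^ (6 * 1) =
          ni (p i) ^ 5 + B' * ni (p i) ^ 4 := by
        field_simp
      rw [h9]
      have h10 : 5 * ni (p i) ^ 4 ≤ B' * ni (p i) ^ 4 := mul_le_mul_of_nonneg_right hB5 (by positivity)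
      have h11 : 0 ≤ ni (p i) ^ 4 := by positivity
      linarith
    · exact absurd hc h3
  refine ⟨⟨?_, ?_, ?_, ?_, ?_⟩, hw1⟩
  · intro i
    simp only [d3_w0, mul_zero, pow_zero, Nat.cast_one, div_one]
  · intro i j
    exact div_nonneg (Nat.cast_nonneg _) (pow_nonneg (ni_nonneg _) _)
  · intro i j hj
    have hN0 : 0 < ni (p i) := by linarith [hN i]
    have h1 : ((Z2n m τ (p i) j).ncard : ℝ) ≤ B' * ni (p i) ^ (6 * j - (j + 1) / 2) := by
      refine le_trans ?_ ((hg (p i) (hp i).1 (hp i).2 j).trans (mul_le_mul_of_nonneg_right hBB (by positivity)))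
      exact_mod_cast d3_sub m τ (hp i).2 j
    have h3 : 6 * j = (6 * j - (j + 1) / 2) + (j + 1) / 2 := by omega
    rw [Real.rpow_neg hN0.le, Real.rpow_natCast, div_le_iff₀ (by positivity)]
    have h4 : B' * (ni (p i) ^ ((j + 1) / 2))⁻¹ * ni (p i) ^ (6 * j) =
        B' * ni (p i) ^ (6 * j - (j + 1) / 2) := by
      conv_lhs => rw [h3, pow_add]
      field_simp
    rw [h4]
    exact h1
  · intro i hi
    rw [Finset.mem_filter, not_and] at hi
    have hi' := hi (Finset.mem_univ i)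
    have hN0 : 0 < ni (p i) := by linarith [hN i]
    refine (hw1 i hi').trans ?_
    have h1 : gf τ (p i) / ni (p i) ≤ 1 / ni (p i) := div_le_div_of_nonneg_right (d3_gf τ _) hN0.le
    linarith
  · intro i hi
    rw [Finset.mem_filter, not_and] at hi
    have hi' := hi (Finset.mem_univ i)
    have hN0 : 0 < ni (p i) := by linarith [hN i]
    have h3 := d3_three h6 hi'
    have h4 : (Z2 τ (p i) 2).ncard ≤ 5 * Ideal.absNorm (p i) ^ 10 := by
      rcases tri hs (hp i).1 (hp i).2 with ⟨P, hP⟩ | hL | ⟨-, hc⟩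
      · exact spl2 hs.inv (hp i).1 (hp i).2 hP m h6 hi'
      · exact (hy2 hs (hp i).1 (hp i).2 hL h3).trans (Nat.mul_le_mul_right _ (by norm_num))
      · exact absurd hc h3
    have h5 : ((Z2n m τ (p i) 2).ncard : ℝ) ≤ 5 * ni (p i) ^ 10 := by
      unfold ni
      exact_mod_cast (d3_sub m τ (hp i).2 2).trans h4
    rw [div_le_div_iff₀ (by positivity) (by positivity)]
    calc ((Z2n m τ (p i) 2).ncard : ℝ) * ni (p i) ^ 2 ≤ (5 * ni (p i) ^ 10) * ni (p i) ^ 2 :=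
          mul_le_mul_of_nonneg_right h5 (by positivity)
      _ = 5 * ni (p i) ^ (6 * 2) := by ring
      _ ≤ B' * ni (p i) ^ (6 * 2) := mul_le_mul_of_nonneg_right hB5 (by positivity)

end H12.AQ
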