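import Pool.Agent.H12.AQ.Tri

/-!
# [H12 AQ NRM] The number of classes with `x τ(x)` divisible by `l^e` (80-120 lines)

`L = ex M l`, `N = absNorm l`. `fam`: by `tri`:
(A) `L = P P'`, `P' = cI τ P`, `P ≠ P'`, `absNorm P = absNorm P' = N` (`cI_norm`). `I a = P^a P'^(e-a)`, `a ≤ e`. `L^e ≤ I a`, `absNorm (I a) = N^e`. Let
    `x τx ∈ L^e ≤ P^e`. Let `a ≤ e` be the largest number with `x ∈ P^a` (`Nat.findGreatest`, or induction). If `a = e`: `x ∈ I e`. If `a < e`: `x ∉ P^(a+1)`, so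
    `τx ∈ P^(e-a)` (`vmul`), i.e. `x ∈ cI τ (P^(e-a)) = P'^(e-a)` (`cI_pow`), so `x ∈ P^a ⊓ P'^(e-a) = P^a P'^(e-a)` (coprime: `Ideal.inf_eq_mul_of_isCoprime`,
    `Ideal.isCoprime_of_isMaximal`, `IsCoprime.pow`).
(B) `L` prime, `I a = L^((e+1)/2)` for all `a`: `absNorm = N^(2 ((e+1)/2)) ≥ N^e` (`exN`), `L^e ≤ I a`. `x τx ∈ L^e`: if `x ∉ L^((e+1)/2)`, then `τx ∈ L^(e+1-(e+1)/2)`
    (`vmul`) `≤ L^((e+1)/2)`, so `x = τ(τx) ∈ L^((e+1)/2)` (`ex_tau`, `tO_tO`): contradiction.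
(C) `L = P^2`, `cI τ P = P`, `absNorm P = N`: `I a = P^e`: `absNorm = N^e`, `L^e = P^(2e) ≤ P^e`; `x τx ∈ P^(2e)`: if `x ∉ P^e` then `τx ∈ P^(2e+1-e) ≤ P^e` (`vmul`), so
    `x ∈ cI τ (P^e) = P^e` (`cI_pow`): contradiction.
`nrm`: `L^j ≤ L^e ≤ I a` (`Ideal.pow_le_pow_right`); the set is contained in the union over `a ≤ e` of the sets `mk '' I a`, which have by `cls`
`absNorm (L^j) / absNorm (I a) ≤ N^(2j) / N^e = N^(2j-e)` elements. (`Set.ncard_le_ncard`, `Finset.card_biUnion_le` or `Set.ncard_iUnion_le`.)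
-/

set_option autoImplicit false
set_option linter.unusedSectionVars false

open scoped NumberField
open H88.A4 H88.WS Pool.Agent.H67.WA H77.PX Pool.Agent.H12.WM H88.AQ

noncomputable section

namespace H12.AQ

variable {k M : Type} [Field k] [NumberField k] [Field M] [NumberField M] [Algebra k M]

theorem fam {τ : M ≃ₐ[k] M} {ω : 𝓞 M} (hs : Set3 τ ω) {l : Ideal (𝓞 k)} (hl : l.IsPrime) (hl0 : l ≠ ⊥) (e : ℕ) :
    ∃ I : ℕ → Ideal (𝓞 M), (∀ a, a ≤ e → ex M l ^ e ≤ I a ∧ Ideal.absNorm l ^ e ≤ Ideal.absNorm (I a)) ∧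
      ∀ x : 𝓞 M, x * tO τ x ∈ ex M l ^ e → ∃ a, a ≤ e ∧ x ∈ I a := by
  have hτ := hs.inv
  have hN2 : 2 ≤ Ideal.absNorm l := two_le_N hl hl0
  rcases tri hs hl hl0 with ⟨P, hP, hP0, hL, hPP, hPN⟩ | hLp | ⟨⟨P, hP, hP0, hL, hPP, hPN⟩, -⟩
  · -- split
    refine ⟨fun a => P ^ a * cI τ P ^ (e - a), fun a ha => ⟨?_, ?_⟩, fun x hx => ?_⟩
    · rw [hL, mul_pow]
      exact Ideal.mul_mono (Ideal.pow_le_pow_right ha) (Ideal.pow_le_pow_right (Nat.sub_le e a))
    · rw [map_mul, map_pow, map_pow, cI_norm hτ, hPN, ← pow_add, Nat.add_sub_cancel' ha]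
    · rw [hL, mul_pow] at hx
      have hxP : x * tO τ x ∈ P ^ e := (Ideal.mul_le_left : P ^ e * cI τ P ^ e ≤ P ^ e) hx
      classical
      obtain ⟨a, ha⟩ : ∃ a : ℕ, a = Nat.findGreatest (fun a => x ∈ P ^ a) e := ⟨_, rfl⟩
      have hae : a ≤ e := by
        rw [ha]
        exact Nat.findGreatest_le e
      have hxa : x ∈ P ^ a := by
        rw [ha]
        refine Nat.findGreatest_spec (P := fun a => x ∈ P ^ a) (Nat.zero_le e) ?_
        rw [pow_zero, Ideal.one_eq_top]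
        exact Submodule.mem_top
      refine ⟨a, hae, ?_⟩
      rcases eq_or_lt_of_le hae with h | h
      · show x ∈ P ^ a * cI τ P ^ (e - a)
        rw [h, Nat.sub_self, pow_zero, mul_one, ← h]
        exact hxa
      · have hxn : x ∉ P ^ (a + 1) := by
          have h1 := Nat.findGreatest_is_greatest (P := fun a => x ∈ P ^ a) (n := e) (k := a + 1)
            (by rw [← ha]; omega) (by omega)
          exact h1
        have h2 := vmul hP hP0 hxP hxn
        have h3 : tO τ x ∈ P ^ (e - a) := by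
          have e1 : e + 1 - (a + 1) = e - a := by omega
          rwa [e1] at h2
        have h4 : x ∈ cI τ P ^ (e - a) := by
          rw [← cI_pow hτ]
          exact mem_cI.2 h3
        have hPm : P.IsMaximal := hP.isMaximal hP0
        have hcPm : (cI τ P).IsMaximal := (cI_prime hP).isMaximal (cI_ne hτ hP0)
        have hcop : IsCoprime P (cI τ P) := Ideal.isCoprime_of_isMaximal hPP
        show x ∈ P ^ a * cI τ P ^ (e - a)
        rw [Ideal.mul_eq_inf_of_isCoprime (hcop.pow)]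
        exact ⟨hxa, h4⟩
  · -- inert
    have hL0 : ex M l ≠ ⊥ := ex_ne hl0
    refine ⟨fun _ => ex M l ^ ((e + 1) / 2), fun a _ => ⟨?_, ?_⟩, fun x hx => ⟨0, Nat.zero_le e, ?_⟩⟩
    · exact Ideal.pow_le_pow_right (by omega)
    · rw [map_pow, exN hτ, ← pow_mul]
      exact Nat.pow_le_pow_right (by omega) (by omega)
    · by_contra hx2
      have h2 := vmul hLp hL0 hx hx2
      have h3 : tO τ x ∈ ex M l ^ ((e + 1) / 2) := Ideal.pow_le_pow_right (by omega) h2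
      have h4 := ex_tau τ h3
      rw [tO_tO hτ] at h4
      exact hx2 h4
  · -- ramified
    refine ⟨fun _ => P ^ e, fun a _ => ⟨?_, ?_⟩, fun x hx => ⟨0, Nat.zero_le e, ?_⟩⟩
    · rw [hL, ← pow_mul]
      exact Ideal.pow_le_pow_right (by omega)
    · rw [map_pow, hPN]
    · by_contra hx2
      rw [hL, ← pow_mul] at hx
      have h2 := vmul hP hP0 hx hx2
      have h3 : tO τ x ∈ P ^ e := Ideal.pow_le_pow_right (by omega) h2
      have h4 : x ∈ cI τ (P ^ e) := mem_cI.2 h3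
      rw [cI_pow hτ, hPP] at h4
      exact hx2 h4

theorem nrm {τ : M ≃ₐ[k] M} {ω : 𝓞 M} (hs : Set3 τ ω) {l : Ideal (𝓞 k)} (hl : l.IsPrime) (hl0 : l ≠ ⊥) {j e : ℕ}
    (he : e ≤ j) : (Ideal.Quotient.mk (ex M l ^ j) '' {x | x * tO τ x ∈ ex M l ^ e}).ncard ≤
      (e + 1) * Ideal.absNorm l ^ (2 * j - e) := by
  have hτ := hs.inv
  have hN2 : 2 ≤ Ideal.absNorm l := two_le_N hl hl0
  obtain ⟨I, hI1, hI2⟩ := fam hs hl hl0 e
  have hfin : Finite (𝓞 M ⧸ (ex M l ^ j)) := finQ (exj_ne hl0 j)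
  have hle : ∀ a, a ≤ e → ex M l ^ j ≤ I a := fun a ha =>
    (Ideal.pow_le_pow_right he).trans (hI1 a ha).1
  have hone : ∀ a, a ≤ e → (Ideal.Quotient.mk (ex M l ^ j) '' {x | x ∈ I a}).ncard ≤
      Ideal.absNorm l ^ (2 * j - e) := by
    intro a ha
    have h1 := cls (hle a ha)
    rw [map_pow, exN hτ, ← pow_mul] at h1
    have h2 : (Ideal.Quotient.mk (ex M l ^ j) '' {x | x ∈ I a}).ncard * Ideal.absNorm l ^ e ≤
        Ideal.absNorm l ^ (2 * j - e) * Ideal.absNorm l ^ e := by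
      rw [← pow_add, Nat.sub_add_cancel (by omega), ← h1]
      exact Nat.mul_le_mul_left _ (hI1 a ha).2
    exact Nat.le_of_mul_le_mul_right h2 (pow_pos (by omega) e)
  have hsub : Ideal.Quotient.mk (ex M l ^ j) '' {x | x * tO τ x ∈ ex M l ^ e} ⊆
      ⋃ a ∈ Finset.range (e + 1), Ideal.Quotient.mk (ex M l ^ j) '' {x | x ∈ I a} := by
    rintro _ ⟨x, hx, rfl⟩
    obtain ⟨a, ha, hxa⟩ := hI2 x hx
    rw [Set.mem_iUnion₂]
    exact ⟨a, Finset.mem_range.2 (by omega), x, hxa, rfl⟩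
  refine (Set.ncard_le_ncard hsub (Set.toFinite _)).trans ?_
  refine (Finset.set_ncard_biUnion_le _ _).trans ?_
  refine (Finset.sum_le_sum fun a ha => hone a (by rw [Finset.mem_range] at ha; omega)).trans ?_
  rw [Finset.sum_const, Finset.card_range, smul_eq_mul]

end H12.AQ
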