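import Pool.Agent.H12.AQ.Lin
import Pool.Agent.H12.AQ.Nrm

/-!
# [H12 AQ GEN2A] The number of classes modulo `l^j`, as a sum over the exponent of `b1 τ(b1)` (80-120 lines)

`L = ex M l`, `N = absNorm l`. `T_e` (`e < j`) = the set of the `z = q3 (L^j) b ∈ Z2 τ l j` with `b1 τb1 ∈ L^e`, `b1 τb1 ∉ L^(e+1)`, and `T_j` those with
`b1 τb1 ∈ L^j` (`b1 = b.1`; the conditions depend only on the class of `b1` modulo `L^j` as `e + 1 ≤ j`; one can also take any representative `b`). Every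
`z ∈ Z2 τ l j` is in one `T_e`, `e ≤ j` (the largest `e ≤ j` with `b1 τb1 ∈ L^e`; `Nat.findGreatest` or induction on `e`).
`e < j`: `b1 τb1` is fixed by `τ`, the image of `n ∈ 𝓞 k` (`fixed_int`), `n ∉ l^(e+1)`, `3 ∉ l^(v+1)`, so `3 n ∉ l^(e+v+1)` (`vmul`: if `3 n ∈ l^(e+v+1)`, `3 ∉ l^(v+1)`,
then `n ∈ l^(e+v+2-(v+1)) = l^(e+1)`), `3 b1 τb1 ∉ L^(e+v+1)` (`alg_mem_ex_iff`). So for given classes of `b1, b2` the number of classes of `b3` is
`≤ 2 N^(j + (j + (e+v))/2)` (`lin`; choose representatives: the set of the `mk x` with `E2 (b1, b2, x) ∈ L^j` depends only on the classes of `b1, b2`: `E2_congr`).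
The number of the classes of `b1` is `≤ (e+1) N^(2j-e)` (`nrm`), of `b2`: `N^(2j)` (`cardL`).
`T_j`: `≤ (j+1) N^(2j-j) N^(2j) N^(2j)` (`nrm`, `cardL`). (Counting: `Finset.card_le_mul_card_image` for the map to the class of `(b1, b2)`.)
-/

set_option autoImplicit false
set_option linter.unusedSectionVars false

open scoped NumberField
open H88.A4 H88.WS Pool.Agent.H67.WA H77.PX Pool.Agent.H12.WM H88.AQ

noncomputable section

namespace H12.AQ

variable {k M : Type} [Field k] [NumberField k] [Field M] [NumberField M] [Algebra k M]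

/-- counting triples -/
private theorem gn_cnt {G : Type} [Finite G] (T : Set (G × G × G)) (A : Set G) (c : ℕ)
    (hA : ∀ z ∈ T, z.1 ∈ A) (hc : ∀ u w, {t | (u, w, t) ∈ T}.ncard ≤ c) :
    T.ncard ≤ A.ncard * Nat.card G * c := by
  classical
  have hG : Fintype G := Fintype.ofFinite _
  rw [Set.ncard_eq_toFinset_card' T, Set.ncard_eq_toFinset_card' A, Nat.card_eq_fintype_card]
  have h1 := Finset.card_le_mul_card_image_of_maps_to (f := fun z : G × G × G => (z.1, z.2.1))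
    (s := T.toFinset) (t := A.toFinset ×ˢ (Finset.univ : Finset G)) (fun z hz => by
      rw [Finset.mem_product]
      exact ⟨Set.mem_toFinset.2 (hA z (Set.mem_toFinset.1 hz)), Finset.mem_univ _⟩) c (fun a _ => by
      refine le_trans ?_ (hc a.1 a.2)
      rw [Set.ncard_eq_toFinset_card']
      refine Finset.card_le_card_of_injOn (fun z => z.2.2) ?_ ?_
      · intro z hz
        rw [Finset.mem_coe, Finset.mem_filter] at hz
        rw [Finset.mem_coe, Set.mem_toFinset]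
        have h2 : (a.1, a.2, z.2.2) = z := by
          rw [← hz.2]
        show (a.1, a.2, z.2.2) ∈ T
        rw [h2]
        exact Set.mem_toFinset.1 hz.1
      · intro z hz z' hz' hzz
        rw [Finset.mem_coe, Finset.mem_filter] at hz hz'
        have h2 := hz.2.trans hz'.2.symm
        have h3 := Prod.mk.inj h2
        exact Prod.ext h3.1 (Prod.ext h3.2 hzz))
  rw [Finset.card_product, Finset.card_univ] at h1
  rw [mul_comm]
  exact h1

/-- the exponent of `3 b1 τ(b1)` -/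
private theorem gn_three {τ : M ≃ₐ[k] M} (hτ : Invo k M τ) {l : Ideal (𝓞 k)} (hl : l.IsPrime)
    (hl0 : l ≠ ⊥) {v e : ℕ} (h3 : (3 : 𝓞 k) ∉ l ^ (v + 1)) {x : 𝓞 M}
    (hx : x * tO τ x ∉ ex M l ^ (e + 1)) : 3 * (x * tO τ x) ∉ ex M l ^ (e + v + 1) := by
  intro h
  obtain ⟨n, hn⟩ := fixed_int hτ (x := x * tO τ x) (by rw [tO_mul, tO_tO hτ, mul_comm])
  rw [← hn] at h hx
  have h1 : (3 : 𝓞 M) * algebraMap (𝓞 k) (𝓞 M) n = algebraMap (𝓞 k) (𝓞 M) (3 * n) := by
    rw [map_mul, map_ofNat]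
  rw [h1, alg_mem_ex_iff] at h
  have h2 := vmul hl hl0 h h3
  rw [show e + v + 1 + 1 - (v + 1) = e + 1 by omega] at h2
  exact hx (alg_mem_ex_iff.2 h2)

theorem gen2a {τ : M ≃ₐ[k] M} {ω : 𝓞 M} (hs : Set3 τ ω) {l : Ideal (𝓞 k)} (hl : l.IsPrime) (hl0 : l ≠ ⊥) (j v : ℕ)
    (h3 : (3 : 𝓞 k) ∉ l ^ (v + 1)) :
    (Z2 τ l j).ncard ≤ (j + 1) * Ideal.absNorm l ^ (5 * j) +
      ∑ e ∈ Finset.range j, (e + 1) * Ideal.absNorm l ^ (2 * j - e) * Ideal.absNorm l ^ (2 * j) *
        (2 * Ideal.absNorm l ^ (j + (j + (e + v)) / 2)) := by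
  classical
  have hτ := hs.inv
  have hL0 : ex M l ^ j ≠ ⊥ := exj_ne hl0 j
  have hfG : Finite (𝓞 M ⧸ (ex M l ^ j)) := finQ hL0
  have hG : Fintype (𝓞 M ⧸ (ex M l ^ j)) := Fintype.ofFinite _
  obtain ⟨T, hT⟩ : ∃ T : ℕ → Set (Q3 (ex M l ^ j)), ∀ e, T e = q3 (ex M l ^ j) ''
    {b | E2 τ b ∈ ex M l ^ j ∧ b.1 * tO τ b.1 ∈ ex M l ^ e ∧ b.1 * tO τ b.1 ∉ ex M l ^ (e + 1)} :=
    ⟨_, fun e => rfl⟩
  obtain ⟨U, hU⟩ : ∃ U : Set (Q3 (ex M l ^ j)), U = q3 (ex M l ^ j) ''
    {b | E2 τ b ∈ ex M l ^ j ∧ b.1 * tO τ b.1 ∈ ex M l ^ j} := ⟨_, rfl⟩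
  have hUc : U.ncard ≤ (j + 1) * Ideal.absNorm l ^ (5 * j) := by
    have h1 := gn_cnt U (Ideal.Quotient.mk (ex M l ^ j) '' {x | x * tO τ x ∈ ex M l ^ j})
      (Nat.card (𝓞 M ⧸ (ex M l ^ j))) (fun z hz => by
        rw [hU] at hz
        obtain ⟨b, hb, rfl⟩ := hz
        exact ⟨b.1, hb.2, rfl⟩) (fun u w => by
        rw [← Set.ncard_univ]
        exact Set.ncard_le_ncard (Set.subset_univ _) (Set.toFinite _))
    refine h1.trans ?_
    rw [cardL hτ]
    refine (Nat.mul_le_mul (Nat.mul_le_mul (nrm hs hl hl0 le_rfl) le_rfl) le_rfl).trans (le_of_eq ?_)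
    rw [mul_assoc, mul_assoc, ← pow_add, ← pow_add]
    congr 2
    omega
  have hTc : ∀ e ∈ Finset.range j, (T e).ncard ≤ (e + 1) * Ideal.absNorm l ^ (2 * j - e) *
      Ideal.absNorm l ^ (2 * j) * (2 * Ideal.absNorm l ^ (j + (j + (e + v)) / 2)) := by
    intro e he
    rw [Finset.mem_range] at he
    have h1 := gn_cnt (T e) (Ideal.Quotient.mk (ex M l ^ j) '' {x | x * tO τ x ∈ ex M l ^ e})
      (2 * Ideal.absNorm l ^ (j + (j + (e + v)) / 2)) (fun z hz => by
        rw [hT] at hz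
        obtain ⟨b, hb, rfl⟩ := hz
        exact ⟨b.1, hb.2.1, rfl⟩) (fun u w => by
        rcases Set.eq_empty_or_nonempty {t | (u, w, t) ∈ T e} with h0 | ⟨t0, ht0⟩
        · rw [h0, Set.ncard_empty]
          exact Nat.zero_le _
        · have ht1 : (u, w, t0) ∈ T e := ht0
          rw [hT] at ht1
          obtain ⟨b, hb, hbt⟩ := ht1
          refine le_trans (Set.ncard_le_ncard ?_ (Set.toFinite _))
            (lin hs hl hl0 j (e + v) b.1 b.2.1 (gn_three hτ hl hl0 h3 hb.2.2))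
          intro t ht
          have ht1 : (u, w, t) ∈ T e := ht
          rw [hT] at ht1
          obtain ⟨b', hb', hbt'⟩ := ht1
          have e1 : Ideal.Quotient.mk (ex M l ^ j) b.1 = u := congrArg Prod.fst hbt
          have e2 : Ideal.Quotient.mk (ex M l ^ j) b.2.1 = w := congrArg (fun z => z.2.1) hbt
          have f1 : Ideal.Quotient.mk (ex M l ^ j) b'.1 = u := congrArg Prod.fst hbt'
          have f2 : Ideal.Quotient.mk (ex M l ^ j) b'.2.1 = w := congrArg (fun z => z.2.1) hbt'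
          have f3 : Ideal.Quotient.mk (ex M l ^ j) b'.2.2 = t := congrArg (fun z => z.2.2) hbt'
          refine ⟨b'.2.2, ?_, f3⟩
          have h4 : E2 τ (b.1, b.2.1, b'.2.2) - E2 τ b' ∈ ex M l ^ j :=
            E2_congr τ (q3_eq.2 ⟨Ideal.Quotient.eq.1 (e1.trans f1.symm),
              Ideal.Quotient.eq.1 (e2.trans f2.symm), by simp⟩)
          have h5 := (ex M l ^ j).add_mem h4 hb'.1
          rwa [sub_add_cancel] at h5)
    refine h1.trans ?_
    rw [cardL hτ]
    exact Nat.mul_le_mul (Nat.mul_le_mul (nrm hs hl hl0 he.le) le_rfl) le_rfl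
  have hsub : (Z2 τ l j).toFinset ⊆ U.toFinset ∪ (Finset.range j).biUnion fun e => (T e).toFinset := by
    intro z hz
    rw [Set.mem_toFinset] at hz
    obtain ⟨b, hb, rfl⟩ := hz
    rw [Finset.mem_union, Finset.mem_biUnion, Set.mem_toFinset]
    by_cases hj : b.1 * tO τ b.1 ∈ ex M l ^ j
    · left
      rw [hU]
      exact ⟨b, ⟨hb, hj⟩, rfl⟩
    · right
      have hex : ∃ m, b.1 * tO τ b.1 ∉ ex M l ^ m := ⟨j, hj⟩
      have h1 := Nat.find_spec hex
      have h2 : Nat.find hex ≤ j := Nat.find_min' hex hj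
      have h4 : Nat.find hex ≠ 0 := by
        intro h0
        rw [h0, pow_zero, Ideal.one_eq_top] at h1
        exact h1 trivial
      obtain ⟨e, he⟩ := Nat.exists_eq_succ_of_ne_zero h4
      have h5 : b.1 * tO τ b.1 ∈ ex M l ^ e := by
        have := Nat.find_min hex (m := e) (by omega)
        rwa [not_not] at this
      rw [he] at h1
      refine ⟨e, Finset.mem_range.2 (by omega), ?_⟩
      rw [Set.mem_toFinset, hT]
      exact ⟨b, ⟨hb, h5, h1⟩, rfl⟩
  rw [Set.ncard_eq_toFinset_card' (Z2 τ l j)]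
  refine (Finset.card_le_card hsub).trans ((Finset.card_union_le _ _).trans (Nat.add_le_add ?_ ?_))
  · rw [← Set.ncard_eq_toFinset_card' U]
    exact hUc
  · refine Finset.card_biUnion_le.trans (Finset.sum_le_sum fun e he => ?_)
    rw [← Set.ncard_eq_toFinset_card' (T e)]
    exact hTc e he

end H12.AQ
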