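import Pool.Agent.H12.AQ.Gen2a

/-!
# [H12 AQ GEN2B] The general bound for the number of classes (60-100 lines)

`N = absNorm l ≥ 2` (`two_le_N`). Let `v` be the largest number with `3 ∈ l^v` (`3 ≠ 0`, `l ≠ ⊤`: it exists; `N^v = absNorm (l^v) ≤ absNorm (span {3}) = D3`,
`Ideal.absNorm_dvd_absNorm_of_le` and `D3 > 0`; this also shows that `v` is bounded: `2^v ≤ D3`, e.g. `Nat.find` for `∃ v, 3 ∉ l^(v+1)`). `B = 2 + 2 S D3` with
`S = ∑' e, (e + 1) / 2^(e/2)` (natural division `e/2`; summable: `(e+1) / 2^(e/2) ≤ 2 (e+1) (3/4)^e` as `2^(e/2) ≥ ..`; or use the closed form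
`∑_{e < 2i} (e+1)/2^(e/2) = 14 - (8i + 14)/2^i ≤ 14` by induction on `i`, and take `S = 14`).
`gen2a`: (1) `(j+1) N^(5j) ≤ 2 N^(5j + j/2)`, as `j + 1 ≤ 2 * 2^(j/2)` (induction in steps of two), and `5j + j/2 = 6j - (j+1)/2` (`omega`).
(2) `e < j`: `(2j - e) + 2j + (j + (j+e+v)/2) ≤ (5j + j/2) + v - e/2` (all natural divisions; with `e/2 ≤ j/2`; `omega`), so the term is
`≤ 2 (e+1) N^v N^(5j + j/2) / N^(e/2) ≤ 2 D3 N^(5j+j/2) (e+1)/2^(e/2)`; sum over `e`: `≤ 2 D3 S N^(5j+j/2)`.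
-/

set_option autoImplicit false
set_option linter.unusedSectionVars false

open scoped NumberField
open H88.A4 H88.WS Pool.Agent.H67.WA H77.PX Pool.Agent.H12.WM H88.AQ

noncomputable section

namespace H12.AQ

variable {k M : Type} [Field k] [NumberField k] [Field M] [NumberField M] [Algebra k M]

private theorem gb_half (j : ℕ) : j + 1 ≤ 2 * 2 ^ (j / 2) := by
  induction j using Nat.strong_induction_on with
  | _ j ih =>
    rcases j with _ | _ | j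
    · norm_num
    · norm_num
    · have h1 := ih j (by omega)
      have h2 : (j + 1 + 1) / 2 = j / 2 + 1 := by omega
      rw [h2, pow_succ]
      rcases Nat.eq_zero_or_pos j with h0 | h0
      · subst h0
        norm_num
      · omega

private theorem gb_sum0 (i : ℕ) : ∑ e ∈ Finset.range (2 * i), ((e : ℝ) + 1) / 2 ^ (e / 2) =
    14 - (8 * i + 14) / 2 ^ i := by
  induction i with
  | zero => norm_num
  | succ i ih =>
    rw [show 2 * (i + 1) = 2 * i + 1 + 1 by ring, Finset.sum_range_succ, Finset.sum_range_succ, ih]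
    have h1 : 2 * i / 2 = i := by omega
    have h2 : (2 * i + 1) / 2 = i := by omega
    rw [h1, h2]
    push_cast
    have h3 : (2 : ℝ) ^ i ≠ 0 := by positivity
    field_simp
    ring

private theorem gb_sum (j : ℕ) : ∑ e ∈ Finset.range j, ((e : ℝ) + 1) / 2 ^ (e / 2) ≤ 14 := by
  have h1 : ∑ e ∈ Finset.range j, ((e : ℝ) + 1) / 2 ^ (e / 2) ≤
      ∑ e ∈ Finset.range (2 * j), ((e : ℝ) + 1) / 2 ^ (e / 2) :=
    Finset.sum_le_sum_of_subset_of_nonneg (Finset.range_mono (by omega)) fun e _ _ => by positivity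
  rw [gb_sum0] at h1
  have h2 : (0 : ℝ) ≤ (8 * j + 14) / 2 ^ j := by positivity
  linarith

theorem gen2 {τ : M ≃ₐ[k] M} {ω : 𝓞 M} (hs : Set3 τ ω) : ∃ B : ℝ, 1 ≤ B ∧ ∀ l : Ideal (𝓞 k), l.IsPrime → l ≠ ⊥ →
    ∀ j : ℕ, ((Z2 τ l j).ncard : ℝ) ≤ B * ni l ^ (6 * j - (j + 1) / 2) := by
  classical
  obtain ⟨D, hD⟩ : ∃ D : ℕ, D = Ideal.absNorm (Ideal.span {(3 : 𝓞 k)}) := ⟨_, rfl⟩
  have hD0 : D ≠ 0 := by
    rw [hD, Ne, Ideal.absNorm_eq_zero_iff, Ideal.span_singleton_eq_bot]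
    norm_num
  have hD1 : (0 : ℝ) ≤ D := Nat.cast_nonneg D
  refine ⟨2 + 28 * D, by linarith, fun l hl hl0 j => ?_⟩
  have hN2 := two_le_N hl hl0
  obtain ⟨N, hN⟩ : ∃ N : ℕ, N = Ideal.absNorm l := ⟨_, rfl⟩
  rw [← hN] at hN2
  have hmem : ∀ m : ℕ, (3 : 𝓞 k) ∈ l ^ m → N ^ m ≤ D := by
    intro m hm
    have h1 : Ideal.span {(3 : 𝓞 k)} ≤ l ^ m := (Ideal.span_singleton_le_iff_mem _).2 hm
    have h2 := Ideal.absNorm_dvd_absNorm_of_le h1
    rw [map_pow, ← hN, ← hD] at h2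
    exact Nat.le_of_dvd (Nat.pos_of_ne_zero hD0) h2
  have hex : ∃ m : ℕ, (3 : 𝓞 k) ∉ l ^ m := by
    refine ⟨D, fun h => ?_⟩
    have h1 := hmem D h
    have h2 : D < 2 ^ D := Nat.lt_two_pow_self
    have h3 : 2 ^ D ≤ N ^ D := Nat.pow_le_pow_left hN2 D
    omega
  have hs1 := Nat.find_spec hex
  have h0 : Nat.find hex ≠ 0 := by
    intro h0
    rw [h0, pow_zero, Ideal.one_eq_top] at hs1
    exact hs1 trivial
  obtain ⟨v, hv⟩ := Nat.exists_eq_succ_of_ne_zero h0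
  have hv3 : (3 : 𝓞 k) ∈ l ^ v := by
    have := Nat.find_min hex (m := v) (by omega)
    rwa [not_not] at this
  rw [hv] at hs1
  have hNv : (N : ℝ) ^ v ≤ D := by exact_mod_cast hmem v hv3
  have hg := gen2a hs hl hl0 j v hs1
  rw [← hN] at hg
  have hNR : (2 : ℝ) ≤ N := by exact_mod_cast hN2
  have hN1 : (1 : ℝ) ≤ N := by linarith
  have hexp : 6 * j - (j + 1) / 2 = 5 * j + j / 2 := by omega
  have hni : ni l = (N : ℝ) := by rw [hN]; rfl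
  rw [hexp, hni]
  have hg' : ((Z2 τ l j).ncard : ℝ) ≤ ((j : ℝ) + 1) * (N : ℝ) ^ (5 * j) +
      ∑ e ∈ Finset.range j, ((e : ℝ) + 1) * (N : ℝ) ^ (2 * j - e) * (N : ℝ) ^ (2 * j) *
        (2 * (N : ℝ) ^ (j + (j + (e + v)) / 2)) := by exact_mod_cast hg
  have h1 : ((j : ℝ) + 1) * (N : ℝ) ^ (5 * j) ≤ 2 * (N : ℝ) ^ (5 * j + j / 2) := by
    have h2 : ((j : ℝ) + 1) ≤ 2 * 2 ^ (j / 2) := by exact_mod_cast gb_half j
    have h3 : (2 : ℝ) ^ (j / 2) ≤ (N : ℝ) ^ (j / 2) := pow_le_pow_left₀ (by norm_num) hNR _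
    rw [pow_add, mul_comm ((N : ℝ) ^ (5 * j)), ← mul_assoc]
    exact mul_le_mul_of_nonneg_right (by linarith) (by positivity)
  have h2 : ∀ e ∈ Finset.range j, ((e : ℝ) + 1) * (N : ℝ) ^ (2 * j - e) * (N : ℝ) ^ (2 * j) *
        (2 * (N : ℝ) ^ (j + (j + (e + v)) / 2)) ≤
      2 * D * (N : ℝ) ^ (5 * j + j / 2) * (((e : ℝ) + 1) / 2 ^ (e / 2)) := by
    intro e he
    rw [Finset.mem_range] at he
    have h3 : ((e : ℝ) + 1) * (N : ℝ) ^ (2 * j - e) * (N : ℝ) ^ (2 * j) *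
        (2 * (N : ℝ) ^ (j + (j + (e + v)) / 2)) =
        2 * ((e : ℝ) + 1) * (N : ℝ) ^ ((2 * j - e) + 2 * j + (j + (j + (e + v)) / 2)) := by
      rw [pow_add _ (2 * j - e + 2 * j), pow_add _ (2 * j - e)]
      ring
    have h4 : (2 * j - e) + 2 * j + (j + (j + (e + v)) / 2) + e / 2 ≤ 5 * j + j / 2 + v := by omega
    have h5 : (N : ℝ) ^ ((2 * j - e) + 2 * j + (j + (j + (e + v)) / 2)) * 2 ^ (e / 2) ≤
        D * (N : ℝ) ^ (5 * j + j / 2) := by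
      have h6 : (2 : ℝ) ^ (e / 2) ≤ (N : ℝ) ^ (e / 2) := pow_le_pow_left₀ (by norm_num) hNR _
      calc (N : ℝ) ^ ((2 * j - e) + 2 * j + (j + (j + (e + v)) / 2)) * 2 ^ (e / 2)
          ≤ (N : ℝ) ^ ((2 * j - e) + 2 * j + (j + (j + (e + v)) / 2)) * (N : ℝ) ^ (e / 2) :=
            mul_le_mul_of_nonneg_left h6 (by positivity)
        _ = (N : ℝ) ^ ((2 * j - e) + 2 * j + (j + (j + (e + v)) / 2) + e / 2) := by rw [← pow_add]
        _ ≤ (N : ℝ) ^ (5 * j + j / 2 + v) := pow_le_pow_right₀ hN1 h4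
        _ = (N : ℝ) ^ v * (N : ℝ) ^ (5 * j + j / 2) := by rw [pow_add, mul_comm]
        _ ≤ D * (N : ℝ) ^ (5 * j + j / 2) := mul_le_mul_of_nonneg_right hNv (by positivity)
    rw [h3]
    have h7 : (0 : ℝ) < 2 ^ (e / 2) := by positivity
    have h8 : (N : ℝ) ^ ((2 * j - e) + 2 * j + (j + (j + (e + v)) / 2)) ≤
        D * (N : ℝ) ^ (5 * j + j / 2) / 2 ^ (e / 2) := (le_div_iff₀ h7).2 h5
    calc 2 * ((e : ℝ) + 1) * (N : ℝ) ^ ((2 * j - e) + 2 * j + (j + (j + (e + v)) / 2))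
        ≤ 2 * ((e : ℝ) + 1) * (D * (N : ℝ) ^ (5 * j + j / 2) / 2 ^ (e / 2)) :=
          mul_le_mul_of_nonneg_left h8 (by positivity)
      _ = 2 * D * (N : ℝ) ^ (5 * j + j / 2) * (((e : ℝ) + 1) / 2 ^ (e / 2)) := by ring
  have h3 := Finset.sum_le_sum h2
  rw [← Finset.mul_sum] at h3
  have h4 : 2 * D * (N : ℝ) ^ (5 * j + j / 2) * ∑ e ∈ Finset.range j, (((e : ℝ) + 1) / 2 ^ (e / 2)) ≤
      2 * D * (N : ℝ) ^ (5 * j + j / 2) * 14 := mul_le_mul_of_nonneg_left (gb_sum j) (by positivity)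
  calc ((Z2 τ l j).ncard : ℝ) ≤ _ := hg'
    _ ≤ 2 * (N : ℝ) ^ (5 * j + j / 2) + 2 * D * (N : ℝ) ^ (5 * j + j / 2) * 14 :=
      add_le_add h1 (h3.trans h4)
    _ = (2 + 28 * D) * (N : ℝ) ^ (5 * j + j / 2) := by ring

end H12.AQ
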