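import Pool.Agent.H12.AQ.Val

/-!
# [H12 AQ HYBA] The identity `U V = δ^4 - 3 N(b1)^2 E` (60-100 lines)

`uv`: unfold, `E2_eq`, `ring_nf` is too long: use `linear_combination (coefficient) * hs.om` (both sides are polynomials in `b1, b2, b3, τb1, τb2, τb3, ω`; their
difference is divisible by `ω^2 + ω + 1`; e.g. replace `ω^2` by `-1 - ω` everywhere first: `have h2 : ω ^ 2 = -1 - ω`, `simp only [h2]`, then `ring_nf` leaves multiples of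
`ω^2`; the quotient can be computed with the computer). Generalize `tO τ b.1 = x1` etc. before.
`uv_fix`: `τ` exchanges the two terms (`tO_tO`, `hs.tau`, `ω^4 = ω`).
`uv_inj`: `b`, `b'` with the same `b1, b2`; `d = b3 - b3'`, `z = b1 τd`, `n = b1 τb1`: `U b - U b' = n ((1 - ω^2) z + (1 - ω) τz)`,
`V b - V b' = n ((1 - ω) z + (1 - ω^2) τz)`, so `(1 - ω^2) (U b - U b') - (1 - ω) (V b - V b') = 3 (ω - ω^2) n z` and, multiplied by `ω - ω^2`: `- 9 n z ∈ L^j`.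
`L` is prime, `3 ∉ L`, `b1 ∉ L`, `τb1 ∉ L` (`ex_tau0`, `tO_tO`): `z ∈ L^j`, `τd ∈ L^j` (`Ideal.IsPrime.mul_mem_pow`: `u v ∈ L^j`, `u ∉ L` imply `v ∈ L^j`), `d ∈ L^j`
(`ex_tau`, `tO_tO`).
-/

set_option autoImplicit false
set_option linter.unusedSectionVars false

open scoped NumberField
open H88.A4 H88.WS Pool.Agent.H67.WA H77.PX Pool.Agent.H12.WM H88.AQ

noncomputable section

namespace H12.AQ

variable {k M : Type} [Field k] [NumberField k] [Field M] [NumberField M] [Algebra k M]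

/-- `δ = b1 τ(b2) - τ(b1) b2` -/
def dd (τ : M ≃ₐ[k] M) (b1 b2 : 𝓞 M) : 𝓞 M := b1 * tO τ b2 - tO τ b1 * b2

/-- `U` -/
def UU (τ : M ≃ₐ[k] M) (ω : 𝓞 M) (b : T3 M) : 𝓞 M :=
  b.1 * tO τ b.1 * ((1 - ω ^ 2) * (b.1 * tO τ b.2.2) + (1 - ω) * (tO τ b.1 * b.2.2)) -
    4 * (b.1 * tO τ b.1 * b.2.1 * tO τ b.2.1) - (ω * (b.1 * tO τ b.2.1) ^ 2 + ω ^ 2 * (tO τ b.1 * b.2.1) ^ 2)

/-- `V` -/
def VV (τ : M ≃ₐ[k] M) (ω : 𝓞 M) (b : T3 M) : 𝓞 M :=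
  b.1 * tO τ b.1 * ((1 - ω) * (b.1 * tO τ b.2.2) + (1 - ω ^ 2) * (tO τ b.1 * b.2.2)) -
    4 * (b.1 * tO τ b.1 * b.2.1 * tO τ b.2.1) - (ω ^ 2 * (b.1 * tO τ b.2.1) ^ 2 + ω * (tO τ b.1 * b.2.1) ^ 2)

private theorem cyc3 {R : Type*} [CommRing R] {ω : R} (h : ω ^ 2 + ω + 1 = 0) (u0 u1 u2 : R) :
    (u0 + u1 * ω + u2 * ω ^ 2) * (u0 + u2 * ω + u1 * ω ^ 2) =
      u0 ^ 2 + u1 ^ 2 + u2 ^ 2 - u0 * u1 - u1 * u2 - u2 * u0 := by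
  linear_combination (u2 * u1 * ω ^ 2 + (u1 ^ 2 + u2 ^ 2 - u2 * u1) * ω +
    (u0 * u1 + u1 * u2 + u2 * u0 - u1 ^ 2 - u2 ^ 2)) * h

theorem uv {τ : M ≃ₐ[k] M} {ω : 𝓞 M} (hs : Set3 τ ω) (b : T3 M) :
    UU τ ω b * VV τ ω b = dd τ b.1 b.2.1 ^ 4 - 3 * (b.1 * tO τ b.1) ^ 2 * E2 τ b := by
  rw [E2_eq]
  unfold UU VV dd
  generalize tO τ b.1 = y1
  generalize tO τ b.2.1 = y2
  generalize tO τ b.2.2 = y3
  generalize b.1 = x1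
  generalize b.2.1 = x2
  generalize b.2.2 = x3
  have h := cyc3 hs.om (x1 * y1 * (x1 * y3) + x1 * y1 * (y1 * x3) - 4 * (x1 * y1 * x2 * y2))
    (-(x1 * y1 * (y1 * x3)) - (x1 * y2) ^ 2) (-(x1 * y1 * (x1 * y3)) - (y1 * x2) ^ 2)
  linear_combination h

theorem uv_fix {τ : M ≃ₐ[k] M} {ω : 𝓞 M} (hs : Set3 τ ω) (b : T3 M) :
    tO τ (UU τ ω b) = UU τ ω b ∧ tO τ (VV τ ω b) = VV τ ω b ∧
      tO τ (dd τ b.1 b.2.1 ^ 4) = dd τ b.1 b.2.1 ^ 4 := by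
  have h1 : tO τ (1 : 𝓞 M) = 1 := by exact_mod_cast tO_nat τ 1
  have h4 : tO τ (4 : 𝓞 M) = 4 := by exact_mod_cast tO_nat τ 4
  refine ⟨?_, ?_, ?_⟩
  · unfold UU
    simp only [tO_sub, tO_mul, tO_add, tO_pow, tO_tO hs.inv, hs.tau, h1, h4]
    linear_combination (-(ω * (ω - 1) * (b.1 * tO τ b.1 * (tO τ b.1 * b.2.2) +
      (b.1 * tO τ b.2.1) ^ 2))) * hs.om
  · unfold VV
    simp only [tO_sub, tO_mul, tO_add, tO_pow, tO_tO hs.inv, hs.tau, h1, h4]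
    linear_combination (-(ω * (ω - 1) * (b.1 * tO τ b.1 * (b.1 * tO τ b.2.2) +
      (tO τ b.1 * b.2.1) ^ 2))) * hs.om
  · unfold dd
    simp only [tO_sub, tO_mul, tO_pow, tO_tO hs.inv]
    ring

theorem uv_inj {τ : M ≃ₐ[k] M} {ω : 𝓞 M} (hs : Set3 τ ω) {l : Ideal (𝓞 k)} (hL : (ex M l).IsPrime)
    (h3 : (3 : 𝓞 k) ∉ l) (j : ℕ) (b1 b2 b3 b3' : 𝓞 M) (h1 : b1 ∉ ex M l)
    (hU : UU τ ω (b1, b2, b3) - UU τ ω (b1, b2, b3') ∈ ex M l ^ j)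
    (hV : VV τ ω (b1, b2, b3) - VV τ ω (b1, b2, b3') ∈ ex M l ^ j) : b3 - b3' ∈ ex M l ^ j := by
  have h3' : (3 : 𝓞 M) ∉ ex M l := by
    intro h
    apply h3
    rw [← ex_comap (M := M) l, Ideal.mem_comap]
    rw [map_ofNat]
    exact h
  have ht1 : tO τ b1 ∉ ex M l := by
    intro h
    have h2 := ex_tau0 τ h
    rw [tO_tO hs.inv] at h2
    exact h1 h2
  have e1 : -9 * (b1 * tO τ b1 * (b1 * tO τ (b3 - b3'))) ∈ ex M l ^ j := by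
    have e : -9 * (b1 * tO τ b1 * (b1 * tO τ (b3 - b3'))) =
        (ω - ω ^ 2) * (1 - ω ^ 2) * (UU τ ω (b1, b2, b3) - UU τ ω (b1, b2, b3')) -
        (ω - ω ^ 2) * (1 - ω) * (VV τ ω (b1, b2, b3) - VV τ ω (b1, b2, b3')) := by
      unfold UU VV
      simp only [tO_sub]
      linear_combination (-(b1 * tO τ b1 * (b1 * (tO τ b3 - tO τ b3'))) *
        (-ω ^ 4 + 2 * ω ^ 3 + 2 * ω ^ 2 - 9 * ω + 9)) * hs.om
    rw [e]
    exact sub_mem (Ideal.mul_mem_left _ _ hU) (Ideal.mul_mem_left _ _ hV)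
  have key : ∀ u v : 𝓞 M, u * v ∈ ex M l ^ j → u ∉ ex M l → v ∈ ex M l ^ j := by
    intro u v huv hu
    rcases Nat.eq_zero_or_pos j with rfl | hj
    · rw [pow_zero, Ideal.one_eq_top]
      exact Submodule.mem_top
    exact (Ideal.IsPrime.mul_mem_pow (ex M l) huv).resolve_left hu
  have h9 : (-9 : 𝓞 M) ∉ ex M l := by
    intro h
    have h2 : (3 : 𝓞 M) * 3 ∈ ex M l := by
      have h4 := neg_mem h
      have h5 : -(-9 : 𝓞 M) = 3 * 3 := by norm_num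
      rwa [h5] at h4
    exact (hL.mem_or_mem h2).elim h3' h3'
  have e2 := key _ _ e1 h9
  rw [mul_assoc] at e2
  have e3 := key _ _ (key _ _ (key _ _ e2 h1) ht1) h1
  have e4 := ex_tau τ e3
  rwa [tO_tO hs.inv] at e4

end H12.AQ
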