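import Pool.Agent.H12.AQ.Rt2

/-!
# [H12 AQ LIN] The number of `b3` for fixed `b1, b2` (110-160 lines)

`L = ex M l`, `N = absNorm l`, `L^j` has `N^(2j)` classes (`cardL`), `l^j` has `N^j` (`cardk`).
(1) For `θ` with `θ τθ = 1`, `x ∈ 𝓞 M`, `y ∈ 𝓞 k` (image `η` in `𝓞 M`, `τη = η`: `tO_algebraMap`): by `ring` (after `E2_eq`, `tO_add`, `tO_mul`) and `θ τθ = 1`
`E2 (b1, b2, x + η θ) = a η^2 + B η + E2 (b1, b2, x)` with `a = b1 τb1 - (b1 τθ + τb1 θ)^2`,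
`B = b1 θ (τb1 τx - τb2^2) + τb1 τθ (b1 x - b2^2) - 2 (b1 τx + x τb1 - 2 b2 τb2) (b1 τθ + θ τb1)`. `a`, `B`, `E2 (..)` are fixed by `τ` (`tO_tO`, `E2_fix`), so they are
the images of `a0, B0, C0 ∈ 𝓞 k` (`fixed_int`), and `E2 (..) ∈ L^j` iff `a0 y^2 + B0 y + C0 ∈ l^j` (`alg_mem_ex_iff`).
(2) `θ = 1, ω, ω^2` have `θ τθ = 1` (`Set3.tau`, `Set3.cube`) and the sum of the three `a_θ` is `- 3 b1 τb1` (`Set3.om`; `linear_combination`): so for one of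
them `a_θ ∉ L^(e+1)` (`Ideal.add_mem`), i.e. `a0 ∉ l^(e+1)`.
(3) DOUBLE COUNTING. `G = 𝓞 M ⧸ L^j` (finite, `N^(2j)` elements), `H = 𝓞 k ⧸ l^j` (`N^j` elements), `Z ⊂ G` the set of the statement. `x ↦ E2 (b1, b2, x)` is well
defined modulo `L^j` (`E2_congr`), so `mk x ∈ Z` iff `E2 (b1, b2, x) ∈ L^j`. Let `ι : H → G`, `y ↦ y θ` (well defined, additive). For every `z ∈ G`:
`#{y ∈ H : z + ι y ∈ Z} ≤ 2 N^((j+e)/2)` by (1) and `rt2`. The number of pairs `(z, y) ∈ G × H` with `z + ι y ∈ Z` is `#H * #Z` (for every `y` the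
translation `z ↦ z + ι y` is a bijection of `G`) (`Finset.sum_comm`). So `N^j #Z ≤ N^(2j) 2 N^((j+e)/2)`, `#Z ≤ 2 N^(j + (j+e)/2)`.
-/

set_option autoImplicit false
set_option linter.unusedSectionVars false

open scoped NumberField
open H88.A4 H88.WS Pool.Agent.H67.WA H77.PX Pool.Agent.H12.WM H88.AQ

noncomputable section

namespace H12.AQ

variable {k M : Type} [Field k] [NumberField k] [Field M] [NumberField M] [Algebra k M]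

/-- coefficient of `η ^ 2` -/
private def aq (τ : M ≃ₐ[k] M) (b1 θ : 𝓞 M) : 𝓞 M :=
  b1 * tO τ b1 - (b1 * tO τ θ + tO τ b1 * θ) ^ 2

/-- coefficient of `η` -/
private def bq (τ : M ≃ₐ[k] M) (b1 b2 x θ : 𝓞 M) : 𝓞 M :=
  b1 * θ * (tO τ b1 * tO τ x - tO τ b2 ^ 2) + tO τ b1 * tO τ θ * (b1 * x - b2 ^ 2) -
    2 * (b1 * tO τ x + x * tO τ b1 - 2 * b2 * tO τ b2) * (b1 * tO τ θ + tO τ b1 * θ)

private theorem ln_exp (τ : M ≃ₐ[k] M) (b1 b2 x θ η : 𝓞 M) (hθ : θ * tO τ θ = 1) (hη : tO τ η = η) :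
    E2 τ (b1, b2, x + η * θ) = aq τ b1 θ * η ^ 2 + bq τ b1 b2 x θ * η + E2 τ (b1, b2, x) := by
  rw [E2_eq, E2_eq]
  simp only [tO_add, tO_mul, hη]
  unfold aq bq
  linear_combination (b1 * tO τ b1 * η ^ 2) * hθ

private theorem ln_a {τ : M ≃ₐ[k] M} (hτ : Invo k M τ) (b1 θ : 𝓞 M) : tO τ (aq τ b1 θ) = aq τ b1 θ := by
  unfold aq
  simp only [tO_sub, tO_mul, tO_pow, tO_add, tO_tO hτ]
  ring

private theorem ln_b {τ : M ≃ₐ[k] M} (hτ : Invo k M τ) (b1 b2 x θ : 𝓞 M) :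
    tO τ (bq τ b1 b2 x θ) = bq τ b1 b2 x θ := by
  have h2 : tO τ (2 : 𝓞 M) = 2 := by exact_mod_cast tO_nat τ 2
  unfold bq
  simp only [tO_sub, tO_mul, tO_pow, tO_add, tO_tO hτ, h2]
  ring

/-- one of the three coefficients is good -/
private theorem ln_om {τ : M ≃ₐ[k] M} {ω : 𝓞 M} (hs : Set3 τ ω) (b1 : 𝓞 M) (I : Ideal (𝓞 M))
    (h : 3 * (b1 * tO τ b1) ∉ I) : ∃ θ : 𝓞 M, θ * tO τ θ = 1 ∧ aq τ b1 θ ∉ I := by
  have hc : ω ^ 3 = 1 := hs.cube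
  have ho : ω ^ 2 + ω + 1 = 0 := hs.om
  have h1 : ω * tO τ ω = 1 := by
    rw [hs.tau]
    linear_combination hc
  have h2 : ω ^ 2 * tO τ (ω ^ 2) = 1 := by
    rw [tO_pow]
    linear_combination (ω * tO τ ω + 1) * h1
  by_contra hno
  push Not at hno
  have e0 := hno 1 (by rw [tO_one, one_mul])
  have e1 := hno ω h1
  have e2 := hno (ω ^ 2) h2
  apply h
  have e3 : 3 * (b1 * tO τ b1) = -(aq τ b1 1 + aq τ b1 ω + aq τ b1 (ω ^ 2)) := by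
    unfold aq
    rw [tO_one, tO_pow, hs.tau]
    linear_combination (b1 * tO τ b1 * (-4 - 2 * ω ^ 3) - b1 ^ 2 * (ω + ω ^ 2 * (ω ^ 3 + 1)) -
      tO τ b1 ^ 2 * ω) * hc + (-(b1 ^ 2) - tO τ b1 ^ 2) * ho
  rw [e3]
  exact I.neg_mem (I.add_mem (I.add_mem e0 e1) e2)

theorem lin {τ : M ≃ₐ[k] M} {ω : 𝓞 M} (hs : Set3 τ ω) {l : Ideal (𝓞 k)} (hl : l.IsPrime) (hl0 : l ≠ ⊥) (j e : ℕ)
    (b1 b2 : 𝓞 M) (h : 3 * (b1 * tO τ b1) ∉ ex M l ^ (e + 1)) :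
    (Ideal.Quotient.mk (ex M l ^ j) '' {x | E2 τ (b1, b2, x) ∈ ex M l ^ j}).ncard ≤
      2 * Ideal.absNorm l ^ (j + (j + e) / 2) := by
  classical
  have hτ := hs.inv
  obtain ⟨θ, hθ, ha⟩ := ln_om hs b1 _ h
  obtain ⟨a0, ha0⟩ := fixed_int hτ (ln_a hτ b1 θ)
  have ha' : a0 ∉ l ^ (e + 1) := fun h1 => ha (by rw [← ha0, alg_mem_ex_iff]; exact h1)
  have hL0 : ex M l ^ j ≠ ⊥ := exj_ne hl0 j
  have hl0' : l ^ j ≠ ⊥ := pow_ne_zero j hl0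
  have hfG : Finite (𝓞 M ⧸ (ex M l ^ j)) := finQ hL0
  have hfH : Finite (𝓞 k ⧸ (l ^ j)) := finQ hl0'
  have hG : Fintype (𝓞 M ⧸ (ex M l ^ j)) := Fintype.ofFinite _
  have hH : Fintype (𝓞 k ⧸ (l ^ j)) := Fintype.ofFinite _
  obtain ⟨Z, hZ⟩ : ∃ Z : Set (𝓞 M ⧸ (ex M l ^ j)), Z =
    Ideal.Quotient.mk (ex M l ^ j) '' {x | E2 τ (b1, b2, x) ∈ ex M l ^ j} := ⟨_, rfl⟩
  have hmem : ∀ x : 𝓞 M, Ideal.Quotient.mk (ex M l ^ j) x ∈ Z ↔ E2 τ (b1, b2, x) ∈ ex M l ^ j := by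
    intro x
    rw [hZ]
    constructor
    · rintro ⟨x', hx', hxx⟩
      have h1 : E2 τ (b1, b2, x) - E2 τ (b1, b2, x') ∈ ex M l ^ j := by
        refine E2_congr τ (q3_eq.2 ⟨?_, ?_, ?_⟩)
        · simp
        · simp
        · exact Ideal.Quotient.eq.1 hxx.symm
      have h2 := (ex M l ^ j).add_mem h1 hx'
      rwa [sub_add_cancel] at h2
    · intro hx
      exact ⟨x, hx, rfl⟩
  -- the map on classes
  have hle : l ^ j ≤ (ex M l ^ j).comap (algebraMap (𝓞 k) (𝓞 M)) := fun y hy =>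
    Ideal.mem_comap.2 (alg_mem_ex_iff.2 hy)
  obtain ⟨ι, hι⟩ : ∃ ι : (𝓞 k ⧸ (l ^ j)) → (𝓞 M ⧸ (ex M l ^ j)), ∀ y : 𝓞 k,
      ι (Ideal.Quotient.mk (l ^ j) y) =
        Ideal.Quotient.mk (ex M l ^ j) (algebraMap (𝓞 k) (𝓞 M) y * θ) := by
    refine ⟨fun z => Ideal.quotientMap (ex M l ^ j) (algebraMap (𝓞 k) (𝓞 M)) hle z *
      Ideal.Quotient.mk (ex M l ^ j) θ, fun y => ?_⟩
    simp only [Ideal.quotientMap_mk, map_mul]
  rw [← hZ]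
  have hcard1 : ∀ z : 𝓞 M ⧸ (ex M l ^ j),
      (Finset.univ.filter fun y : 𝓞 k ⧸ (l ^ j) => z + ι y ∈ Z).card ≤
        2 * Ideal.absNorm l ^ ((j + e) / 2) := by
    intro z
    obtain ⟨x, rfl⟩ := Ideal.Quotient.mk_surjective z
    obtain ⟨B0, hB0⟩ := fixed_int hτ (ln_b hτ b1 b2 x θ)
    obtain ⟨C0, hC0⟩ := fixed_int hτ (E2_fix hτ (b1, b2, x))
    refine le_trans (le_of_eq ?_) (rt2 hl hl0 j e a0 B0 C0 ha')
    rw [← Set.ncard_coe_finset]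
    congr 1
    ext y
    obtain ⟨y, rfl⟩ := Ideal.Quotient.mk_surjective y
    have h1 : ∀ y : 𝓞 k, Ideal.Quotient.mk (ex M l ^ j) x + ι (Ideal.Quotient.mk (l ^ j) y) ∈ Z ↔
        a0 * y ^ 2 + B0 * y + C0 ∈ l ^ j := by
      intro y
      rw [hι, ← map_add, hmem, ln_exp τ b1 b2 x θ _ hθ (tO_algebraMap τ y), ← ha0, ← hB0, ← hC0,
        ← map_pow, ← map_mul, ← map_mul, ← map_add, ← map_add, alg_mem_ex_iff]
    rw [Finset.coe_filter]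
    simp only [Finset.mem_univ, true_and, Set.mem_setOf_eq]
    rw [h1]
    constructor
    · intro h2
      exact ⟨y, h2, rfl⟩
    · rintro ⟨y', hy', hyy⟩
      rw [← h1, ← hyy, h1]
      exact hy'
  have hcard2 : ∀ y : 𝓞 k ⧸ (l ^ j),
      (Finset.univ.filter fun z : 𝓞 M ⧸ (ex M l ^ j) => z + ι y ∈ Z).card = Z.ncard := by
    intro y
    rw [← Set.ncard_coe_finset, Finset.coe_filter]
    have h1 : {z : 𝓞 M ⧸ (ex M l ^ j) | z ∈ Finset.univ ∧ z + ι y ∈ Z} = (fun z => z + -ι y) '' Z := by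
      ext z
      constructor
      · rintro ⟨-, h2⟩
        exact ⟨_, h2, by simp⟩
      · rintro ⟨w, hw, rfl⟩
        refine ⟨Finset.mem_univ _, ?_⟩
        simpa using hw
    rw [h1, Set.ncard_image_of_injective _ (add_left_injective _)]
  have hdc : ∑ z : 𝓞 M ⧸ (ex M l ^ j), (Finset.univ.filter fun y : 𝓞 k ⧸ (l ^ j) => z + ι y ∈ Z).card =
      ∑ y : 𝓞 k ⧸ (l ^ j), (Finset.univ.filter fun z : 𝓞 M ⧸ (ex M l ^ j) => z + ι y ∈ Z).card := by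
    simp only [Finset.card_filter]
    exact Finset.sum_comm
  rw [Finset.sum_congr rfl fun y _ => hcard2 y, Finset.sum_const, Finset.card_univ, smul_eq_mul] at hdc
  have hle2 : ∑ z : 𝓞 M ⧸ (ex M l ^ j), (Finset.univ.filter fun y : 𝓞 k ⧸ (l ^ j) => z + ι y ∈ Z).card ≤
      ∑ _z : 𝓞 M ⧸ (ex M l ^ j), 2 * Ideal.absNorm l ^ ((j + e) / 2) :=
    Finset.sum_le_sum fun z _ => hcard1 z
  rw [hdc, Finset.sum_const, Finset.card_univ, smul_eq_mul, ← Nat.card_eq_fintype_card,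
    ← Nat.card_eq_fintype_card, cardL hτ, cardk] at hle2
  have hN : 0 < Ideal.absNorm l ^ j := pow_pos (by have := two_le_N hl hl0; omega) _
  refine Nat.le_of_mul_le_mul_left ?_ hN
  refine hle2.trans (le_of_eq ?_)
  rw [pow_add, two_mul j, pow_add]
  ring

end H12.AQ
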