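import Pool.Agent.H12.AQ.Val

/-!
# [H12 AQ RT2] Roots of a quadratic polynomial modulo `l^j` with leading coefficient not in `l^(e+1)` (40-70 lines)

`N = absNorm l`, `r = (j + 1 - e) / 2` (natural numbers). `j - r ≤ (j + e) / 2` (`omega`).
CLAIM: the roots `x` (`a x^2 + B x + C ∈ l^j`) lie in at most two classes modulo `l^r`. If there is no root: nothing. Let `x0` be a root. For another root `x`:
`(x - x0) (a (x + x0) + B) ∈ l^j` (difference). If `x - x0 ∈ l^r`: first class. If `x - x0 ∉ l^r`: then `a (x + x0) + B ∈ l^(j+1-r)` (`vmul`).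
For two such roots `x, x'`: `a (x - x') ∈ l^(j+1-r)` and `a ∉ l^(e+1)`, so `x - x' ∈ l^((j+1-r)+1-(e+1))` (`vmul`) and `j + 1 - r - e ≥ r` or `r = 0` (`omega`):
`x - x' ∈ l^r`: second class. The classes modulo `l^j` of a class modulo `l^r` (`r ≤ j`): `N^(j-r)` (`H77.PX.coset_card`); if `r > j` then `j = 0`: `𝓞 K ⧸ l^0` has one
element (`cardk`; `Set.ncard_le_..`). Total `≤ 2 N^(j-r) ≤ 2 N^((j+e)/2)`. The end of the proof of `H77.PX.root_card` (file H77/PX/Root.lean) is a model.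
-/

set_option autoImplicit false
set_option linter.unusedSectionVars false

open scoped NumberField
open H88.A4 H88.WS Pool.Agent.H67.WA H77.PX Pool.Agent.H12.WM H88.AQ

noncomputable section

namespace H12.AQ

variable {k M : Type} [Field k] [NumberField k] [Field M] [NumberField M] [Algebra k M]

theorem rt2 {K : Type} [Field K] [NumberField K] {l : Ideal (𝓞 K)} (hl : l.IsPrime) (hl0 : l ≠ ⊥) (j e : ℕ)
    (a B C : 𝓞 K) (ha : a ∉ l ^ (e + 1)) :
    (Ideal.Quotient.mk (l ^ j) '' {x | a * x ^ 2 + B * x + C ∈ l ^ j}).ncard ≤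
      2 * Ideal.absNorm l ^ ((j + e) / 2) := by
  rcases Set.eq_empty_or_nonempty {x | a * x ^ 2 + B * x + C ∈ l ^ j} with h0 | ⟨x0, hx0⟩
  · rw [h0, Set.image_empty, Set.ncard_empty]
    exact Nat.zero_le _
  have hfin : Finite (𝓞 K ⧸ (l ^ j)) := finQ (pow_ne_zero j hl0)
  obtain ⟨r, hr⟩ : ∃ r : ℕ, r = (j + 1 - e) / 2 := ⟨_, rfl⟩
  have hdif : ∀ x, x ∈ {x | a * x ^ 2 + B * x + C ∈ l ^ j} → x - x0 ∉ l ^ r →
      a * (x + x0) + B ∈ l ^ (j + 1 - r) := by
    intro x hx hxu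
    have h1 : (x - x0) * (a * (x + x0) + B) ∈ l ^ j := by
      have h2 : (x - x0) * (a * (x + x0) + B) =
          (a * x ^ 2 + B * x + C) - (a * x0 ^ 2 + B * x0 + C) := by ring
      rw [h2]
      exact (l ^ j).sub_mem hx hx0
    exact vmul hl hl0 h1 hxu
  have hex : ∃ x1 : 𝓞 K, {x | a * x ^ 2 + B * x + C ∈ l ^ j} ⊆
      {x | x - x0 ∈ l ^ r} ∪ {x | x - x1 ∈ l ^ r} := by
    by_cases hall : ∀ x, x ∈ {x | a * x ^ 2 + B * x + C ∈ l ^ j} → x - x0 ∈ l ^ r
    · exact ⟨x0, fun x hx => Or.inl (hall x hx)⟩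
    · push Not at hall
      obtain ⟨x1, hx1, hx1'⟩ := hall
      refine ⟨x1, fun x hx => ?_⟩
      by_cases hxu : x - x0 ∈ l ^ r
      · exact Or.inl hxu
      right
      have h1 := hdif x hx hxu
      have h2 := hdif x1 hx1 hx1'
      have h3 : a * (x - x1) ∈ l ^ (j + 1 - r) := by
        have h4 : a * (x - x1) = (a * (x + x0) + B) - (a * (x1 + x0) + B) := by ring
        rw [h4]
        exact (l ^ _).sub_mem h1 h2
      have h5 := vmul hl hl0 h3 ha
      exact Ideal.pow_le_pow_right (by omega) h5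
  obtain ⟨x1, hx1⟩ := hex
  have hN : 0 < Ideal.absNorm l := lt_of_lt_of_le (by norm_num) (two_le_N hl hl0)
  calc (Ideal.Quotient.mk (l ^ j) '' {x | a * x ^ 2 + B * x + C ∈ l ^ j}).ncard
      ≤ (Ideal.Quotient.mk (l ^ j) '' ({x | x - x0 ∈ l ^ r} ∪ {x | x - x1 ∈ l ^ r})).ncard :=
        Set.ncard_le_ncard (Set.image_mono hx1) (Set.toFinite _)
    _ ≤ (Ideal.Quotient.mk (l ^ j) '' {x | x - x0 ∈ l ^ r}).ncard +
          (Ideal.Quotient.mk (l ^ j) '' {x | x - x1 ∈ l ^ r}).ncard := by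
        rw [Set.image_union]
        exact Set.ncard_union_le _ _
    _ = 2 * Ideal.absNorm l ^ (j - r) := by
        rw [coset_card hl hl0 (by omega), coset_card hl hl0 (by omega)]
        ring
    _ ≤ 2 * Ideal.absNorm l ^ ((j + e) / 2) :=
        Nat.mul_le_mul_left 2 (Nat.pow_le_pow_right hN (by omega))

end H12.AQ
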