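import Pool.Agent.H12.AQ.Val

/-!
# [H12 AQ SPLA] Split primes: the pair of the classes of `b` and `τ(b)` (60-90 lines)

`sp_inj`: `x = b1 - b1'` etc.: `x ∈ P^j` and `τx ∈ P^j` (`tO_sub`), i.e. `x ∈ cI τ (P^j) = (cI τ P)^j` (`cI_pow`); `P`, `cI τ P` are maximal and different, so their
powers are coprime (`Ideal.isCoprime_of_isMaximal`, `IsCoprime.pow`) and `x ∈ P^j ⊓ (cI τ P)^j = (P * cI τ P)^j = (ex M l)^j` (`Ideal.inf_eq_mul_of_isCoprime`,
`mul_pow`). For the three entries (`q3_eq`).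
`sp_le`: by `sp_inj` the map `W → Q3 (P^j) × Q3 (P^j)`, `z ↦ (q3 b, q3 (τ b))` (`b` the chosen representative of `hW`, or any: the pair depends only on `z`) is
injective; its second component is in `V`, and for a given second component `q3 (P^j) c ∈ V`, `c = τ b'`: the first component is in `Zc c (P^j)`:
`E2 τ b = Ec (τ b) b ∈ (ex M l)^j ≤ P^j` (`ex M l = P * cI τ P ≤ P`: `Ideal.mul_le_right`, `Ideal.pow_right_mono`) and `Ec (τ b) b - Ec c b ∈ P^j` if `q3 (τ b) = q3 c`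
(`Ec` is symmetric, `Ec c b = Ec b c` by `ring`, and `Ec_congr`), so `q3 b ∈ Zc c (P^j)` (`mem_Zc`), at most `zn c (P^j) ≤ n` classes.
(`Set.ncard` of the image; `Finset.card_le_mul_card_image` for the second component; all sets are finite: `finQ`.)
-/

set_option autoImplicit false
set_option linter.unusedSectionVars false

open scoped NumberField
open H88.A4 H88.WS Pool.Agent.H67.WA H77.PX Pool.Agent.H12.WM H88.AQ

noncomputable section

namespace H12.AQ

variable {k M : Type} [Field k] [NumberField k] [Field M] [NumberField M] [Algebra k M]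

theorem sp_inj {τ : M ≃ₐ[k] M} (hτ : Invo k M τ) {l : Ideal (𝓞 k)} {P : Ideal (𝓞 M)} (hP : TA τ l P) (j : ℕ)
    (b b' : T3 M) (h1 : q3 (P ^ j) b = q3 (P ^ j) b') (h2 : q3 (P ^ j) (cj τ b) = q3 (P ^ j) (cj τ b')) :
    q3 (ex M l ^ j) b = q3 (ex M l ^ j) b' := by
  obtain ⟨hp, hp0, hex, hne, -⟩ := hP
  have hm : P.IsMaximal := Ideal.IsPrime.isMaximal hp hp0
  have hp' : (cI τ P).IsPrime := cI_prime hp
  have hp0' : cI τ P ≠ ⊥ := by
    intro h
    apply hp0
    rw [← cI_cI hτ P, h]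
    refine le_bot_iff.1 fun x hx => ?_
    have h3 : tO τ x = 0 := mem_cI.1 hx
    have h4 : x = 0 := tO_inj τ (by rw [h3, tO_zero])
    rw [h4]
    exact Submodule.zero_mem _
  have hm' : (cI τ P).IsMaximal := Ideal.IsPrime.isMaximal hp' hp0'
  have hco : IsCoprime (P ^ j) (cI τ P ^ j) := (Ideal.isCoprime_of_isMaximal hne).pow
  have key : ∀ x : 𝓞 M, x ∈ P ^ j → tO τ x ∈ P ^ j → x ∈ ex M l ^ j := by
    intro x hx hx'
    rw [hex, mul_pow, Ideal.mul_eq_inf_of_isCoprime hco]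
    refine ⟨hx, ?_⟩
    rw [← cI_pow hτ]
    exact mem_cI.2 hx'
  obtain ⟨a1, a2, a3⟩ := q3_eq.1 h1
  obtain ⟨c1, c2, c3⟩ := q3_eq.1 h2
  refine q3_eq.2 ⟨key _ a1 ?_, key _ a2 ?_, key _ a3 ?_⟩
  · rw [tO_sub]
    exact c1
  · rw [tO_sub]
    exact c2
  · rw [tO_sub]
    exact c3

theorem sp_le {τ : M ≃ₐ[k] M} (hτ : Invo k M τ) {l : Ideal (𝓞 k)} {P : Ideal (𝓞 M)} (hP : TA τ l P) (j : ℕ)
    (W : Set (Q3 (ex M l ^ j))) (V : Set (Q3 (P ^ j))) (n : ℕ)
    (hn : ∀ c : T3 M, q3 (P ^ j) c ∈ V → zn c (P ^ j) ≤ n)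
    (hW : ∀ z ∈ W, ∃ b : T3 M, z = q3 (ex M l ^ j) b ∧ E2 τ b ∈ ex M l ^ j ∧ q3 (P ^ j) (cj τ b) ∈ V) :
    W.ncard ≤ V.ncard * n := by
  classical
  have hp0 : P ≠ ⊥ := hP.2.1
  have hPj : P ^ j ≠ ⊥ := pow_ne_zero j hp0
  have hexP : ex M l ≤ P := by
    rw [hP.2.2.1]
    exact Ideal.mul_le_left (I := P) (J := cI τ P)
  have hex0 : ex M l ≠ ⊥ := by
    intro h
    rw [hP.2.2.1] at h
    rcases mul_eq_zero.1 h with h | h
    · exact hp0 h
    · apply hp0
      rw [← cI_cI hτ P, show cI τ P = ⊥ from h]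
      refine le_bot_iff.1 fun x hx => ?_
      have h3 : tO τ x = 0 := mem_cI.1 hx
      have h4 : x = 0 := tO_inj τ (by rw [h3, tO_zero])
      rw [h4]
      exact Submodule.zero_mem _
  have hfa := finQ (pow_ne_zero j hex0 : ex M l ^ j ≠ ⊥)
  have hfb := finQ hPj
  have hWf : W.Finite := Set.toFinite _
  have hVf : V.Finite := Set.toFinite _
  have hb : ∀ z : Q3 (ex M l ^ j), ∃ b : T3 M, z ∈ W →
      z = q3 (ex M l ^ j) b ∧ E2 τ b ∈ ex M l ^ j ∧ q3 (P ^ j) (cj τ b) ∈ V := by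
    intro z
    by_cases hz : z ∈ W
    · obtain ⟨b, hb⟩ := hW z hz
      exact ⟨b, fun _ => hb⟩
    · exact ⟨0, fun h => absurd h hz⟩
  choose b hb using hb
  set f : Q3 (ex M l ^ j) → Q3 (P ^ j) := fun z => q3 (P ^ j) (cj τ (b z)) with hf
  have hfib : ∀ a ∈ hWf.toFinset.image f, (hWf.toFinset.filter fun z => f z = a).card ≤ n := by
    intro a ha
    obtain ⟨z0, hz0, ha0⟩ := Finset.mem_image.1 ha
    have haV : a ∈ V := by
      rw [← ha0]
      exact (hb z0 (hWf.mem_toFinset.1 hz0)).2.2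
    obtain ⟨c, rfl⟩ := q3_surj (P ^ j) a
    have h1 : (hWf.toFinset.filter fun z => f z = q3 (P ^ j) c).card ≤
        (finZ hPj c).toFinset.card := by
      refine Finset.card_le_card_of_injOn (fun z => q3 (P ^ j) (b z)) ?_ ?_
      · intro z hz
        obtain ⟨hz1, hz2⟩ := Finset.mem_filter.1 (Finset.mem_coe.1 hz)
        have hz3 := hb z (hWf.mem_toFinset.1 hz1)
        refine Finset.mem_coe.2 ((finZ hPj c).mem_toFinset.2 (mem_Zc.2 ?_))
        have h4 : E2 τ (b z) ∈ P ^ j := Ideal.pow_right_mono hexP j hz3.2.1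
        have h5 : Ec (cj τ (b z)) (b z) ∈ P ^ j := h4
        have h6 : Ec (b z) (cj τ (b z)) - Ec (b z) c ∈ P ^ j := Ec_congr hz2 (b z)
        have h7 : ∀ x y : T3 M, Ec x y = Ec y x := fun x y => by
          unfold Ec mx dt
          ring
        rw [h7 (b z) (cj τ (b z)), h7 (b z) c] at h6
        have h8 := (P ^ j).sub_mem h5 h6
        rwa [sub_sub_cancel] at h8
      · intro z hz z' hz' h
        obtain ⟨hz1, hz2⟩ := Finset.mem_filter.1 (Finset.mem_coe.1 hz)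
        obtain ⟨hz1', hz2'⟩ := Finset.mem_filter.1 (Finset.mem_coe.1 hz')
        have h3 := sp_inj hτ hP j (b z) (b z') h (hz2.trans hz2'.symm)
        rw [(hb z (hWf.mem_toFinset.1 hz1)).1, (hb z' (hWf.mem_toFinset.1 hz1')).1]
        exact h3
    refine h1.trans ?_
    have h2 := hn c haV
    unfold zn at h2
    rwa [Set.ncard_eq_toFinset_card _ (finZ hPj c)] at h2
  have h1 := Finset.card_le_mul_card_image hWf.toFinset n hfib
  rw [Set.ncard_eq_toFinset_card W hWf]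
  refine h1.trans ?_
  rw [mul_comm]
  refine Nat.mul_le_mul_right n ?_
  rw [Set.ncard_eq_toFinset_card V hVf]
  refine Finset.card_le_card fun a ha => ?_
  obtain ⟨z0, hz0, ha0⟩ := Finset.mem_image.1 ha
  rw [← ha0]
  exact hVf.mem_toFinset.2 (hb z0 (hWf.mem_toFinset.1 hz0)).2.2

end H12.AQ
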